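import Mathlib

/-!
Models of ZFC, and the statement that some maximal subalgebra of the Borel algebra of the Cantor
space with property (T) has fewer than continuum many members modulo null sets, written in the
language of set theory.  A structure is a type `M` with a binary relation `E`, read as membership.
Inside the structure the Cantor space is the power set of `ω`: the point `x` has `x(m) = 1` iff
`m ∈ x`.
-/

namespace Pool.Agent.Lib.MP_898cae_lc

/-- First-order formulas of the language of set theory, with variables named by numbers. -/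
inductive Fml : Type
  | mem (i j : ℕ) : Fml
  | eq (i j : ℕ) : Fml
  | neg (φ : Fml) : Fml
  | and (φ ψ : Fml) : Fml
  | ex (i : ℕ) (φ : Fml) : Fml

variable {M : Type 1} (E : M → M → Prop)

/-- Tarski's satisfaction relation. -/
def Sat : Fml → (ℕ → M) → Prop
  | .mem i j, v => E (v i) (v j)
  | .eq i j, v => v i = v j
  | .neg φ, v => ¬ Sat φ v
  | .and φ ψ, v => Sat φ v ∧ Sat ψ v
  | .ex i φ, v => ∃ x, Sat φ (Function.update v i x)

/-- `a ⊆ b`. -/
def Subs (a b : M) : Prop := ∀ z, E z a → E z b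

/-- `a = ∅`. -/
def Emp (a : M) : Prop := ∀ z, ¬ E z a

/-- `b = a ∪ {a}`. -/
def Succ (a b : M) : Prop := ∀ z, E z b ↔ E z a ∨ z = a

/-- `w` is an inductive set. -/
def Ind (w : M) : Prop := (∃ e, E e w ∧ Emp E e) ∧ ∀ a, E a w → ∃ b, E b w ∧ Succ E a b

/-- The axioms of ZFC, in the form of Kunen's book. -/
structure ZFC : Prop where
  extensionality : ∀ a b, (∀ z, E z a ↔ E z b) → a = b
  foundation : ∀ a, (∃ z, E z a) → ∃ y, E y a ∧ ∀ z, E z y → ¬ E z a
  separation : ∀ (φ : Fml) (v : ℕ → M) (a : M),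
    ∃ b, ∀ z, E z b ↔ E z a ∧ Sat E φ (Function.update v 0 z)
  pairing : ∀ a b, ∃ c, E a c ∧ E b c
  union : ∀ a, ∃ u, ∀ y z, E y a → E z y → E z u
  replacement : ∀ (φ : Fml) (v : ℕ → M) (a : M),
    (∀ x, E x a → ∃! y, Sat E φ (Function.update (Function.update v 0 x) 1 y)) →
      ∃ b, ∀ x, E x a → ∃ y, E y b ∧ Sat E φ (Function.update (Function.update v 0 x) 1 y)
  infinity : ∃ w, Ind E w
  powerSet : ∀ a, ∃ p, ∀ z, Subs E z a → E z p
  choice : ∀ a, (∀ y, E y a → ∃ z, E z y) →
    (∀ y y' z, E y a → E y' a → E z y → E z y' → y = y') →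
      ∃ c, ∀ y, E y a → ∃! z, E z y ∧ E z c

/-- `w = ω`, the least inductive set. -/
def Omega (w : M) : Prop := Ind E w ∧ ∀ w', Ind E w' → Subs E w w'

/-- `t = {a, b}`. -/
def Dbl (t a b : M) : Prop := ∀ z, E z t ↔ z = a ∨ z = b

/-- `z = (a, b)`, the Kuratowski pair. -/
def Pair (z a b : M) : Prop := ∀ t, E t z ↔ Dbl E t a a ∨ Dbl E t a b

/-- `(a, b) ∈ f`. -/
def App (f a b : M) : Prop := ∃ z, E z f ∧ Pair E z a b

/-- `f` is single-valued. -/
def Fn (f : M) : Prop := ∀ a b b', App E f a b → App E f a b' → b = b'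

/-- There is an injective function from the class `P` to the class `Q`. -/
def Inj (P Q : M → Prop) : Prop :=
  ∃ f, Fn E f ∧ (∀ a, P a → ∃ b, Q b ∧ App E f a b) ∧
    ∀ a a' b, App E f a b → App E f a' b → a = a'

/-- The class `P` has as many members as the set `c`. -/
def Eqn (P : M → Prop) (c : M) : Prop := Inj E P (fun z => E z c) ∧ Inj E (fun z => E z c) P

/-- `a + b = c` for natural numbers. -/
def IsAdd (a b c : M) : Prop := Subs E a c ∧ Eqn E (fun z => E z c ∧ ¬ E z a) b

/-- `a * b = c` for natural numbers. -/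
def IsMul (a b c : M) : Prop := Eqn E (fun z => ∃ i j, E i a ∧ E j b ∧ Pair E z i j) c

/-- `2 ^ n = c` for natural numbers. -/
def IsPow (n c : M) : Prop := Eqn E (fun s => Subs E s n) c

/-- `x` and `y` agree on the coordinates below `N`. -/
def Agree (N x y : M) : Prop := ∀ k, E k N → (E k x ↔ E k y)

variable (w : M)

/-- The cylinder of points agreeing with `s` below `N` is contained in `O`. -/
def Cyl (N s O : M) : Prop := ∀ y, Subs E y w → Agree E N s y → E y O

/-- `O` is an open subset of the Cantor space. -/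
def Opn (O : M) : Prop := ∀ x, E x O → Subs E x w ∧ ∃ N, E N w ∧ Cyl E w N x O

/-- `C` is the complement of `A` in the Cantor space. -/
def Cmp (A C : M) : Prop := ∀ x, E x C ↔ Subs E x w ∧ ¬ E x A

/-- `K` is clopen. -/
def Clop (K : M) : Prop := Opn E w K ∧ ∃ C, Cmp E w K C ∧ Opn E w C

/-- `S` contains the open sets and is closed under complements and countable unions. -/
def SigmaAlg (S : M) : Prop :=
  (∀ O, Opn E w O → E O S) ∧ (∀ A, E A S → ∃ C, E C S ∧ Cmp E w A C) ∧
    ∀ f, Fn E f → (∀ n A, E n w → App E f n A → E A S) →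
      ∃ B, E B S ∧ ∀ x, E x B ↔ ∃ n A, E n w ∧ App E f n A ∧ E x A

/-- `A` is a Borel subset of the Cantor space. -/
def Borel (A : M) : Prop := ∀ S, SigmaAlg E w S → E A S

/-- The open set `O` has measure at most `p / q`: for every `N`, the number of cylinders of
length `N` inside `O`, times `q`, is at most `2 ^ N * p`. -/
def Small (O p q : M) : Prop :=
  ∀ N, E N w → Inj E (fun z => ∃ s j, Subs E s N ∧ Cyl E w N s O ∧ E j q ∧ Pair E z s j)
    (fun z => ∃ s i, Subs E s N ∧ E i p ∧ Pair E z s i)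

/-- `X` is contained in an open set of measure at most `p / q`. -/
def Above (X : M → Prop) (p q : M) : Prop :=
  ∃ O, Opn E w O ∧ (∀ x, X x → E x O) ∧ Small E w O p q

/-- `p / q + 1 / d < p' / q`, that is, `p * d + q < p' * d`. -/
def Gap (p q d p' : M) : Prop :=
  ∃ a b c, E a w ∧ E b w ∧ E c w ∧ IsMul E p d a ∧ IsAdd E a q b ∧ IsMul E p' d c ∧ E b c

/-- `λ(X) ≤ λ(Y) + 1 / d` for the outer measure `λ`. -/
def MeasLe (X Y : M → Prop) (d : M) : Prop :=
  ∀ p q p', E p w → E q w → E p' w → ¬ Emp E q → Gap E w p q d p' →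
    Above E w Y p q → Above E w X p' q

/-- `λ(X) = 0`. -/
def Null (X : M → Prop) : Prop := ∀ d, E d w → ¬ Emp E d → MeasLe E w X (fun _ => False) d

/-- `d = k * m * 2 ^ (n + 1)`, so that `1 / d = ε * λ(U) / m` for `ε = 1 / k` and an atom `U` of
`A_n`. -/
def Den (k m n d : M) : Prop :=
  ∃ n' e u, E n' w ∧ E e w ∧ E u w ∧ Succ E n n' ∧ IsPow E n' e ∧ IsMul E k m u ∧ IsMul E u e d

/-- `x` lies in the atom of `A_n` that contains `y`. -/
def Atom (n y x : M) : Prop := Subs E x w ∧ ∀ k, E k n ∨ k = n → (E k x ↔ E k y)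

/-- Conditions (T.1) and (T.2) for `ε = 1 / k`, the set `A`, and the atom of `A_n` containing
`y`. -/
def Good (k n y A : M) : Prop :=
  (∀ d, E d w → Den E w k n n d →
    MeasLe E w (fun x => E x A ∧ Atom E w n y x) (fun _ => False) d ∨
      MeasLe E w (fun x => Atom E w n y x ∧ ¬ E x A) (fun _ => False) d) ∧
  ∀ m d, E m w → E d w → E n m → Den E w k m n d →
    MeasLe E w (fun x => E x A ∧ Atom E w n y x ∧ ¬ E m x)
      (fun x => E x A ∧ Atom E w n y x ∧ E m x) d ∧
    MeasLe E w (fun x => E x A ∧ Atom E w n y x ∧ E m x)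
      (fun x => E x A ∧ Atom E w n y x ∧ ¬ E m x) d

/-- `B` is a subalgebra of the Borel algebra, contains the clopen algebra, and has
property (T). -/
def HasT (B : M) : Prop :=
  (∀ A, E A B → Borel E w A) ∧ (∀ K, Clop E w K → E K B) ∧
  (∀ A, E A B → ∃ C, E C B ∧ Cmp E w A C) ∧
  (∀ A A', E A B → E A' B → ∃ C, E C B ∧ ∀ x, E x C ↔ E x A ∨ E x A') ∧
  ∀ p f k, E p w → Fn E f → (∀ i A, E i p → App E f i A → E A B) → E k w → ¬ Emp E k →
    ∃ n, E n w ∧ ¬ Emp E n ∧ ∀ y i A, Subs E y w → E i p → App E f i A → Good E w k n y A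

/-- `B` is maximal under inclusion among the subalgebras with property (T). -/
def MaxT (B : M) : Prop := HasT E w B ∧ ∀ B', HasT E w B' → Subs E B B' → Subs E B' B

/-- No nonempty member of `R` is null. -/
def Pos (R : M) : Prop := ∀ A, E A R → Null E w (fun x => E x A) → Emp E A

/-- Some maximal subalgebra `B` with property (T) has fewer than continuum many members modulo
null sets: a subset `R` of `B` meets every class modulo null sets, and the Cantor space does not
inject into `R`.  Moreover `R` is itself a subalgebra with property (T) and without nonempty null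
members, and it is maximal among such subalgebras. -/
def PropLt : Prop :=
  ∃ w B R, Omega E w ∧ MaxT E w B ∧ Subs E R B ∧
    (∀ A, E A B → ∃ A', E A' R ∧ Null E w fun x => ¬ (E x A ↔ E x A')) ∧
    ¬ Inj E (fun x => Subs E x w) (fun A => E A R) ∧
    HasT E w R ∧ Pos E w R ∧ ∀ R', HasT E w R' → Pos E w R' → Subs E R R' → Subs E R' R

end Pool.Agent.Lib.MP_898cae_lc
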