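import Pool.Agent.Lib.MP_e0f6ac_lc.Names
import Pool.Agent.Lib.MP_898cae_lc.Defs

/-!
The regular open algebra of a Baire space, ultrafilters containing the comeagre sets, the
two-valued quotients of the Boolean-valued universe, and statements having a truth value.
-/

open TopologicalSpace Set Filter
open Pool.Agent.Lib.MP_e0f6ac_lc

namespace Pool.Agent.Lib.MP_898cae_lc

/-- The regular open subsets of a space. -/
def RO (X : Type) [TopologicalSpace X] : Type := Heyting.Regular (Opens X)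

variable {X : Type} [TopologicalSpace X]

noncomputable instance roCBA : CompleteBooleanAlgebra (RO X) :=
  { (inferInstance : BooleanAlgebra (Heyting.Regular (Opens X))) with
    sSup := fun s => Heyting.Regular.toRegular (sSup (Heyting.Regular.val '' s))
    isLUB_sSup := fun _ => Heyting.Regular.gi.isLUB_of_u_image (isLUB_sSup _)
    sInf := fun s => Heyting.Regular.toRegular (sInf (Heyting.Regular.val '' s))
    isGLB_sInf := fun _ => Heyting.Regular.gi.isGLB_of_u_image (isGLB_sInf _) }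

/-- The underlying set of a regular open set. -/
def RO.set (b : RO X) : Set X := (Heyting.Regular.val b : Opens X)

theorem RO.isOpen (b : RO X) : IsOpen b.set := (Heyting.Regular.val b).2

theorem RO.le_iff {a b : RO X} : a ≤ b ↔ a.set ⊆ b.set := Iff.rfl

theorem RO.set_inf (a b : RO X) : (a ⊓ b).set = a.set ∩ b.set := rfl

theorem RO.set_bot : (⊥ : RO X).set = ∅ := rfl

theorem RO.set_top : (⊤ : RO X).set = Set.univ := rfl

theorem RO.set_compl (a : RO X) : (aᶜ).set = interior a.setᶜ :=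
  Opens.coe_compl_eq_interior_compl

theorem RO.ne_bot_iff {a : RO X} : a ≠ ⊥ ↔ a.set.Nonempty := by
  rw [Ne, ← le_bot_iff, RO.le_iff, RO.set_bot, Set.subset_empty_iff,
    Set.nonempty_iff_ne_empty]

/-- The regularisation of an open set. -/
noncomputable def RO.ofOpen (s : Set X) (hs : IsOpen s) : RO X :=
  Heyting.Regular.toRegular ⟨s, hs⟩

theorem RO.set_ofOpen (s : Set X) (hs : IsOpen s) :
    (RO.ofOpen s hs).set = interior (closure s) := by
  change (((⟨s, hs⟩ : Opens X)ᶜᶜ : Opens X) : Set X) = _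
  rw [Opens.coe_compl_eq_interior_compl, Opens.coe_compl_eq_interior_compl]
  change interior (interior sᶜ)ᶜ = _
  simp only [interior_compl, compl_compl]

theorem RO.le_of_subset_closure {a b : RO X} (h : a.set ⊆ closure b.set) : a ≤ b := by
  have h1 : a ≤ bᶜᶜ := by
    rw [RO.le_iff, RO.set_compl, RO.set_compl, interior_compl (s := b.set), compl_compl]
    exact interior_maximal h a.isOpen
  simpa using h1

theorem RO.iSup_subset_closure {ι : Sort*} (b : ι → RO X) :
    (⨆ i, b i).set ⊆ closure (⋃ i, (b i).set) := by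
  have ho : IsOpen (⋃ i, (b i).set) := isOpen_iUnion fun i => (b i).isOpen
  have h : ⨆ i, b i ≤ RO.ofOpen _ ho := by
    refine iSup_le fun i => ?_
    rw [RO.le_iff, RO.set_ofOpen]
    exact interior_maximal ((subset_iUnion (fun i => (b i).set) i).trans subset_closure)
      (b i).isOpen
  rw [RO.le_iff, RO.set_ofOpen] at h
  exact h.trans interior_subset

theorem open_union_residual {s : Set X} (hs : IsOpen s) : s ∪ (closure s)ᶜ ∈ residual X := by
  refine residual_of_dense_open (hs.union isClosed_closure.isOpen_compl) ?_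
  intro x
  by_cases hx : x ∈ closure s
  · exact closure_mono subset_union_left hx
  · exact subset_closure (Or.inr hx)

/-- The standing assumptions on the space. -/
class Cat (X : Type) [TopologicalSpace X] [MeasurableSpace X] : Prop where
  baire : BaireSpace X
  nonempty : Nonempty X
  meas_bp : ∀ s : Set X, MeasurableSet s → ∃ u, IsOpen u ∧ {x | x ∈ s ↔ x ∈ u} ∈ residual X
  ccc : ∀ C : Set (Set X), (∀ s ∈ C, IsOpen s) →
    ∃ D ⊆ C, D.Countable ∧ ⋃₀ C ⊆ closure (⋃₀ D)
  open_meas : ∀ u : Set X, IsOpen u → ∃ s, MeasurableSet s ∧ {x | x ∈ s ↔ x ∈ u} ∈ residual X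

/-- Ultrafilters containing every comeagre set. -/
def UF (X : Type) [TopologicalSpace X] : Type := {U : Ultrafilter X // (U : Filter X) ≤ residual X}

/-- The Boolean value `b` is true for `U`. -/
def hold (U : UF X) (b : RO X) : Prop := b.set ∈ U.1

theorem UF.res (U : UF X) {s : Set X} (h : s ∈ residual X) : s ∈ U.1 := U.2 h

theorem UF.congr (U : UF X) {s t : Set X} (h : {x | x ∈ s ↔ x ∈ t} ∈ residual X) :
    s ∈ U.1 ↔ t ∈ U.1 := by
  have h1 := U.res h
  constructor
  · intro hs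
    filter_upwards [h1, hs] with x hx hx' using hx.1 hx'
  · intro hs
    filter_upwards [h1, hs] with x hx hx' using hx.2 hx'

theorem UF.closure_iff (U : UF X) {s : Set X} (hs : IsOpen s) : closure s ∈ U.1 ↔ s ∈ U.1 := by
  refine ⟨fun h => ?_, fun h => mem_of_superset h subset_closure⟩
  filter_upwards [U.res (open_union_residual hs), h] with x hx hx'
  exact hx.resolve_right fun h => h hx'

theorem res_iff {s : Set X} : s ∈ residual X ↔ ∀ U : UF X, s ∈ U.1 := by
  rw [Filter.mem_iff_ultrafilter]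
  exact ⟨fun h U => h U.1 U.2, fun h U hU => h ⟨U, hU⟩⟩

theorem hold_top (U : UF X) : hold U ⊤ := univ_mem

theorem not_hold_bot (U : UF X) : ¬ hold U ⊥ := U.1.empty_notMem

theorem hold_mono {U : UF X} {a b : RO X} (h : a ≤ b) (ha : hold U a) : hold U b :=
  mem_of_superset ha h

theorem hold_inf {U : UF X} {a b : RO X} : hold U (a ⊓ b) ↔ hold U a ∧ hold U b := inter_mem_iff

theorem hold_compl {U : UF X} {a : RO X} : hold U aᶜ ↔ ¬ hold U a := by
  unfold hold
  rw [RO.set_compl, interior_compl, Ultrafilter.compl_mem_iff_notMem, U.closure_iff a.isOpen]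

theorem hold_sup {U : UF X} {a b : RO X} : hold U (a ⊔ b) ↔ hold U a ∨ hold U b := by
  rw [← compl_compl (a ⊔ b), compl_sup, hold_compl, hold_inf, hold_compl, hold_compl]
  tauto

theorem hold_iSup_iff {U : UF X} {ι : Sort*} (b : ι → RO X) :
    hold U (⨆ i, b i) ↔ (⋃ i, (b i).set) ∈ U.1 := by
  constructor
  · intro h
    rw [← U.closure_iff (isOpen_iUnion fun i => (b i).isOpen)]
    exact mem_of_superset h (RO.iSup_subset_closure b)
  · intro h
    refine mem_of_superset h (iUnion_subset fun i => ?_)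
    exact RO.le_iff.1 (le_iSup b i)

theorem hold_iSup_fin {U : UF X} {ι : Type*} [Finite ι] (b : ι → RO X) :
    hold U (⨆ i, b i) ↔ ∃ i, hold U (b i) := by
  rw [hold_iSup_iff]
  have : (⋃ i, (b i).set) = {x | ∃ i, x ∈ (b i).set} := by ext; simp
  rw [this]
  exact Ultrafilter.eventually_exists_iff (f := U.1) (P := fun i x => x ∈ (b i).set)

variable [MeasurableSpace X] [Cat X]

theorem le_of_uf {a b : RO X} (h : ∀ U : UF X, hold U a → hold U b) : a ≤ b := by
  have := Cat.baire (X := X)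
  have h1 : {x | x ∈ a.set → x ∈ b.set} ∈ residual X := by
    rw [res_iff]
    intro U
    by_cases ha : hold U a
    · filter_upwards [h U ha] with x hx _ using hx
    · have : a.setᶜ ∈ U.1 := Ultrafilter.compl_mem_iff_notMem.2 ha
      filter_upwards [this] with x hx hx' using absurd hx' hx
  refine RO.le_of_subset_closure fun x hx => ?_
  have hd := dense_of_mem_residual h1
  rw [mem_closure_iff]
  intro o ho hxo
  obtain ⟨y, hy, hy'⟩ := hd.inter_open_nonempty (o ∩ a.set) (ho.inter a.isOpen) ⟨x, hxo, hx⟩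
  exact ⟨y, hy.1, hy' hy.2⟩

theorem exists_uf {a : RO X} (h : a ≠ ⊥) : ∃ U : UF X, hold U a := by
  by_contra hc
  push Not at hc
  exact h (le_bot_iff.1 (le_of_uf fun U hU => absurd hU (hc U)))

instance : Nonempty (UF X) := by
  have := Cat.nonempty (X := X)
  obtain ⟨U, -⟩ := exists_uf (a := (⊤ : RO X)) (RO.ne_bot_iff.2 univ_nonempty)
  exact ⟨U⟩

theorem exists_seq {ι : Type*} [Nonempty ι] (φ : ι → RO X) :
    ∃ s : ℕ → ι, ∀ i, φ i ≤ ⨆ n, φ (s n) := by
  obtain ⟨D, hD, hc, hcl⟩ := Cat.ccc (X := X) (range fun i => (φ i).set)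
    (by rintro _ ⟨i, rfl⟩; exact (φ i).isOpen)
  have hne : (insert (φ (Classical.arbitrary ι)).set D).Nonempty := insert_nonempty _ _
  obtain ⟨f, hf⟩ := (hc.insert _).exists_eq_range hne
  have h1 : ∀ n, ∃ i, f n = (φ i).set := by
    intro n
    have : f n ∈ insert (φ (Classical.arbitrary ι)).set D := hf ▸ mem_range_self n
    rcases this with h | h
    · exact ⟨_, h⟩
    · obtain ⟨i, hi⟩ := hD h
      exact ⟨i, hi.symm⟩
  choose s hs using h1
  refine ⟨s, fun i => RO.le_of_subset_closure fun x hx => ?_⟩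
  have h2 : x ∈ closure (⋃₀ D) := hcl ⟨_, ⟨i, rfl⟩, hx⟩
  refine closure_mono ?_ h2
  rintro y ⟨t, ht, hy⟩
  have : t ∈ range f := hf ▸ mem_insert_of_mem _ ht
  obtain ⟨n, rfl⟩ := this
  rw [hs n] at hy
  exact RO.le_iff.1 (le_iSup (fun n => φ (s n)) n) hy

/-- Names over the regular open algebra. -/
abbrev Nm (X : Type) [TopologicalSpace X] : Type 1 := Name (RO X)

omit [MeasurableSpace X] [Cat X] in
theorem mem_of_v {ι : Type} (A : ι → Nm X) (v : ι → RO X) (i : ι) :
    v i ≤ Name.mem (A i) (Name.mk ι A v) := by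
  rw [Name.mem_mk]
  exact exI i (le_inf le_rfl (by rw [Name.eqv_refl]; exact le_top))

/-- The index type of a name. -/
def dom : Nm X → Type
  | ⟨ι, _, _⟩ => ι

/-- The members of a name. -/
def fn : (a : Nm X) → dom a → Nm X
  | ⟨_, A, _⟩ => A

/-- The values of a name. -/
def vl : (a : Nm X) → dom a → RO X
  | ⟨_, _, v⟩ => v

omit [MeasurableSpace X] [Cat X] in
theorem mk_eta (a : Nm X) : Name.mk (dom a) (fn a) (vl a) = a := by
  cases a; rfl

omit [MeasurableSpace X] [Cat X] in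
theorem mix_le (a : ℕ → RO X) (ha : Pairwise fun m n => Disjoint (a m) (a n)) (x : ℕ → Nm X) :
    ∃ τ : Nm X, ∀ n, a n ≤ Name.eqv (x n) τ := by
  refine ⟨Name.mk (Σ n, dom (x n)) (fun p => fn (x p.1) p.2) (fun p => a p.1 ⊓ vl (x p.1) p.2),
    fun n => ?_⟩
  refine le_trans ?_ (Name.eqv_ext _ _)
  refine le_inf (le_iInf fun z => impI fun b hb hz => ?_) (le_iInf fun z => impI fun b hb hz => ?_)
  · rw [← mk_eta (x n), Name.mem_mk] at hz
    rw [Name.mem_mk]
    exact exE hz fun i b1 hb1 hi =>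
      exI (⟨n, i⟩ : Σ n, dom (x n)) (le_inf (le_inf (hb1.trans hb) (l1 hi)) (l2 hi))
  · rw [Name.mem_mk] at hz
    refine exE hz fun p b1 hb1 hp => ?_
    obtain ⟨m, i⟩ := p
    by_cases hmn : m = n
    · subst hmn
      conv_rhs => rw [← mk_eta (x m), Name.mem_mk]
      exact exI i (le_inf (l2 (l1 hp)) (l2 hp))
    · have : b1 ≤ ⊥ := (le_inf (l1 (l1 hp)) (hb1.trans hb)).trans (ha hmn).le_bot
      exact this.trans bot_le

theorem max_principle (φ : Nm X → RO X) (hφ : ∀ x y, Name.eqv x y ⊓ φ x ≤ φ y) :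
    ∃ τ, ∀ σ, φ σ ≤ φ τ := by
  have : Nonempty (Nm X) := ⟨Name.mk Empty Empty.elim Empty.elim⟩
  obtain ⟨s, hs⟩ := exists_seq φ
  obtain ⟨τ, hτ⟩ := mix_le (disjointed fun n => φ (s n)) (disjoint_disjointed _) s
  refine ⟨τ, fun σ => (hs σ).trans ?_⟩
  rw [← iSup_disjointed]
  exact iSup_le fun n => (le_inf (hτ n) (disjointed_le _ n)).trans (hφ _ _)

/-- Equality of names modulo `U`. -/
def nmSetoid (U : UF X) : Setoid (Nm X) where
  r x y := hold U (Name.eqv x y)
  iseqv :=
    ⟨fun x => by rw [Name.eqv_refl]; exact hold_top U,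
      fun h => hold_mono (Name.eqv_symm _ _) h,
      fun h h' => hold_mono (Name.eqv_trans _ _ _) (hold_inf.2 ⟨h, h'⟩)⟩

/-- The two-valued model given by `U`. -/
def Md (U : UF X) : Type 1 := Quotient (nmSetoid U)

/-- The class of a name. -/
def cls (U : UF X) (τ : Nm X) : Md U := Quotient.mk (nmSetoid U) τ

/-- Membership in the two-valued model. -/
def El (U : UF X) : Md U → Md U → Prop :=
  Quotient.lift₂ (fun x y => hold U (Name.mem x y)) (by
    intro a b a' b' h h'
    apply propext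
    constructor
    · intro h1
      exact hold_mono (Name.mem_r _ _ _)
        (hold_inf.2 ⟨h', hold_mono (Name.mem_l _ _ _) (hold_inf.2 ⟨h, h1⟩)⟩)
    · intro h1
      exact hold_mono (Name.mem_r _ _ _) (hold_inf.2 ⟨(nmSetoid U).symm h',
        hold_mono (Name.mem_l _ _ _) (hold_inf.2 ⟨(nmSetoid U).symm h, h1⟩)⟩))

omit [MeasurableSpace X] [Cat X] in
theorem el_mk {U : UF X} {x y : Nm X} : El U (cls U x) (cls U y) ↔ hold U (Name.mem x y) := Iff.rfl

omit [MeasurableSpace X] [Cat X] in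
theorem mk_eq {U : UF X} {x y : Nm X} : cls U x = cls U y ↔ hold U (Name.eqv x y) :=
  Quotient.eq (r := nmSetoid U)

omit [MeasurableSpace X] [Cat X] in
theorem mk_surj {U : UF X} (y : Md U) : ∃ τ, y = cls U τ :=
  Quotient.inductionOn y fun τ => ⟨τ, rfl⟩

/-- A family of statements about the two-valued models has a truth value. -/
class Tr (P : UF X → Prop) : Prop where
  ex : ∃ b : RO X, ∀ U, P U ↔ hold U b

section TrInst

omit [MeasurableSpace X] [Cat X]

instance tr_hold (b : RO X) : Tr fun U : UF X => hold U b := ⟨b, fun _ => Iff.rfl⟩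

instance tr_mem (x y : Nm X) : Tr fun U => El U (cls U x) (cls U y) := ⟨_, fun _ => el_mk⟩

instance tr_eq (x y : Nm X) : Tr fun U => cls U x = cls U y := ⟨_, fun _ => mk_eq⟩

instance tr_false : Tr fun _ : UF X => False := ⟨⊥, fun U => ⟨False.elim, not_hold_bot U⟩⟩

instance tr_not (P : UF X → Prop) [h : Tr P] : Tr fun U => ¬ P U := by
  obtain ⟨b, hb⟩ := h.ex
  exact ⟨bᶜ, fun U => by rw [hold_compl, hb]⟩

instance tr_and (P Q : UF X → Prop) [h : Tr P] [h' : Tr Q] : Tr fun U => P U ∧ Q U := by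
  obtain ⟨b, hb⟩ := h.ex
  obtain ⟨c, hc⟩ := h'.ex
  exact ⟨b ⊓ c, fun U => by rw [hold_inf, hb, hc]⟩

instance tr_or (P Q : UF X → Prop) [h : Tr P] [h' : Tr Q] : Tr fun U => P U ∨ Q U := by
  obtain ⟨b, hb⟩ := h.ex
  obtain ⟨c, hc⟩ := h'.ex
  exact ⟨b ⊔ c, fun U => by rw [hold_sup, hb, hc]⟩

instance tr_imp (P Q : UF X → Prop) [h : Tr P] [h' : Tr Q] : Tr fun U => P U → Q U := by
  obtain ⟨b, hb⟩ := h.ex
  obtain ⟨c, hc⟩ := h'.ex
  exact ⟨bᶜ ⊔ c, fun U => by rw [hold_sup, hold_compl, hb, hc]; tauto⟩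

instance tr_iff (P Q : UF X → Prop) [h : Tr P] [h' : Tr Q] : Tr fun U => P U ↔ Q U := by
  have := tr_and (fun U => P U → Q U) (fun U => Q U → P U)
  obtain ⟨b, hb⟩ := this.ex
  exact ⟨b, fun U => by rw [← hb]; exact iff_def⟩

theorem Tr.const (p : Prop) : Tr fun _ : UF X => p := by
  by_cases h : p
  · exact ⟨⊤, fun U => ⟨fun _ => hold_top U, fun _ => h⟩⟩
  · exact ⟨⊥, fun U => ⟨fun h' => absurd h' h, fun h' => absurd h' (not_hold_bot U)⟩⟩

theorem Tr.of_iff {P Q : UF X → Prop} (h : ∀ U, P U ↔ Q U) [h' : Tr Q] : Tr P := by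
  obtain ⟨b, hb⟩ := h'.ex
  exact ⟨b, fun U => (h U).trans (hb U)⟩

end TrInst

theorem exists_wit (P : (U : UF X) → Md U → Prop) [h : ∀ τ, Tr fun U => P U (cls U τ)] :
    ∃ τ, ∀ U, (∃ x, P U x) → P U (cls U τ) := by
  choose φ hφ using fun τ => (h τ).ex
  obtain ⟨τ, hτ⟩ := max_principle φ fun x y => le_of_uf fun U hU => by
    rw [hold_inf] at hU
    rw [← hφ, ← mk_eq.2 hU.1, hφ]
    exact hU.2
  refine ⟨τ, fun U ⟨x, hx⟩ => ?_⟩
  obtain ⟨σ, rfl⟩ := mk_surj x
  exact (hφ τ U).2 (hold_mono (hτ σ) ((hφ σ U).1 hx))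

instance tr_exists (P : (U : UF X) → Md U → Prop) [h : ∀ τ, Tr fun U => P U (cls U τ)] :
    Tr fun U => ∃ x, P U x := by
  obtain ⟨τ, hτ⟩ := exists_wit P
  exact Tr.of_iff (Q := fun U => P U (cls U τ)) fun U => ⟨hτ U, fun h => ⟨_, h⟩⟩

instance tr_all (P : (U : UF X) → Md U → Prop) [h : ∀ τ, Tr fun U => P U (cls U τ)] :
    Tr fun U => ∀ x, P U x :=
  Tr.of_iff (Q := fun U => ¬ ∃ x, ¬ P U x) fun U => by simp

omit [MeasurableSpace X] [Cat X] in
theorem el_of_v {U : UF X} {ι : Type} (A : ι → Nm X) (v : ι → RO X) (i : ι) (h : hold U (v i)) :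
    El U (cls U (A i)) (cls U (Name.mk ι A v)) :=
  hold_mono (mem_of_v A v i) h

/-- To prove a property with truth values for all members of a name, check the listed ones. -/
theorem all_mk {ι : Type} {A : ι → Nm X} {v : ι → RO X} (P : (U : UF X) → Md U → Prop)
    [hP : ∀ τ, Tr fun U => P U (cls U τ)] (h : ∀ i U, hold U (v i) → P U (cls U (A i)))
    {U : UF X} {y : Md U} (hy : El U y (cls U (Name.mk ι A v))) : P U y := by
  obtain ⟨σ, rfl⟩ := mk_surj y
  obtain ⟨c, hc⟩ := (hP σ).ex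
  rw [hc]
  refine hold_mono ?_ hy
  rw [Name.mem_mk]
  refine iSup_le fun i => le_of_uf fun U' hU' => ?_
  rw [hold_inf] at hU'
  rw [← hc, mk_eq.2 hU'.2]
  exact h i U' hU'.1

omit [MeasurableSpace X] [Cat X] in
theorem el_fin {U : UF X} {ι : Type} [Finite ι] (A : ι → Nm X) (v : ι → RO X) (y : Md U) :
    El U y (cls U (Name.mk ι A v)) ↔ ∃ i, hold U (v i) ∧ y = cls U (A i) := by
  obtain ⟨σ, rfl⟩ := mk_surj y
  rw [el_mk, Name.mem_mk, hold_iSup_fin]
  simp only [hold_inf, mk_eq]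

omit [MeasurableSpace X] [Cat X] in
theorem count_inter (H : UF X → Prop) [hH : Tr H] {ι : Type*} [Countable ι] {S : ι → Set X}
    (h : ∀ k U, H U → S k ∈ U.1) {U : UF X} (hU : H U) : (⋂ k, S k) ∈ U.1 := by
  obtain ⟨b, hb⟩ := hH.ex
  have h1 : ∀ k, {x | x ∈ b.set → x ∈ S k} ∈ residual X := by
    intro k
    rw [res_iff]
    intro U'
    by_cases ha : hold U' b
    · filter_upwards [h k U' ((hb U').2 ha)] with x hx _ using hx
    · have : b.setᶜ ∈ U'.1 := Ultrafilter.compl_mem_iff_notMem.2 ha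
      filter_upwards [this] with x hx hx' using absurd hx' hx
  have h2 := U.res ((countable_iInter_mem (l := residual X)).2 h1)
  filter_upwards [h2, (hb U).1 hU] with x hx hx'
  exact mem_iInter.2 fun k => mem_iInter.1 hx k hx'

omit [MeasurableSpace X] [Cat X] in
theorem count_union (P : UF X → Prop) [Tr P] {ι : Type*} [Countable ι] {S : ι → Set X}
    (h : ∀ k U, S k ∈ U.1 → P U) {U : UF X} (hU : (⋃ k, S k) ∈ U.1) : P U := by
  by_contra hc
  have h1 := count_inter (fun U => ¬ P U) (S := fun k => (S k)ᶜ)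
    (fun k U' hU' => Ultrafilter.compl_mem_iff_notMem.2 fun hk => hU' (h k U' hk)) hc
  rw [← compl_iUnion] at h1
  exact Ultrafilter.compl_mem_iff_notMem.1 h1 hU

theorem Tr.meas {S : Set X} (hS : MeasurableSet S) : Tr fun U : UF X => S ∈ U.1 := by
  obtain ⟨u, hu, h⟩ := Cat.meas_bp S hS
  refine ⟨RO.ofOpen u hu, fun U => ?_⟩
  rw [U.congr h, hold, RO.set_ofOpen]
  refine ⟨fun h => mem_of_superset h (interior_maximal subset_closure hu), fun h => ?_⟩
  rw [← U.closure_iff hu]
  exact mem_of_superset h interior_subset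

theorem Tr.rep (P : UF X → Prop) [h : Tr P] : ∃ S, MeasurableSet S ∧ ∀ U, P U ↔ S ∈ U.1 := by
  obtain ⟨b, hb⟩ := h.ex
  obtain ⟨s, hs, h1⟩ := Cat.open_meas b.set b.isOpen
  exact ⟨s, hs, fun U => by rw [hb, U.congr h1]; rfl⟩

open Classical in
/-- The Boolean value of a set. -/
noncomputable def pr (S : Set X) : RO X :=
  if h : ∃ b : RO X, ∀ U : UF X, S ∈ U.1 ↔ hold U b then h.choose else ⊥

theorem hold_pr {S : Set X} (hS : MeasurableSet S) (U : UF X) : hold U (pr S) ↔ S ∈ U.1 := by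
  have h := (Tr.meas hS).ex
  rw [pr, dif_pos h]
  exact (h.choose_spec U).symm

end Pool.Agent.Lib.MP_898cae_lc
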