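import Pool.Agent.Lib.MP_898cae_lc.Model

/-!
Pairs, functions, finite cardinalities, names for reals and arithmetic in the two-valued models.
-/

open TopologicalSpace Set Filter
open Pool.Agent.Lib.MP_e0f6ac_lc

namespace Pool.Agent.Lib.MP_898cae_lc

variable {X : Type} [TopologicalSpace X] [MeasurableSpace X] [Cat X]

/-- A property of points holds on a set of the ultrafilter. -/
abbrev Ae (U : UF X) (p : X → Prop) : Prop := ∀ᶠ x in (U.1 : Filter X), p x

omit [MeasurableSpace X] [Cat X] in
theorem res_of_iff {p q : X → Prop} (h : ∀ U : UF X, Ae U p ↔ Ae U q) :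
    ∀ᶠ x in residual X, p x ↔ q x := by
  refine res_iff.2 fun U => ?_
  by_cases hp : Ae U p
  · filter_upwards [hp, (h U).1 hp] with x h1 h2 using iff_of_true h1 h2
  · have hq : ¬ Ae U q := fun hq => hp ((h U).2 hq)
    filter_upwards [Ultrafilter.eventually_not.2 hp, Ultrafilter.eventually_not.2 hq] with x h1 h2
      using iff_of_false h1 h2

theorem tr_ae {p : X → Prop} (h : MeasurableSet {x | p x}) : Tr fun U : UF X => Ae U p :=
  Tr.meas h

theorem tr_ae_all {ι : Type*} [Countable ι] {q : ι → X → Prop}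
    (h : ∀ k, Tr fun U : UF X => Ae U (q k)) : Tr fun U : UF X => Ae U fun x => ∀ k, q k x := by
  choose S hS hS' using fun k => Tr.rep (fun U : UF X => Ae U (q k))
  have h1 : ∀ᶠ x in residual X, ∀ k, (q k x ↔ x ∈ S k) :=
    eventually_countable_forall.2 fun k => res_of_iff (hS' k)
  have := Tr.meas (MeasurableSet.iInter hS)
  refine Tr.of_iff (Q := fun U => (⋂ k, S k) ∈ U.1) fun U => ⟨fun h => ?_, fun h => ?_⟩
  · filter_upwards [h, U.res h1] with x hx hx' using mem_iInter.2 fun k => (hx' k).1 (hx k)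
  · filter_upwards [h, U.res h1] with x hx hx' k using (hx' k).2 (mem_iInter.1 hx k)

omit [MeasurableSpace X] [Cat X] in
theorem ae_all (H : UF X → Prop) [Tr H] {ι : Type*} [Countable ι] {q : ι → X → Prop}
    (h : ∀ k U, H U → Ae U (q k)) {U : UF X} (hU : H U) : Ae U fun x => ∀ k, q k x := by
  filter_upwards [count_inter H (S := fun k => {x | q k x}) h hU] with x hx k
  exact mem_iInter.1 hx k

omit [MeasurableSpace X] [Cat X] in
theorem ae_ex (P : UF X → Prop) [Tr P] {ι : Type*} [Countable ι] {q : ι → X → Prop}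
    (h : ∀ k U, Ae U (q k) → P U) {U : UF X} (hU : Ae U fun x => ∃ k, q k x) : P U := by
  refine count_union P (S := fun k => {x | q k x}) h ?_
  filter_upwards [hU] with x hx using mem_iUnion.2 hx

theorem all_om_iff (P : (U : UF X) → Md U → Prop) [hP : ∀ τ, Tr fun U => P U (cls U τ)]
    {q : ℕ → X → Prop} (h : ∀ k U, P U (num U k) ↔ Ae U (q k)) (U : UF X) :
    (∀ n, El U n (om U) → P U n) ↔ Ae U fun x => ∀ k, q k x := by
  constructor
  · exact fun hU => ae_all (fun U => ∀ n, El U n (om U) → P U n)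
      (fun k U hU => (h k U).1 (hU _ (num_el_om U k))) hU
  · intro hU n hn
    have := tr_ae_all (q := q) fun k => Tr.of_iff fun U => (h k U).symm
    refine all_om (fun U n => (Ae U fun x => ∀ k, q k x) → P U n) (fun k U hU => ?_) hn hU
    exact (h k U).2 (hU.mono fun x hx => hx k)

theorem ex_om_iff (P : (U : UF X) → Md U → Prop) [hP : ∀ τ, Tr fun U => P U (cls U τ)]
    {q : ℕ → X → Prop} (h : ∀ k U, P U (num U k) ↔ Ae U (q k)) (U : UF X) :
    (∃ n, El U n (om U) ∧ P U n) ↔ Ae U fun x => ∃ k, q k x := by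
  have := all_om_iff (fun U n => ¬ P U n) (q := fun k x => ¬ q k x)
    (fun k U => by rw [h]; exact Ultrafilter.eventually_not.symm) U
  rw [← not_iff_not, ← Ultrafilter.eventually_not]
  simpa only [not_exists, not_and] using this

/-! Pairs -/

/-- The name of a doubleton. -/
noncomputable def dblN (a b : Nm X) : Nm X := Name.mk Bool (fun i => cond i a b) fun _ => ⊤

omit [MeasurableSpace X] [Cat X] in
theorem dbl_dblN (U : UF X) (a b : Nm X) :
    Dbl (El U) (cls U (dblN a b)) (cls U a) (cls U b) := by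
  intro z
  rw [dblN, el_fin]
  simp [hold_top, or_comm]

theorem dbl_uniq {U : UF X} {t t' a b : Md U} (h : Dbl (El U) t a b) (h' : Dbl (El U) t' a b) :
    t = t' := md_ext fun z => (h z).trans (h' z).symm

omit [MeasurableSpace X] [Cat X] in
theorem exists_dbl {U : UF X} (a b : Md U) : ∃ t, Dbl (El U) t a b := by
  obtain ⟨a, rfl⟩ := mk_surj a
  obtain ⟨b, rfl⟩ := mk_surj b
  exact ⟨_, dbl_dblN U a b⟩

/-- The name of an ordered pair. -/
noncomputable def prN (a b : Nm X) : Nm X := dblN (dblN a a) (dblN a b)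

theorem pair_prN (U : UF X) (a b : Nm X) :
    Pair (El U) (cls U (prN a b)) (cls U a) (cls U b) := by
  intro t
  rw [prN, dbl_dblN U _ _ t]
  refine or_congr ⟨?_, fun h => dbl_uniq h (dbl_dblN _ _ _)⟩
    ⟨?_, fun h => dbl_uniq h (dbl_dblN _ _ _)⟩
  all_goals
    rintro rfl
    exact dbl_dblN _ _ _

theorem pair_uniq {U : UF X} {z z' a b : Md U} (h : Pair (El U) z a b) (h' : Pair (El U) z' a b) :
    z = z' := md_ext fun t => (h t).trans (h' t).symm

omit [MeasurableSpace X] [Cat X] in
theorem pair_inj {U : UF X} {z a b a' b' : Md U} (h : Pair (El U) z a b)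
    (h' : Pair (El U) z a' b') : a = a' ∧ b = b' := by
  have e1 : a = a' := by
    obtain ⟨t, ht⟩ := exists_dbl a a
    rcases (h' t).1 ((h t).2 (Or.inl ht)) with h1 | h1
    all_goals
      have := (ht a').1 ((h1 a').2 (Or.inl rfl))
      exact (this.elim id id).symm
  subst e1
  have aux : ∀ {b b' : Md U}, Pair (El U) z a b → Pair (El U) z a b' → b = a ∨ b = b' := by
    intro b b' h h'
    obtain ⟨t, ht⟩ := exists_dbl a b
    rcases (h' t).1 ((h t).2 (Or.inr ht)) with h1 | h1
    · exact Or.inl (((h1 b).1 ((ht b).2 (Or.inr rfl))).elim id id)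
    · exact (h1 b).1 ((ht b).2 (Or.inr rfl))
  refine ⟨rfl, ?_⟩
  rcases aux h h' with h1 | h1
  · rcases aux h' h with h2 | h2
    · exact h1.trans h2.symm
    · exact h2.symm
  · exact h1

/-- The ordered pair in the model. -/
noncomputable def pr2 {U : UF X} (a b : Md U) : Md U := cls U (prN a.out b.out)

omit [MeasurableSpace X] [Cat X] in
theorem cls_out {U : UF X} (a : Md U) : cls U a.out = a := Quotient.out_eq a

theorem pair_pr2 {U : UF X} (a b : Md U) : Pair (El U) (pr2 a b) a b := by
  have := pair_prN U a.out b.out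
  rwa [cls_out, cls_out] at this

theorem pair_iff {U : UF X} {z a b : Md U} : Pair (El U) z a b ↔ z = pr2 a b :=
  ⟨fun h => pair_uniq h (pair_pr2 a b), fun h => h ▸ pair_pr2 a b⟩

theorem pr2_inj {U : UF X} {a b a' b' : Md U} (h : pr2 a b = pr2 a' b') : a = a' ∧ b = b' :=
  pair_inj (pair_pr2 a b) (h ▸ pair_pr2 a' b')

/-- The name of a relation given by a list of pairs. -/
noncomputable def funN {ι : Type} (A C : ι → Nm X) : Nm X :=
  Name.mk ι (fun i => prN (A i) (C i)) fun _ => ⊤

theorem app_funN (U : UF X) {ι : Type} (A C : ι → Nm X) (i : ι) :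
    App (El U) (cls U (funN A C)) (cls U (A i)) (cls U (C i)) :=
  ⟨_, el_of_v (fun i => prN (A i) (C i)) _ i (hold_top U), pair_prN U _ _⟩

theorem all_app {ι : Type} {A C : ι → Nm X} (P : (U : UF X) → Md U → Md U → Prop)
    [hP : ∀ σ τ, Tr fun U => P U (cls U σ) (cls U τ)]
    (h : ∀ i U, P U (cls U (A i)) (cls U (C i))) {U : UF X} {x y : Md U}
    (hy : App (El U) (cls U (funN A C)) x y) : P U x y := by
  obtain ⟨z, hz, hp⟩ := hy
  refine all_mk (fun U z => ∀ x y, Pair (El U) z x y → P U x y) (fun i U _ x y hp => ?_) hz x y hp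
  obtain ⟨rfl, rfl⟩ := pair_inj hp (pair_prN U _ _)
  exact h i U

theorem app_fin {U : UF X} {ι : Type} [Finite ι] (A C : ι → Nm X) {x y : Md U}
    (hy : App (El U) (cls U (funN A C)) x y) : ∃ i, x = cls U (A i) ∧ y = cls U (C i) := by
  obtain ⟨z, hz, hp⟩ := hy
  obtain ⟨i, -, rfl⟩ := (el_fin _ _ z).1 hz
  exact ⟨i, pair_inj hp (pair_prN U _ _)⟩

theorem fn_funN {ι : Type} {A C : ι → Nm X}
    (h : ∀ i j U, cls U (A i) = cls U (A j) → cls U (C i) = cls U (C j)) (U : UF X) :
    Fn (El U) (cls U (funN A C)) := by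
  intro a b b' h1 h2
  refine all_app (fun U a b => ∀ b', App (El U) (cls U (funN A C)) a b' → b = b')
    (fun i U b' h2 => ?_) h1 b' h2
  exact all_app (fun U a b' => cls U (A i) = a → cls U (C i) = b') (fun j U => h i j U) h2 rfl

/-! Finite cardinalities -/

theorem inj_iff {U : UF X} {α β : Type} (I : Finset α) (J : Finset β) (a : α → Md U)
    (b : β → Md U) (ha : InjOn a I) (hb : InjOn b J) {P Q : Md U → Prop}
    (hP : ∀ z, P z ↔ ∃ i ∈ I, z = a i) (hQ : ∀ z, Q z ↔ ∃ j ∈ J, z = b j) :
    Inj (El U) P Q ↔ I.card ≤ J.card := by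
  constructor
  · rintro ⟨f, -, h1, h2⟩
    have h3 : ∀ i : I, ∃ j : J, App (El U) f (a i) (b j) := by
      intro i
      obtain ⟨y, hy, hy'⟩ := h1 (a i) ((hP _).2 ⟨i, i.2, rfl⟩)
      obtain ⟨j, hj, rfl⟩ := (hQ _).1 hy
      exact ⟨⟨j, hj⟩, hy'⟩
    choose g hg using h3
    have hinj : Function.Injective g := by
      intro i i' e
      exact Subtype.ext (ha i.2 i'.2 (h2 _ _ _ (hg i) (e ▸ hg i')))
    simpa using Fintype.card_le_of_injective g hinj
  · intro h
    obtain ⟨g⟩ : Nonempty (I ↪ J) := Function.Embedding.nonempty_of_card_le (by simpa using h)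
    have key : ∀ x y, App (El U) (cls U (funN (fun i : I => (a i).out)
        fun i : I => (b (g i)).out)) x y → ∃ i : I, x = a i ∧ y = b (g i) := by
      intro x y hxy
      simpa only [cls_out] using app_fin _ _ hxy
    refine ⟨cls U (funN (fun i : I => (a i).out) fun i : I => (b (g i)).out), ?_, ?_, ?_⟩
    · intro x y y' h1 h2
      obtain ⟨i, rfl, rfl⟩ := key _ _ h1
      obtain ⟨i', e, rfl⟩ := key _ _ h2
      rw [Subtype.ext (ha i.2 i'.2 e)]
    · intro x hx
      obtain ⟨i, hi, rfl⟩ := (hP _).1 hx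
      refine ⟨b (g ⟨i, hi⟩), (hQ _).2 ⟨_, (g ⟨i, hi⟩).2, rfl⟩, ?_⟩
      simpa only [cls_out] using
        app_funN U (fun i : I => (a i).out) (fun i : I => (b (g i)).out) ⟨i, hi⟩
    · intro x x' y h1 h2
      obtain ⟨i, rfl, rfl⟩ := key _ _ h1
      obtain ⟨i', rfl, e⟩ := key _ _ h2
      rw [g.injective (Subtype.ext (hb (g i).2 (g i').2 e))]

theorem eqn_iff {U : UF X} {α : Type} (I : Finset α) (a : α → Md U) (ha : InjOn a I)
    {P : Md U → Prop} (hP : ∀ z, P z ↔ ∃ i ∈ I, z = a i) (c : ℕ) :
    Eqn (El U) P (num U c) ↔ I.card = c := by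
  have h1 : ∀ z, El U z (num U c) ↔ ∃ j ∈ Finset.range c, z = num U j := by
    intro z
    simp only [el_num, Finset.mem_range]
  have h2 : InjOn (num U) (Finset.range c) := fun _ _ _ _ h => num_inj.1 h
  rw [Eqn, inj_iff I (Finset.range c) a (num U) ha h2 hP h1,
    inj_iff (Finset.range c) I (num U) a h2 ha h1 hP, Finset.card_range, le_antisymm_iff]

theorem subs_num_iff {U : UF X} {a c : ℕ} : Subs (El U) (num U a) (num U c) ↔ a ≤ c := by
  constructor
  · intro h
    by_contra hc
    have := num_el_num.1 (h _ (num_el_num.2 (not_le.1 hc)))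
    omega
  · intro h z hz
    obtain ⟨j, hj, rfl⟩ := el_num.1 hz
    exact num_el_num.2 (hj.trans_le h)

theorem isAdd_iff {U : UF X} {a b c : ℕ} :
    IsAdd (El U) (num U a) (num U b) (num U c) ↔ a + b = c := by
  rw [IsAdd, subs_num_iff, eqn_iff (Finset.Ico a c) (num U) (fun _ _ _ _ h => num_inj.1 h),
    Nat.card_Ico]
  · omega
  · intro z
    constructor
    · rintro ⟨h1, h2⟩
      obtain ⟨j, hj, rfl⟩ := el_num.1 h1
      exact ⟨j, Finset.mem_Ico.2 ⟨not_lt.1 fun h => h2 (num_el_num.2 h), hj⟩, rfl⟩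
    · rintro ⟨j, hj, rfl⟩
      rw [Finset.mem_Ico] at hj
      exact ⟨num_el_num.2 hj.2, fun h => not_lt.2 hj.1 (num_el_num.1 h)⟩

theorem isMul_iff {U : UF X} {a b c : ℕ} :
    IsMul (El U) (num U a) (num U b) (num U c) ↔ a * b = c := by
  rw [IsMul, eqn_iff (Finset.range a ×ˢ Finset.range b)
    (fun p => pr2 (num U p.1) (num U p.2)), Finset.card_product, Finset.card_range,
    Finset.card_range]
  · intro p _ q _ h
    obtain ⟨h1, h2⟩ := pr2_inj h
    exact Prod.ext (num_inj.1 h1) (num_inj.1 h2)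
  · intro z
    constructor
    · rintro ⟨i, j, hi, hj, hz⟩
      obtain ⟨i, hi', rfl⟩ := el_num.1 hi
      obtain ⟨j, hj', rfl⟩ := el_num.1 hj
      exact ⟨(i, j), by simp [hi', hj'], pair_iff.1 hz⟩
    · rintro ⟨p, hp, rfl⟩
      simp only [Finset.mem_product, Finset.mem_range] at hp
      exact ⟨_, _, num_el_num.2 hp.1, num_el_num.2 hp.2, pair_pr2 _ _⟩

theorem emp_num_iff {U : UF X} {k : ℕ} : Emp (El U) (num U k) ↔ k = 0 := by
  refine ⟨fun h => ?_, fun h => h ▸ emp_num U⟩
  by_contra hk
  exact h _ (num_el_num.2 (Nat.pos_of_ne_zero hk))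

theorem succ_num_iff {U : UF X} {j k : ℕ} : Succ (El U) (num U j) (num U k) ↔ j + 1 = k :=
  ⟨fun h => num_inj.1 (succ_uniq (succ_num U j) h), fun h => h ▸ succ_num U j⟩

/-! Names for reals -/

/-- The Cantor space. -/
abbrev Can : Type := ℕ → Bool

/-- The characteristic function of a finite set. -/
def ind (s : Finset ℕ) : Can := fun k => decide (k ∈ s)

/-- The name for the real given by a measurable function. -/
noncomputable def realN (g : X → Can) : Nm X := Name.mk ℕ numN fun k => pr {x | g x k = true}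

/-- The real given by a measurable function. -/
noncomputable abbrev rl (U : UF X) (g : X → Can) : Md U := cls U (realN g)

omit [TopologicalSpace X] [Cat X] in
theorem meas_coord {g : X → Can} (hg : Measurable g) (k : ℕ) :
    MeasurableSet {x | g x k = true} :=
  (measurable_pi_iff.1 hg k) (measurableSet_singleton true)

theorem el_rl {U : UF X} {g : X → Can} (hg : Measurable g) (k : ℕ) :
    El U (num U k) (rl U g) ↔ Ae U fun x => g x k = true := by
  constructor
  · intro h
    have := tr_ae (meas_coord hg k)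
    refine all_mk (fun U z => z = num U k → Ae U fun x => g x k = true) (fun j U hj e => ?_) h rfl
    obtain rfl := num_inj.1 e
    exact (hold_pr (meas_coord hg _) U).1 hj
  · intro h
    exact el_of_v numN _ k ((hold_pr (meas_coord hg k) U).2 h)

theorem subs_rl (U : UF X) (g : X → Can) : Subs (El U) (rl U g) (om U) :=
  fun _ hz => all_mk (fun U z => El U z (om U)) (fun k U _ => num_el_om U k) hz

theorem eq_of_num (H : UF X → Prop) [Tr H] (a b : Nm X)
    (h : ∀ k U, H U → (El U (num U k) (cls U a) ↔ El U (num U k) (cls U b))) {U : UF X}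
    (hU : H U) (ha : Subs (El U) (cls U a) (om U)) (hb : Subs (El U) (cls U b) (om U)) :
    cls U a = cls U b := by
  have key : ∀ z, El U z (om U) → (El U z (cls U a) ↔ El U z (cls U b)) := fun z hz =>
    all_om (fun U z => H U → (El U z (cls U a) ↔ El U z (cls U b))) h hz hU
  exact md_ext fun z => ⟨fun h => (key z (ha z h)).1 h, fun h => (key z (hb z h)).2 h⟩

theorem exists_real (σ : Nm X) : ∃ g : X → Can, Measurable g ∧
    ∀ U, Subs (El U) (cls U σ) (om U) → cls U σ = rl U g := by
  classical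
  choose S hS hS' using fun k => Tr.rep fun U => El U (num U k) (cls U σ)
  have hg : Measurable fun x k => decide (x ∈ S k) := by
    refine measurable_pi_iff.2 fun k => measurable_to_bool ?_
    convert hS k using 1
    ext x; simp
  refine ⟨_, hg, fun U hU => ?_⟩
  have := Tr.const (X := X) True
  refine eq_of_num (fun _ => True) _ _ (fun k U _ => ?_) trivial hU (subs_rl U _)
  rw [el_rl hg, hS']
  simp only [decide_eq_true_eq]
  rfl

theorem real_cases {U : UF X} {y : Md U} (h : Subs (El U) y (om U)) :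
    ∃ g : X → Can, Measurable g ∧ y = rl U g := by
  obtain ⟨σ, rfl⟩ := mk_surj y
  obtain ⟨g, hg, h'⟩ := exists_real σ
  exact ⟨g, hg, h' U h⟩

theorem el_rl_iff {U : UF X} {g h : X → Can} (hg : Measurable g) (hh : Measurable h) (k : ℕ) :
    (El U (num U k) (rl U g) ↔ El U (num U k) (rl U h)) ↔ Ae U fun x => g x k = h x k := by
  rw [el_rl hg, el_rl hh]
  constructor
  · intro e
    by_cases h1 : Ae U fun x => g x k = true
    · filter_upwards [h1, e.1 h1] with x h2 h3 using h2.trans h3.symm
    · have h2 : ¬ Ae U fun x => h x k = true := fun h2 => h1 (e.2 h2)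
      filter_upwards [Ultrafilter.eventually_not.2 h1, Ultrafilter.eventually_not.2 h2]
        with x h3 h4
      simp_all
  · intro e
    constructor
    · intro h1
      filter_upwards [h1, e] with x h2 h3 using h3 ▸ h2
    · intro h1
      filter_upwards [h1, e] with x h2 h3 using h3 ▸ h2

theorem rl_eq {U : UF X} {g h : X → Can} (hg : Measurable g) (hh : Measurable h) :
    rl U g = rl U h ↔ Ae U fun x => g x = h x := by
  constructor
  · intro e
    have := ae_all (fun U => rl U g = rl U h) (q := fun k x => g x k = h x k)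
      (fun k U e => (el_rl_iff hg hh k).1 (by rw [e])) e
    filter_upwards [this] with x hx using funext hx
  · intro e
    have := tr_ae (p := fun x => g x = h x) (measurableSet_eq_fun hg hh)
    refine eq_of_num (fun U => Ae U fun x => g x = h x) _ _ (fun k U e => ?_) e (subs_rl U _)
      (subs_rl U _)
    exact (el_rl_iff hg hh k).2 (e.mono fun x hx => congrFun hx k)

theorem agree_iff {U : UF X} {g h : X → Can} (hg : Measurable g) (hh : Measurable h) (N : ℕ) :
    Agree (El U) (num U N) (rl U g) (rl U h) ↔ Ae U fun x => ∀ k < N, g x k = h x k := by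
  have : (Ae U fun x => ∀ k < N, g x k = h x k) ↔
      ∀ k ∈ Finset.range N, Ae U fun x => g x k = h x k := by
    rw [← eventually_all_finset]
    simp only [Finset.mem_range]
  rw [this]
  constructor
  · intro e k hk
    exact (el_rl_iff hg hh k).1 (e _ (num_el_num.2 (Finset.mem_range.1 hk)))
  · intro e z hz
    obtain ⟨j, hj, rfl⟩ := el_num.1 hz
    exact (el_rl_iff hg hh j).2 (e j (Finset.mem_range.2 hj))

theorem el_rl_const {U : UF X} (s : Finset ℕ) (k : ℕ) :
    El U (num U k) (rl U fun _ => ind s) ↔ k ∈ s := by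
  rw [el_rl measurable_const]
  simp [ind]

theorem subs_num_cases {U : UF X} {y : Md U} {N : ℕ} :
    Subs (El U) y (num U N) ↔ ∃ s ∈ (Finset.range N).powerset, y = rl U fun _ => ind s := by
  classical
  have key : ∀ s ∈ (Finset.range N).powerset, Subs (El U) (rl U fun _ => ind s) (num U N) := by
    intro s hs z hz
    refine all_mk (fun U z => El U z (num U N)) (fun k U hk => num_el_num.2 ?_) hz
    have h1 := (el_rl_const s k).1 (el_of_v numN _ k hk)
    exact Finset.mem_range.1 (Finset.mem_powerset.1 hs h1)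
  constructor
  · intro h
    have hs : (Finset.range N).filter (fun k => El U (num U k) y) ∈ (Finset.range N).powerset :=
      Finset.mem_powerset.2 (Finset.filter_subset _ _)
    refine ⟨_, hs, md_ext fun z => ⟨fun hz => ?_, fun hz => ?_⟩⟩
    · obtain ⟨j, hj, rfl⟩ := el_num.1 (h z hz)
      exact (el_rl_const _ _).2 (Finset.mem_filter.2 ⟨Finset.mem_range.2 hj, hz⟩)
    · obtain ⟨j, hj, rfl⟩ := el_num.1 (key _ hs z hz)
      exact (Finset.mem_filter.1 ((el_rl_const _ _).1 hz)).2
  · rintro ⟨s, hs, rfl⟩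
    exact key s hs

theorem rl_const_inj {U : UF X} {s t : Finset ℕ}
    (h : (rl U fun _ => ind s) = rl U fun _ => ind t) : s = t := by
  ext k
  rw [← el_rl_const (U := U), h, el_rl_const]

theorem isPow_iff {U : UF X} {n c : ℕ} : IsPow (El U) (num U n) (num U c) ↔ 2 ^ n = c := by
  rw [IsPow, eqn_iff (Finset.range n).powerset (fun s => rl U fun _ => ind s)
    (fun _ _ _ _ h => rl_const_inj h) (fun z => subs_num_cases), Finset.card_powerset,
    Finset.card_range]

theorem gap_iff {U : UF X} {p q d p' : ℕ} :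
    Gap (El U) (om U) (num U p) (num U q) (num U d) (num U p') ↔ p * d + q < p' * d := by
  constructor
  · rintro ⟨a, b, c, ha, hb, hc, h⟩
    have := Tr.const (X := X) (p * d + q < p' * d)
    refine all_om (fun U a => ∀ b c, El U b (om U) → El U c (om U) →
      (IsMul (El U) (num U p) (num U d) a ∧ IsAdd (El U) a (num U q) b ∧
        IsMul (El U) (num U p') (num U d) c ∧ El U b c) → p * d + q < p' * d)
      (fun a U b c hb hc h => ?_) ha b c hb hc h
    refine all_om (fun U b => ∀ c, El U c (om U) →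
      (IsMul (El U) (num U p) (num U d) (num U a) ∧ IsAdd (El U) (num U a) (num U q) b ∧
        IsMul (El U) (num U p') (num U d) c ∧ El U b c) → p * d + q < p' * d)
      (fun b U c hc h => ?_) hb c hc h
    refine all_om (fun U c =>
      (IsMul (El U) (num U p) (num U d) (num U a) ∧ IsAdd (El U) (num U a) (num U q) (num U b) ∧
        IsMul (El U) (num U p') (num U d) c ∧ El U (num U b) c) → p * d + q < p' * d)
      (fun c U h => ?_) hc h
    rw [isMul_iff, isAdd_iff, isMul_iff, num_el_num] at h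
    omega
  · intro h
    exact ⟨num U (p * d), num U (p * d + q), num U (p' * d), num_el_om _ _, num_el_om _ _,
      num_el_om _ _, isMul_iff.2 rfl, isAdd_iff.2 rfl, isMul_iff.2 rfl, num_el_num.2 h⟩

theorem den_iff {U : UF X} {k m n d : ℕ} :
    Den (El U) (om U) (num U k) (num U m) (num U n) (num U d) ↔ k * m * 2 ^ (n + 1) = d := by
  constructor
  · rintro ⟨a, b, c, ha, hb, hc, h⟩
    have := Tr.const (X := X) (k * m * 2 ^ (n + 1) = d)
    refine all_om (fun U a => ∀ b c, El U b (om U) → El U c (om U) →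
      (Succ (El U) (num U n) a ∧ IsPow (El U) a b ∧ IsMul (El U) (num U k) (num U m) c ∧
        IsMul (El U) c b (num U d)) → k * m * 2 ^ (n + 1) = d)
      (fun a U b c hb hc h => ?_) ha b c hb hc h
    refine all_om (fun U b => ∀ c, El U c (om U) →
      (Succ (El U) (num U n) (num U a) ∧ IsPow (El U) (num U a) b ∧
        IsMul (El U) (num U k) (num U m) c ∧ IsMul (El U) c b (num U d)) →
        k * m * 2 ^ (n + 1) = d)
      (fun b U c hc h => ?_) hb c hc h
    refine all_om (fun U c =>
      (Succ (El U) (num U n) (num U a) ∧ IsPow (El U) (num U a) (num U b) ∧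
        IsMul (El U) (num U k) (num U m) c ∧ IsMul (El U) c (num U b) (num U d)) →
        k * m * 2 ^ (n + 1) = d)
      (fun c U h => ?_) hc h
    rw [succ_num_iff, isPow_iff, isMul_iff, isMul_iff] at h
    obtain ⟨rfl, rfl, rfl, rfl⟩ := h
    rfl
  · intro h
    exact ⟨num U (n + 1), num U (2 ^ (n + 1)), num U (k * m), num_el_om _ _, num_el_om _ _,
      num_el_om _ _, succ_num_iff.2 rfl, isPow_iff.2 rfl, isMul_iff.2 rfl, isMul_iff.2 h⟩

end Pool.Agent.Lib.MP_898cae_lc
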