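import Pool.Agent.Lib.MP_898cae_lc.Arith

/-!
The product measure on the Cantor space, cylinders, and measurable families of open sets.
-/

open TopologicalSpace Set Filter MeasureTheory ProbabilityTheory
open scoped ENNReal

namespace Pool.Agent.Lib.MP_898cae_lc

/-- The fair coin product measure. -/
noncomputable def lam : Measure Can :=
  Measure.infinitePi (fun _ : ℕ => uniformOn (Set.univ : Set Bool))

instance : IsProbabilityMeasure lam := by
  unfold lam; infer_instance

/-- The cylinder of points agreeing with `y` below `N`. -/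
def cy (N : ℕ) (y : Can) : Set Can := {z | ∀ k < N, z k = y k}

theorem self_mem_cy (N : ℕ) (y : Can) : y ∈ cy N y := fun _ _ => rfl

theorem cy_eq_pi (N : ℕ) (y : Can) :
    cy N y = Set.pi (Finset.range N : Set ℕ) (fun k => {y k}) := by
  ext x
  simp [cy]

theorem lam_pi (s : Finset ℕ) (y : Can) :
    lam (Set.pi (s : Set ℕ) (fun k => {y k})) = 2⁻¹ ^ s.card := by
  have h : ∀ b : Bool, uniformOn (Set.univ : Set Bool) {b} = 2⁻¹ := by
    intro b
    rw [uniformOn_univ]
    simp
  unfold lam
  rw [Measure.infinitePi_pi _ (fun i _ => measurableSet_singleton _)]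
  simp only [h, Finset.prod_const]

theorem lam_cy (N : ℕ) (y : Can) : lam (cy N y) = 2⁻¹ ^ N := by
  rw [cy_eq_pi, lam_pi, Finset.card_range]

theorem lam_real_cy (N : ℕ) (y : Can) : lam.real (cy N y) = (1 / 2) ^ N := by
  simp [Measure.real, lam_cy]

theorem isClopen_cy (N : ℕ) (y : Can) : IsClopen (cy N y) := by
  have : cy N y = ⋂ i ∈ Finset.range N, (fun x : Can => x i) ⁻¹' {y i} := by
    ext z; simp [cy]
  rw [this]
  exact isClopen_biInter_finset fun i _ => (isClopen_discrete _).preimage (continuous_apply i)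

theorem meas_cy (N : ℕ) (y : Can) : MeasurableSet (cy N y) := (isClopen_cy N y).isOpen.measurableSet

theorem cy_anti {M N : ℕ} (h : M ≤ N) (y : Can) : cy N y ⊆ cy M y :=
  fun _ hz k hk => hz k (hk.trans_le h)

theorem cy_eq_of_mem {N : ℕ} {y z : Can} (h : z ∈ cy N y) : cy N z = cy N y := by
  ext t
  exact ⟨fun ht k hk => (ht k hk).trans (h k hk), fun ht k hk => (ht k hk).trans (h k hk).symm⟩

theorem exists_cy_subset {O : Set Can} (hO : IsOpen O) {y : Can} (hy : y ∈ O) :
    ∃ N, cy N y ⊆ O := by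
  obtain ⟨I, u, hu, hsub⟩ := isOpen_pi_iff.1 hO y hy
  refine ⟨I.sup id + 1, fun x hx => hsub fun k hk => ?_⟩
  rw [hx k (Nat.lt_succ_of_le (Finset.le_sup (f := id) hk))]
  exact (hu k hk).2

/-- The finite set coding the first `N` coordinates. -/
def tr (N : ℕ) (y : Can) : Finset ℕ := (Finset.range N).filter fun k => y k = true

theorem tr_pow (N : ℕ) (y : Can) : tr N y ∈ (Finset.range N).powerset :=
  Finset.mem_powerset.2 (Finset.filter_subset _ _)

theorem ind_tr_mem (N : ℕ) (y : Can) : ind (tr N y) ∈ cy N y := by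
  intro k hk
  simp [ind, tr, hk]

theorem cy_ind_tr (N : ℕ) (y : Can) : cy N (ind (tr N y)) = cy N y := cy_eq_of_mem (ind_tr_mem N y)

theorem mem_cy_ind {N : ℕ} {s : Finset ℕ} (hs : s ∈ (Finset.range N).powerset) {y : Can} :
    y ∈ cy N (ind s) ↔ tr N y = s := by
  constructor
  · intro h
    ext k
    simp only [tr, Finset.mem_filter, Finset.mem_range]
    constructor
    · rintro ⟨h1, h2⟩
      simpa [ind, h2] using h k h1
    · intro hk
      have h1 := Finset.mem_range.1 (Finset.mem_powerset.1 hs hk)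
      exact ⟨h1, by simpa [ind, hk] using h k h1⟩
  · rintro rfl
    rw [cy_ind_tr]
    exact self_mem_cy _ _

/-- The set depends only on the coordinates below `N`. -/
def Det (N : ℕ) (K : Set Can) : Prop := ∀ y ∈ K, cy N y ⊆ K

theorem Det.mono {M N : ℕ} {K : Set Can} (h : Det M K) (hMN : M ≤ N) : Det N K :=
  fun y hy => (cy_anti hMN y).trans (h y hy)

theorem Det.compl {N : ℕ} {K : Set Can} (h : Det N K) : Det N Kᶜ :=
  fun y hy z hz hzK => hy (h z hzK (by rw [cy_eq_of_mem hz]; exact self_mem_cy _ _))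

theorem Det.inter {N : ℕ} {K L : Set Can} (h : Det N K) (h' : Det N L) : Det N (K ∩ L) :=
  fun y hy => subset_inter (h y hy.1) (h' y hy.2)

theorem Det.union {N : ℕ} {K L : Set Can} (h : Det N K) (h' : Det N L) : Det N (K ∪ L) :=
  fun y hy => hy.elim (fun h1 => (h y h1).trans subset_union_left)
    fun h1 => (h' y h1).trans subset_union_right

theorem det_cy (N : ℕ) (y : Can) : Det N (cy N y) := fun _ hz => (cy_eq_of_mem hz).le

theorem Det.isClopen {N : ℕ} {K : Set Can} (h : Det N K) : IsClopen K := by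
  have key : ∀ K : Set Can, Det N K → IsOpen K := fun K h => isOpen_iff_forall_mem_open.2
    fun y hy => ⟨_, h y hy, (isClopen_cy N y).isOpen, self_mem_cy N y⟩
  exact ⟨⟨key _ h.compl⟩, key _ h⟩

theorem Det.meas {N : ℕ} {K : Set Can} (h : Det N K) : MeasurableSet K :=
  h.isClopen.isOpen.measurableSet

open Classical in
theorem Det.real_inter {N : ℕ} {K : Set Can} (h : Det N K) {A : Set Can} (hA : MeasurableSet A) :
    lam.real (A ∩ K) = ∑ s ∈ (Finset.range N).powerset with ind s ∈ K,
      lam.real (A ∩ cy N (ind s)) := by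
  rw [← measureReal_biUnion_finset]
  · congr 1
    ext z
    simp only [mem_inter_iff, mem_iUnion, Finset.mem_filter, exists_prop]
    constructor
    · rintro ⟨h1, h2⟩
      exact ⟨tr N z, ⟨tr_pow N z, h z h2 (ind_tr_mem N z)⟩, h1, (mem_cy_ind (tr_pow N z)).2 rfl⟩
    · rintro ⟨s, ⟨_, h2⟩, h3, h4⟩
      exact ⟨h3, h _ h2 h4⟩
  · intro s hs t ht hst
    simp only [Finset.coe_filter, mem_ofPred_eq] at hs ht
    refine disjoint_left.2 fun z h1 h2 => hst ?_
    rw [← (mem_cy_ind hs.1).1 h1.2, (mem_cy_ind ht.1).1 h2.2]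
  · exact fun s _ => hA.inter (meas_cy _ _)

open Classical in
theorem Det.real_eq {N : ℕ} {K : Set Can} (h : Det N K) :
    lam.real K = (((Finset.range N).powerset.filter fun s => ind s ∈ K).card : ℝ) * (1 / 2) ^ N := by
  have := h.real_inter MeasurableSet.univ
  simp only [univ_inter, lam_real_cy, Finset.sum_const, nsmul_eq_mul] at this
  exact this

open Classical in
theorem open_real_le {O : Set Can} (hO : IsOpen O) {p q : ℕ} (hq : q ≠ 0) :
    (∀ N, ((Finset.range N).powerset.filter fun s => cy N (ind s) ⊆ O).card * q ≤ 2 ^ N * p) ↔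
      lam.real O ≤ p / q := by
  have hq' : (0 : ℝ) < q := Nat.cast_pos.2 (Nat.pos_of_ne_zero hq)
  have hdet : ∀ N, Det N {y | cy N y ⊆ O} := fun N y hy z hz => by
    rw [mem_ofPred_eq, cy_eq_of_mem hz]; exact hy
  have key : ∀ N, ((Finset.range N).powerset.filter fun s => cy N (ind s) ⊆ O).card * q ≤
      2 ^ N * p ↔ lam.real {y | cy N y ⊆ O} ≤ p / q := by
    intro N
    rw [(hdet N).real_eq, le_div_iff₀ hq', ← Nat.cast_le (α := ℝ)]
    simp only [mem_ofPred_eq]
    push_cast
    rw [one_div, inv_pow, mul_right_comm, ← div_eq_mul_inv, div_le_iff₀ (by positivity), mul_comm (p : ℝ)]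
  simp only [key]
  constructor
  · intro h
    have hm : Monotone fun N => {y | cy N y ⊆ O} := fun M N hMN y hy => (cy_anti hMN y).trans hy
    have hU : (⋃ N, {y | cy N y ⊆ O}) = O := by
      ext y
      simp only [mem_iUnion, mem_ofPred_eq]
      exact ⟨fun ⟨N, hN⟩ => hN (self_mem_cy N y), exists_cy_subset hO⟩
    have ht := tendsto_measure_iUnion_atTop (μ := lam) hm
    rw [hU] at ht
    exact le_of_tendsto' ((ENNReal.tendsto_toReal (measure_ne_top _ _)).comp ht) h
  · intro h N
    exact (measureReal_mono (s₁ := {y | cy N y ⊆ O}) fun y hy => hy (self_mem_cy N y)).trans h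

theorem cover_level {ι : Type*} {K : Set Can} (hK : IsClosed K) {O : ι → Set Can}
    (hO : ∀ i, IsOpen (O i)) (h : K ⊆ ⋃ i, O i) : ∃ L, ∀ z ∈ K, ∃ i, cy L z ⊆ O i := by
  have h1 : ∀ z : K, ∃ n i, cy n z ⊆ O i := by
    intro z
    obtain ⟨i, hi⟩ := mem_iUnion.1 (h z.2)
    obtain ⟨n, hn⟩ := exists_cy_subset (hO i) hi
    exact ⟨n, i, hn⟩
  choose f g hf using h1
  obtain ⟨t, ht⟩ := hK.isCompact.elim_finite_subcover (fun z : K => cy (f z) z)
    (fun z => (isClopen_cy _ _).isOpen) (fun z hz => mem_iUnion.2 ⟨⟨z, hz⟩, self_mem_cy _ _⟩)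
  refine ⟨t.sup f, fun z hz => ?_⟩
  obtain ⟨y, hy, hzy⟩ := mem_iUnion₂.1 (ht hz)
  refine ⟨g y, Subset.trans ?_ (hf y)⟩
  rw [← cy_eq_of_mem hzy]
  exact cy_anti (Finset.le_sup hy) z

theorem clopen_det {K : Set Can} (hK : IsClopen K) : ∃ N, Det N K := by
  obtain ⟨L, hL⟩ := cover_level hK.isClosed (O := fun _ : Unit => K) (fun _ => hK.isOpen)
    (subset_iUnion (fun _ : Unit => K) ())
  exact ⟨L, fun y hy => (hL y hy).elim fun _ h => h⟩

variable {X : Type} [MeasurableSpace X]

theorem meas_comp {α : Type*} [Countable α] {f : X → α} (hf : ∀ a, MeasurableSet {x | f x = a})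
    {p : α → X → Prop} (hp : ∀ a, MeasurableSet {x | p a x}) : MeasurableSet {x | p (f x) x} := by
  have : {x | p (f x) x} = ⋃ a, {x | f x = a} ∩ {x | p a x} := by
    ext x; simp
  rw [this]
  exact MeasurableSet.iUnion fun a => (hf a).inter (hp a)

theorem meas_tr {g : X → Can} (hg : Measurable g) (N : ℕ) (s : Finset ℕ) :
    MeasurableSet {x | tr N (g x) = s} := by
  by_cases hs : s ∈ (Finset.range N).powerset
  · simp only [← mem_cy_ind hs]
    exact hg (meas_cy _ _)
  · convert MeasurableSet.empty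
    ext x
    simp only [mem_ofPred_eq, mem_empty_iff_false, iff_false]
    rintro rfl
    exact hs (tr_pow _ _)

/-- The section of a family of sets. -/
def sec (F : Set (X × Can)) (x : X) : Set Can := Prod.mk x ⁻¹' F

theorem meas_lam_sec {F : Set (X × Can)} (hF : MeasurableSet F) :
    Measurable fun x => lam (sec F x) := measurable_measure_prodMk_left hF

theorem meas_real_sec {F : Set (X × Can)} (hF : MeasurableSet F) :
    Measurable fun x => lam.real (sec F x) := (meas_lam_sec hF).ennreal_toReal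

theorem meas_sec {F : Set (X × Can)} (hF : MeasurableSet F) (x : X) : MeasurableSet (sec F x) :=
  measurable_prodMk_left hF

theorem meas_graph {F : Set (X × Can)} (hF : MeasurableSet F) {g : X → Can} (hg : Measurable g) :
    MeasurableSet {x | (x, g x) ∈ F} := (measurable_id.prodMk hg) hF

/-- A measurable family of open sets. -/
structure OpenFam (O : Set (X × Can)) : Prop where
  isOpen : ∀ x, IsOpen (sec O x)
  meas : ∀ N y, MeasurableSet {x | cy N y ⊆ sec O x}

theorem OpenFam.measurableSet {O : Set (X × Can)} (h : OpenFam O) : MeasurableSet O := by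
  have : O = ⋃ N, ⋃ s : Finset ℕ, {x | cy N (ind s) ⊆ sec O x} ×ˢ cy N (ind s) := by
    ext ⟨x, z⟩
    simp only [mem_iUnion, mem_prod, mem_ofPred_eq]
    constructor
    · intro hz
      obtain ⟨N, hN⟩ := exists_cy_subset (h.isOpen x) (y := z) hz
      refine ⟨N, tr N z, ?_, ?_⟩
      all_goals rw [cy_ind_tr]
      exacts [hN, self_mem_cy _ _]
    · rintro ⟨N, s, h1, h2⟩
      exact h1 h2
  rw [this]
  exact MeasurableSet.iUnion fun N => MeasurableSet.iUnion fun s => (h.meas _ _).prod (meas_cy _ _)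

theorem OpenFam.meas_at {O : Set (X × Can)} (h : OpenFam O) {g : X → Can} (hg : Measurable g)
    (N : ℕ) : MeasurableSet {x | cy N (g x) ⊆ sec O x} := by
  have := meas_comp (meas_tr hg N) (p := fun s x => cy N (ind s) ⊆ sec O x) fun s => h.meas _ _
  simpa only [cy_ind_tr] using this

theorem OpenFam.prod {S : Set X} (hS : MeasurableSet S) {K : Set Can} (hK : IsOpen K) :
    OpenFam (S ×ˢ K) where
  isOpen := fun x => by
    by_cases hx : x ∈ S
    · convert hK using 1
      ext z; simp [sec, hx]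
    · convert isOpen_empty using 1
      ext z; simp [sec, hx]
  meas := fun N y => by
    by_cases hy : cy N y ⊆ K
    · convert hS using 1
      ext x
      exact ⟨fun h => (h (self_mem_cy N y)).1, fun h z hz => ⟨h, hy hz⟩⟩
    · convert MeasurableSet.empty using 1
      ext x
      exact ⟨fun h => hy fun z hz => (h hz).2, False.elim⟩

theorem OpenFam.inter {O O' : Set (X × Can)} (h : OpenFam O) (h' : OpenFam O') :
    OpenFam (O ∩ O') where
  isOpen := fun x => (h.isOpen x).inter (h'.isOpen x)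
  meas := fun N y => by
    convert (h.meas N y).inter (h'.meas N y) using 1
    ext x
    exact subset_inter_iff

theorem OpenFam.iUnion {ι : Type*} [Countable ι] {O : ι → Set (X × Can)}
    (h : ∀ i, OpenFam (O i)) : OpenFam (⋃ i, O i) := by
  have hs : ∀ x, sec (⋃ i, O i) x = ⋃ i, sec (O i) x := fun x => preimage_iUnion
  refine ⟨fun x => ?_, fun N y => ?_⟩
  · rw [hs]
    exact isOpen_iUnion fun i => (h i).isOpen x
  · have : {x | cy N y ⊆ sec (⋃ i, O i) x} = ⋃ L, ⋂ s : Finset ℕ,
        {_x | ind s ∈ cy N y}ᶜ ∪ ⋃ i, {x | cy (max L N) (ind s) ⊆ sec (O i) x} := by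
      ext x
      simp only [hs, mem_iUnion, mem_iInter, mem_union, mem_compl_iff, mem_ofPred_eq]
      constructor
      · intro hx
        obtain ⟨L, hL⟩ := cover_level (isClopen_cy N y).isClosed (fun i => (h i).isOpen x) hx
        refine ⟨L, fun s => ?_⟩
        by_cases hs : ind s ∈ cy N y
        · obtain ⟨i, hi⟩ := hL _ hs
          exact Or.inr ⟨i, (cy_anti (le_max_left _ _) _).trans hi⟩
        · exact Or.inl hs
      · rintro ⟨L, hL⟩ z hz
        have h1 := ind_tr_mem (max L N) z
        rcases hL (tr (max L N) z) with h2 | ⟨i, hi⟩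
        · exact absurd (cy_eq_of_mem hz ▸ cy_anti (le_max_right _ _) _ h1) h2
        · rw [cy_ind_tr] at hi
          exact mem_iUnion.2 ⟨i, hi (self_mem_cy _ _)⟩
    rw [this]
    exact MeasurableSet.iUnion fun L => MeasurableSet.iInter fun s =>
      (MeasurableSet.const _).compl.union (MeasurableSet.iUnion fun i => (h i).meas _ _)

theorem OpenFam.union {O O' : Set (X × Can)} (h : OpenFam O) (h' : OpenFam O') :
    OpenFam (O ∪ O') := by
  rw [union_eq_iUnion]
  exact OpenFam.iUnion fun b => by cases b; exacts [h', h]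

theorem OpenFam.biInter {O : ℕ → Set (X × Can)} (h : ∀ i, OpenFam (O i)) (n : ℕ) :
    OpenFam (⋂ i < n, O i) := by
  induction n with
  | zero => simpa using OpenFam.prod (X := X) MeasurableSet.univ isOpen_univ
  | succ n ih =>
    rw [Set.biInter_lt_succ]
    exact ih.inter (h n)

theorem OpenFam.select {O : Set (X × Can)} (h : OpenFam O) :
    ∃ g : X → Can, Measurable g ∧ ∀ x, (∃ z, (x, z) ∉ O) → (x, g x) ∉ O := by
  classical
  let s : ℕ → X → Finset ℕ := fun n => Nat.rec (fun _ => ∅)
    (fun n r x => if cy (n + 1) (ind (r x)) ⊆ sec O x then insert n (r x) else r x) n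
  have hs : ∀ n x, s (n + 1) x =
    if cy (n + 1) (ind (s n x)) ⊆ sec O x then insert n (s n x) else s n x := fun _ _ => rfl
  have hm : ∀ n t, MeasurableSet {x | s n x = t} := by
    intro n
    induction n with
    | zero => exact fun t => MeasurableSet.const ((∅ : Finset ℕ) = t)
    | succ n ih =>
      intro t
      refine meas_comp ih (p := fun r x =>
        (if cy (n + 1) (ind r) ⊆ sec O x then insert n r else r) = t) fun r => ?_
      have : {x | (if cy (n + 1) (ind r) ⊆ sec O x then insert n r else r) = t} =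
          ({x | cy (n + 1) (ind r) ⊆ sec O x} ∩ {_x | insert n r = t}) ∪
            ({x | cy (n + 1) (ind r) ⊆ sec O x}ᶜ ∩ {_x | r = t}) := by
        ext x
        by_cases hx : cy (n + 1) (ind r) ⊆ sec O x <;> simp [hx]
      rw [this]
      exact ((h.meas _ _).inter (MeasurableSet.const _)).union
        ((h.meas _ _).compl.inter (MeasurableSet.const _))
  have hlt : ∀ n x, ∀ k ∈ s n x, k < n := by
    intro n x
    induction n with
    | zero => exact fun k hk => absurd hk (Finset.notMem_empty k)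
    | succ n ih =>
      intro k hk
      rw [hs] at hk
      split_ifs at hk
      · rcases Finset.mem_insert.1 hk with rfl | hk
        · exact Nat.lt_succ_self _
        · exact Nat.lt_succ_of_lt (ih k hk)
      · exact Nat.lt_succ_of_lt (ih k hk)
  have hstab : ∀ n x k, k < n → (k ∈ s n x ↔ k ∈ s (k + 1) x) := by
    intro n x k hk
    induction n, hk using Nat.le_induction with
    | base => rfl
    | succ n hn ih =>
      rw [← ih, hs]
      split_ifs
      · rw [Finset.mem_insert, or_iff_right (by omega)]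
      · rfl
  refine ⟨fun x k => decide (k ∈ s (k + 1) x), ?_, fun x hx hg => ?_⟩
  · refine measurable_pi_iff.2 fun k => measurable_to_bool ?_
    have := meas_comp (hm (k + 1)) (p := fun r _ => k ∈ r) fun r => MeasurableSet.const _
    convert this using 1
    ext x; simp
  · have inv : ∀ n, ¬ cy n (ind (s n x)) ⊆ sec O x := by
      intro n
      induction n with
      | zero =>
        obtain ⟨z, hz⟩ := hx
        exact fun h0 => hz (h0 fun k hk => absurd hk (Nat.not_lt_zero k))
      | succ n ih =>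
        rw [hs]
        split_ifs with h1
        · intro h2
          refine ih fun z hz => ?_
          cases hzn : z n
          · refine h1 fun k hk => ?_
            rcases Nat.lt_succ_iff_lt_or_eq.1 hk with hk | rfl
            · exact hz k hk
            · have : k ∉ s k x := fun h => lt_irrefl _ (hlt k x k h)
              simp [ind, this, hzn]
          · refine h2 fun k hk => ?_
            rcases Nat.lt_succ_iff_lt_or_eq.1 hk with hk | rfl
            · rw [hz k hk]
              simp [ind, hk.ne]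
            · simp [ind, hzn]
        · exact h1
    obtain ⟨N, hN⟩ := exists_cy_subset (h.isOpen x) hg
    refine inv N fun z hz => hN fun k hk => ?_
    rw [hz k hk]
    simp [ind, hstab N x k hk]

theorem fam_induction {P : Set (X × Can) → Prop}
    (h0 : ∀ F, OpenFam F → OpenFam Fᶜ → P F) (hc : ∀ F, MeasurableSet F → P F → P Fᶜ)
    (hu : ∀ F : ℕ → Set (X × Can), (∀ n, MeasurableSet (F n)) → (∀ n, P (F n)) → P (⋃ n, F n))
    {F : Set (X × Can)} (hF : MeasurableSet F) : P F := by
  have hu0 : OpenFam (univ : Set (X × Can)) := by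
    simpa using OpenFam.prod (X := X) MeasurableSet.univ isOpen_univ
  have he0 : OpenFam (∅ : Set (X × Can)) := by
    simpa using OpenFam.prod (X := X) MeasurableSet.univ isOpen_empty
  let m : MeasurableSpace (X × Can) :=
    { MeasurableSet' := fun F => MeasurableSet F ∧ P F
      measurableSet_empty := ⟨MeasurableSet.empty, h0 _ he0 (by simpa using hu0)⟩
      measurableSet_compl := fun F h => ⟨h.1.compl, hc F h.1 h.2⟩
      measurableSet_iUnion := fun F h =>
        ⟨MeasurableSet.iUnion fun n => (h n).1, hu F (fun n => (h n).1) fun n => (h n).2⟩ }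
  have h1 : @Measurable _ _ m _ (Prod.fst : X × Can → X) := by
    intro S hS
    refine ⟨measurable_fst hS, h0 _ ?_ ?_⟩
    · rw [← prod_univ]
      exact OpenFam.prod hS isOpen_univ
    · rw [← preimage_compl, ← prod_univ]
      exact OpenFam.prod hS.compl isOpen_univ
  have h2 : @Measurable _ _ m _ (Prod.snd : X × Can → Can) := by
    refine (@measurable_pi_iff _ _ _ m _ _).2 fun k => ?_
    intro S _
    have hK : IsClopen ((fun z : Can => z k) ⁻¹' S) :=
      (isClopen_discrete _).preimage (continuous_apply k)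
    have e : (fun x : X × Can => x.2 k) ⁻¹' S = univ ×ˢ ((fun z : Can => z k) ⁻¹' S) := by
      ext; simp
    have e' : ((fun x : X × Can => x.2 k) ⁻¹' S)ᶜ = univ ×ˢ ((fun z : Can => z k) ⁻¹' S)ᶜ := by
      ext; simp
    refine ⟨measurable_snd hK.isOpen.measurableSet, h0 _ ?_ ?_⟩
    · rw [e]; exact OpenFam.prod MeasurableSet.univ hK.isOpen
    · rw [e']; exact OpenFam.prod MeasurableSet.univ hK.compl.isOpen
  have h3 : (Prod.instMeasurableSpace : MeasurableSpace (X × Can)) ≤ m :=
    sup_le h1.comap_le h2.comap_le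
  exact (h3 F hF).2

/-- Outer regularity, measurably in the parameter. -/
def Out (F : Set (X × Can)) : Prop :=
  ∀ δ : ℝ≥0∞, δ ≠ 0 → ∃ O, OpenFam O ∧ F ⊆ O ∧ ∀ x, lam (sec (O \ F) x) ≤ δ

theorem out_seq {F : ℕ → Set (X × Can)} (h : ∀ n, Out (F n)) {δ : ℝ≥0∞} (hδ : δ ≠ 0) :
    ∃ O : ℕ → Set (X × Can), (∀ n, OpenFam (O n)) ∧ (∀ n, F n ⊆ O n) ∧
      ∀ x, lam (⋃ n, sec (O n \ F n) x) ≤ δ := by
  obtain ⟨e, he, he'⟩ := ENNReal.exists_pos_sum_of_countable hδ ℕ
  choose O h1 h2 h3 using fun n => h n (e n) (by simpa using (he n).ne')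
  exact ⟨O, h1, h2, fun x => (measure_iUnion_le _).trans
    ((ENNReal.tsum_le_tsum fun n => h3 n x).trans he'.le)⟩

theorem out_of_meas {F : Set (X × Can)} (hF : MeasurableSet F) : Out F := by
  suffices h : Out F ∧ Out Fᶜ from h.1
  have h0 : ∀ F : Set (X × Can), OpenFam F → Out F := fun F h δ _ =>
    ⟨F, h, Subset.rfl, fun x => by simp [sec]⟩
  refine fam_induction (P := fun F => Out F ∧ Out Fᶜ) (fun F h h' => ⟨h0 _ h, h0 _ h'⟩)
    (fun F _ h => ⟨h.2, by simpa using h.1⟩) (fun F hm h => ⟨fun δ hδ => ?_, fun δ hδ => ?_⟩) hF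
  · obtain ⟨O, h1, h2, h3⟩ := out_seq (fun n => (h n).1) hδ
    refine ⟨⋃ n, O n, OpenFam.iUnion h1, iUnion_mono h2, fun x => (measure_mono ?_).trans (h3 x)⟩
    rintro z ⟨h4, h5⟩
    obtain ⟨n, hn⟩ := mem_iUnion.1 h4
    exact mem_iUnion.2 ⟨n, hn, fun h6 => h5 (mem_iUnion.2 ⟨n, h6⟩)⟩
  · have hδ2 : δ / 2 ≠ 0 := ENNReal.div_ne_zero.2 ⟨hδ, by simp⟩
    obtain ⟨O, h1, h2, h3⟩ := out_seq (fun n => (h n).2) hδ2
    let D : ℕ → Set (X × Can) := fun N => (⋂ n < N, (F n)ᶜ) ∩ ⋃ n, F n
    have hD : ∀ N, MeasurableSet (D N) := fun N =>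
      (MeasurableSet.iInter fun n => MeasurableSet.iInter fun _ => (hm n).compl).inter
        (MeasurableSet.iUnion hm)
    let S : ℕ → Set X := fun N => {x | lam (sec (D N) x) ≤ δ / 2}
    have hS : ∀ N, MeasurableSet (S N) := fun N =>
      measurableSet_le (meas_lam_sec (hD N)) measurable_const
    have hex : ∀ x, ∃ N, x ∈ disjointed S N := by
      intro x
      rw [← mem_iUnion, iUnion_disjointed, mem_iUnion]
      have ha : Antitone fun N => sec (D N) x := by
        intro M N hMN z hz
        exact ⟨mem_iInter₂.2 fun n hn => mem_iInter₂.1 hz.1 n (hn.trans_le hMN), hz.2⟩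
      have ht := tendsto_measure_iInter_atTop (μ := lam)
        (fun N => (meas_sec (hD N) x).nullMeasurableSet) ha ⟨0, measure_ne_top _ _⟩
      have he : (⋂ N, sec (D N) x) = ∅ := by
        refine eq_empty_of_forall_notMem fun z hz => ?_
        obtain ⟨n, hn⟩ := mem_iUnion.1 (mem_iInter.1 hz 0).2
        exact mem_iInter₂.1 (mem_iInter.1 hz (n + 1)).1 n (Nat.lt_succ_self n) hn
      rw [he, measure_empty] at ht
      exact (ht.eventually (ge_mem_nhds (pos_iff_ne_zero.2 hδ2))).exists
    refine ⟨⋃ N, (disjointed S N ×ˢ univ) ∩ ⋂ n < N, O n, OpenFam.iUnion fun N =>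
      (OpenFam.prod (MeasurableSet.disjointed hS N) isOpen_univ).inter (OpenFam.biInter h1 N),
      ?_, fun x => ?_⟩
    · rintro ⟨x, z⟩ hz
      obtain ⟨N, hN⟩ := hex x
      exact mem_iUnion.2 ⟨N, ⟨hN, mem_univ _⟩, mem_iInter₂.2 fun n _ =>
        h2 n fun h => hz (mem_iUnion.2 ⟨n, h⟩)⟩
    · obtain ⟨N, hN⟩ := hex x
      have hsub : sec ((⋃ N, (disjointed S N ×ˢ univ) ∩ ⋂ n < N, O n) \ (⋃ n, F n)ᶜ) x ⊆
          (⋃ n, sec (O n \ (F n)ᶜ) x) ∪ sec (D N) x := by
        rintro z ⟨h4, h5⟩
        obtain ⟨M, h6, h7⟩ := mem_iUnion.1 h4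
        obtain rfl : M = N := by
          by_contra hne
          exact disjoint_left.1 (disjoint_disjointed S hne) h6.1 hN
        by_cases h8 : (x, z) ∈ ⋂ n < M, (F n)ᶜ
        · exact Or.inr ⟨h8, not_not.1 h5⟩
        · simp only [mem_iInter, not_forall] at h8
          obtain ⟨n, hn, h8⟩ := h8
          exact Or.inl (mem_iUnion.2 ⟨n, mem_iInter₂.1 h7 n hn, h8⟩)
      refine (measure_mono hsub).trans ((measure_union_le _ _).trans ?_)
      exact (add_le_add (h3 x) (disjointed_subset S N hN)).trans (ENNReal.add_halves δ).le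

theorem out_real {F : Set (X × Can)} (hF : MeasurableSet F) {δ : ℝ} (hδ : 0 < δ) :
    ∃ O, OpenFam O ∧ F ⊆ O ∧ ∀ x, lam.real (sec (O \ F) x) ≤ δ := by
  obtain ⟨O, h1, h2, h3⟩ := out_of_meas hF (ENNReal.ofReal δ) (by simpa using hδ)
  exact ⟨O, h1, h2, fun x => ENNReal.toReal_le_of_le_ofReal hδ.le (h3 x)⟩

end Pool.Agent.Lib.MP_898cae_lc
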