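import Pool.Agent.Lib.MP_898cae_lc.Psi

/-!
The set adjoined to a countable algebra with property (T): a limit of clopen sets steered by a
sequence of proposed moves.
-/

open Set Filter MeasureTheory Topology

namespace Pool.Agent.Lib.MP_898cae_lc

/-- A level together with the code of a clopen set. -/
abbrev St : Type := ℕ × Finset (Finset ℕ)

/-- The clopen set of a state. -/
def KK (s : St) : Set Can := {z | tr (s.1 + 1) z ∈ s.2}

theorem det_KK (s : St) : Det (s.1 + 1) (KK s) := by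
  intro y hy z hz
  have : tr (s.1 + 1) z = tr (s.1 + 1) y := by
    rw [← mem_cy_ind (tr_pow _ _), cy_ind_tr]
    exact hz
  rw [KK, mem_ofPred_eq, this]
  exact hy

theorem meas_KK (s : St) : MeasurableSet (KK s) := (det_KK s).meas

theorem exists_KK {l : ℕ} {K : Set Can} (h : Det (l + 1) K) : ∃ D, KK (l, D) = K := by
  classical
  refine ⟨(Finset.range (l + 1)).powerset.filter fun s => ind s ∈ K, ?_⟩
  ext z
  simp only [KK, mem_ofPred_eq, Finset.mem_filter, tr_pow, true_and]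
  refine ⟨fun hz => h _ hz ?_, fun hz => h _ hz (ind_tr_mem _ _)⟩
  rw [cy_ind_tr]
  exact self_mem_cy _ _

/-- The level `n` is good for the first `t` sets. -/
def GoodF (ε : ℝ) (n : ℕ) (G : ℕ → Set Can) (t : ℕ) : Prop := ∀ i < t, ∀ y, GoodR ε n y (G i)

/-- A legitimate move at stage `t`. -/
def Legit (G : ℕ → Set Can) (t : ℕ) (s s' : St) : Prop :=
  s.1 < s'.1 ∧ GoodF ((1 / 2) ^ t) s'.1 G t ∧
  lam.real (symmDiff (KK s) (KK s')) ≤ (1 / 2) ^ t * ((1 / 2) ^ (s.1 + 1) / (s.1 + 1)) ∧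
  ∀ i < t, ∀ n ≤ s.1, ∀ y m, n < m →
    |psi m (G i ∩ cy (n + 1) y ∩ KK s') - psi m (G i ∩ cy (n + 1) y ∩ KK s)| ≤
      (1 / 2) ^ t * ((1 / 2) ^ (s.1 + 1) / m)

open Classical in
/-- The states visited. -/
noncomputable def st (G : ℕ → Set Can) (c : ℕ → St) : ℕ → St
  | 0 => (0, ∅)
  | t + 1 => if Legit G t (st G c t) (c t) then c t else st G c t

/-- The limit set. -/
def Phi (G : ℕ → Set Can) (c : ℕ → St) : Set Can := {z | ∀ a, ∃ t, a ≤ t ∧ z ∈ KK (st G c t)}

theorem meas_Phi (G : ℕ → Set Can) (c : ℕ → St) : MeasurableSet (Phi G c) := by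
  have : Phi G c = ⋂ a, ⋃ t, ⋃ _ : a ≤ t, KK (st G c t) := by
    ext z; simp [Phi]
  rw [this]
  exact MeasurableSet.iInter fun a => MeasurableSet.iUnion fun t =>
    MeasurableSet.iUnion fun _ => meas_KK _

variable {G : ℕ → Set Can} {c : ℕ → St}

theorem st_cases (G : ℕ → Set Can) (c : ℕ → St) (t : ℕ) :
    Legit G t (st G c t) (st G c (t + 1)) ∨ st G c (t + 1) = st G c t := by
  rw [st]
  split_ifs with h
  exacts [Or.inl h, Or.inr rfl]

theorem st_mono (G : ℕ → Set Can) (c : ℕ → St) : Monotone fun t => (st G c t).1 :=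
  monotone_nat_of_le_succ fun t => (st_cases G c t).elim (fun h => h.1.le) fun h => by rw [h]

theorem half_anti {a b : ℕ} (h : a ≤ b) : (1 / 2 : ℝ) ^ (b + 1) ≤ (1 / 2) ^ (a + 1) :=
  pow_le_pow_of_le_one (by norm_num) (by norm_num) (by omega)

theorem phi_tail (G : ℕ → Set Can) (c : ℕ → St) (a : ℕ) :
    lam.real (symmDiff (Phi G c) (KK (st G c a))) ≤
      2 * (1 / 2) ^ a * ((1 / 2) ^ ((st G c a).1 + 1) / ((st G c a).1 + 1)) := by
  set w : ℝ := (1 / 2) ^ ((st G c a).1 + 1) / ((st G c a).1 + 1) with hw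
  have hw0 : 0 ≤ w := by positivity
  have hstep : ∀ j, lam.real (symmDiff (KK (st G c (a + j))) (KK (st G c (a + j + 1)))) ≤
      (1 / 2) ^ a * w * (1 / 2) ^ j := by
    intro j
    rcases st_cases G c (a + j) with h | h
    · refine h.2.2.1.trans ?_
      have h1 : (st G c a).1 ≤ (st G c (a + j)).1 := st_mono G c (Nat.le_add_right a j)
      have h2 : (1 / 2 : ℝ) ^ ((st G c (a + j)).1 + 1) / ((st G c (a + j)).1 + 1) ≤ w := by
        rw [hw]
        gcongr ?_ / (?_ + 1)
        · exact half_anti h1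
        · exact_mod_cast h1
      rw [pow_add, mul_right_comm]
      gcongr
    · rw [h, symmDiff_self]
      simp only [bot_eq_empty, measureReal_empty]
      positivity
  have hsub : symmDiff (Phi G c) (KK (st G c a)) ⊆
      ⋃ j, symmDiff (KK (st G c (a + j))) (KK (st G c (a + j + 1))) := by
    intro z hz
    by_contra hc
    simp only [mem_iUnion, not_exists, mem_symmDiff] at hc
    have h1 : ∀ j, z ∈ KK (st G c (a + j)) ↔ z ∈ KK (st G c a) := by
      intro j
      induction j with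
      | zero => rfl
      | succ j ih =>
        have := hc j
        rw [← ih, ← add_assoc]
        tauto
    have h2 : z ∈ Phi G c ↔ z ∈ KK (st G c a) := by
      constructor
      · intro h
        obtain ⟨t, ht, h⟩ := h a
        obtain ⟨j, rfl⟩ := Nat.exists_eq_add_of_le ht
        exact (h1 j).1 h
      · exact fun h b => ⟨a + b, Nat.le_add_left b a, (h1 b).2 h⟩
    rw [mem_symmDiff] at hz
    tauto
  have hsum : Summable fun j : ℕ => (1 / 2 : ℝ) ^ a * w * (1 / 2) ^ j :=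
    summable_geometric_two.mul_left _
  refine ENNReal.toReal_le_of_le_ofReal (by positivity) ?_
  refine (measure_mono hsub).trans ((measure_iUnion_le _).trans ?_)
  refine (ENNReal.tsum_le_tsum fun j => ?_).trans
    (ENNReal.ofReal_tsum_of_nonneg (fun j => by positivity) hsum).symm.le |>.trans ?_
  · rw [← ENNReal.ofReal_toReal (measure_ne_top lam _)]
    exact ENNReal.ofReal_le_ofReal (hstep j)
  · rw [tsum_mul_left, tsum_geometric_two]
    exact ENNReal.ofReal_le_ofReal (le_of_eq (by ring))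

theorem phi_tail' (G : ℕ → Set Can) (c : ℕ → St) (a : ℕ) :
    lam.real (symmDiff (Phi G c) (KK (st G c a))) ≤ 2 * (1 / 2) ^ a := by
  refine (phi_tail G c a).trans (mul_le_of_le_one_right (by positivity) ?_)
  rw [div_le_one (by positivity)]
  refine (pow_le_one₀ (by norm_num) (by norm_num)).trans ?_
  linarith [Nat.cast_nonneg (α := ℝ) (st G c a).1]

theorem psi_tail (hG : ∀ i, MeasurableSet (G i)) (c : ℕ → St) {a i n m : ℕ} (hi : i < a)
    (hn : n ≤ (st G c a).1) (hm : n < m) (y : Can) :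
    |psi m (G i ∩ cy (n + 1) y ∩ Phi G c) - psi m (G i ∩ cy (n + 1) y ∩ KK (st G c a))| ≤
      2 * (1 / 2) ^ a * ((1 / 2) ^ ((st G c a).1 + 1) / m) := by
  set w : ℝ := (1 / 2) ^ ((st G c a).1 + 1) / m with hw
  have hw0 : 0 ≤ w := by positivity
  have hZ : MeasurableSet (G i ∩ cy (n + 1) y) := (hG i).inter (meas_cy _ _)
  have h1 : ∀ j, |psi m (G i ∩ cy (n + 1) y ∩ KK (st G c (a + j))) -
      psi m (G i ∩ cy (n + 1) y ∩ KK (st G c a))| ≤
      (2 * (1 / 2) ^ a - 2 * (1 / 2) ^ (a + j)) * w := by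
    intro j
    induction j with
    | zero => simp
    | succ j ih =>
      have h2 : |psi m (G i ∩ cy (n + 1) y ∩ KK (st G c (a + j + 1))) -
          psi m (G i ∩ cy (n + 1) y ∩ KK (st G c (a + j)))| ≤ (1 / 2) ^ (a + j) * w := by
        rcases st_cases G c (a + j) with h | h
        · have h1 : (st G c a).1 ≤ (st G c (a + j)).1 := st_mono G c (Nat.le_add_right a j)
          refine (h.2.2.2 i (by omega) n (hn.trans h1) y m hm).trans ?_
          rw [hw]
          gcongr _ * (?_ / _)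
          exact half_anti h1
        · rw [h, sub_self, abs_zero]
          positivity
      rw [← add_assoc]
      refine (abs_sub_le _ _ _).trans ((add_le_add h2 ih).trans (le_of_eq ?_))
      ring
  have h2 : ∀ j, |psi m (G i ∩ cy (n + 1) y ∩ Phi G c) -
      psi m (G i ∩ cy (n + 1) y ∩ KK (st G c a))| ≤
      2 * (1 / 2) ^ a * w + 2 * (1 / 2) ^ j := by
    intro j
    refine (abs_sub_le _ (psi m (G i ∩ cy (n + 1) y ∩ KK (st G c (a + j)))) _).trans ?_
    have h3 := abs_psi_sub_le m (hZ.inter (meas_Phi G c)) (hZ.inter (meas_KK (st G c (a + j))))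
    have h4 : lam.real (symmDiff (G i ∩ cy (n + 1) y ∩ Phi G c)
        (G i ∩ cy (n + 1) y ∩ KK (st G c (a + j)))) ≤ 2 * (1 / 2) ^ j := by
      refine (measureReal_mono ?_).trans ((phi_tail' G c (a + j)).trans ?_)
      · rw [← inter_symmDiff_distrib_left]
        exact inter_subset_right
      · gcongr 2 * ?_
        exact pow_le_pow_of_le_one (by norm_num) (by norm_num) (Nat.le_add_left j a)
    have h5 := h1 j
    have h6 : 0 ≤ 2 * (1 / 2 : ℝ) ^ (a + j) * w := by positivity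
    linarith
  have ht : Tendsto (fun j : ℕ => 2 * (1 / 2 : ℝ) ^ a * w + 2 * (1 / 2) ^ j) atTop
      (𝓝 (2 * (1 / 2) ^ a * w + 2 * 0)) :=
    ((tendsto_pow_atTop_nhds_zero_of_lt_one (by norm_num) (by norm_num)).const_mul 2).const_add _
  simpa using ge_of_tendsto' ht h2

theorem approx_level (hG : ∀ i, MeasurableSet (G i))
    (hT : ∀ t N (ε : ℝ), 0 < ε → ∃ n, N ≤ n ∧ GoodF ε n G t) (c : ℕ → St) (t N : ℕ) {δ : ℝ}
    (hδ : 0 < δ) : ∃ n K, N ≤ n ∧ 0 < n ∧ Det (n + 1) K ∧ GoodF δ n G t ∧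
      lam.real (symmDiff (Phi G c) K) ≤ δ * (1 / 2) ^ (n + 1) / n ∧
      ∀ i < t, ∀ y m, n < m → |psi m (G i ∩ cy (n + 1) y ∩ Phi G c) -
        psi m (G i ∩ cy (n + 1) y ∩ K)| ≤ δ * (1 / 2) ^ (n + 1) / m := by
  by_cases h : ∀ a, ∃ s, a ≤ s ∧ Legit G s (st G c s) (st G c (s + 1))
  · have h1 : ∀ N, ∃ a, N ≤ (st G c a).1 := by
      intro N
      induction N with
      | zero => exact ⟨0, Nat.zero_le _⟩
      | succ N ih =>
        obtain ⟨a, ha⟩ := ih
        obtain ⟨s, hs, hs'⟩ := h a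
        have : (st G c a).1 ≤ (st G c s).1 := st_mono G c hs
        exact ⟨s + 1, by have := hs'.1; omega⟩
    obtain ⟨a, ha⟩ := h1 N
    obtain ⟨b, hb⟩ := exists_pow_lt_of_lt_one hδ (by norm_num : (1 / 2 : ℝ) < 1)
    obtain ⟨s, hs, hs'⟩ := h (max (max a b) t)
    have h2 : (st G c a).1 ≤ (st G c s).1 := st_mono G c (by omega)
    have h3 := hs'.1
    have h4 : (1 / 2 : ℝ) ^ s ≤ δ :=
      (pow_le_pow_of_le_one (by norm_num) (by norm_num) (by omega)).trans hb.le
    have h5 : 2 * (1 / 2 : ℝ) ^ (s + 1) ≤ δ := by rw [pow_succ]; linarith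
    have h6 : (0 : ℝ) < (st G c (s + 1)).1 := Nat.cast_pos.2 (by omega)
    refine ⟨(st G c (s + 1)).1, KK (st G c (s + 1)), by omega, by omega, det_KK _,
      fun i hi y => (hs'.2.1 i (by omega) y).mono h4, (phi_tail G c (s + 1)).trans ?_,
      fun i hi y m hm => (psi_tail hG c (by omega) le_rfl hm y).trans ?_⟩
    · rw [mul_div_assoc]
      gcongr
      linarith
    · rw [mul_div_assoc]
      gcongr
  · push Not at h
    obtain ⟨a, ha⟩ := h
    have h1 : ∀ j, st G c (a + j) = st G c a := by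
      intro j
      induction j with
      | zero => rfl
      | succ j ih =>
        rw [← ih, ← add_assoc]
        exact (st_cases G c (a + j)).resolve_left (ha _ (Nat.le_add_right a j))
    have h2 : Phi G c = KK (st G c a) := by
      ext z
      constructor
      · intro h
        obtain ⟨t, ht, h⟩ := h a
        obtain ⟨j, rfl⟩ := Nat.exists_eq_add_of_le ht
        exact h1 j ▸ h
      · exact fun h b => ⟨a + b, Nat.le_add_left b a, (h1 b).symm ▸ h⟩
    obtain ⟨n, hn, hn'⟩ := hT t (max (max N 1) (st G c a).1) δ hδ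
    refine ⟨n, Phi G c, by omega, by omega, h2 ▸ (det_KK _).mono (by omega), hn', ?_,
      fun i _ y m _ => ?_⟩
    · rw [symmDiff_self]
      simp only [bot_eq_empty, measureReal_empty]
      positivity
    · rw [sub_self, abs_zero]
      positivity

theorem ext_good (hG : ∀ i, MeasurableSet (G i))
    (hT : ∀ t N (ε : ℝ), 0 < ε → ∃ n, N ≤ n ∧ GoodF ε n G t) (c : ℕ → St) (t N : ℕ) {ε : ℝ}
    (hε : 0 < ε) : ∃ n, N ≤ n ∧ ∀ i < t, ∀ j < t, ∀ y,
      GoodR ε n y ((G i ∩ Phi G c) ∪ (G j \ Phi G c)) := by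
  obtain ⟨n, K, h1, -, h2, h3, h4, h5⟩ := approx_level hG hT c t N (δ := ε / 3) (by positivity)
  refine ⟨n, h1, fun i hi j hj y => ?_⟩
  have hP := meas_Phi G c
  have hU := meas_cy (n + 1) y
  obtain ⟨k, hk, hA⟩ : ∃ k < t, ((G i ∩ K) ∪ (G j \ K)) ∩ cy (n + 1) y = G k ∩ cy (n + 1) y := by
    by_cases hy : y ∈ K
    · refine ⟨i, hi, ?_⟩
      ext z
      have := @h2 y hy z
      simp only [mem_inter_iff, mem_union, Set.mem_sdiff]
      tauto
    · refine ⟨j, hj, ?_⟩
      ext z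
      have := @Det.compl _ _ h2 y hy z
      simp only [mem_inter_iff, mem_union, Set.mem_sdiff, mem_compl_iff] at this ⊢
      tauto
  have hmem : ∀ z ∈ cy (n + 1) y, z ∉ symmDiff (Phi G c) K →
      (z ∈ (G i ∩ Phi G c) ∪ (G j \ Phi G c) ↔ z ∈ G k) := by
    intro z hz hz'
    have := Set.ext_iff.1 hA z
    simp only [mem_inter_iff, mem_union, Set.mem_sdiff, mem_symmDiff] at this hz' ⊢
    tauto
  have hval : ∀ m : ℕ, ε * (1 / 2) ^ (n + 1) / m = 3 * (ε / 3 * (1 / 2) ^ (n + 1) / m) := by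
    intro m; ring
  have hpos : ∀ m : ℕ, 0 ≤ ε / 3 * (1 / 2) ^ (n + 1) / m := fun m => by positivity
  refine ⟨(h3 k hk y).1.imp (fun h => ?_) fun h => ?_, fun m hm => ?_⟩
  · have : ((G i ∩ Phi G c) ∪ (G j \ Phi G c)) ∩ cy (n + 1) y ⊆
        (G k ∩ cy (n + 1) y) ∪ symmDiff (Phi G c) K := fun z hz => by
      by_cases h' : z ∈ symmDiff (Phi G c) K
      exacts [Or.inr h', Or.inl ⟨(hmem z hz.2 h').1 hz.1, hz.2⟩]
    have := (measureReal_mono (μ := lam) this).trans (measureReal_union_le _ _)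
    linarith [hval n, hpos n]
  · have : cy (n + 1) y \ ((G i ∩ Phi G c) ∪ (G j \ Phi G c)) ⊆
        (cy (n + 1) y \ G k) ∪ symmDiff (Phi G c) K := fun z hz => by
      by_cases h' : z ∈ symmDiff (Phi G c) K
      exacts [Or.inr h', Or.inl ⟨hz.1, fun h => hz.2 ((hmem z hz.1 h').2 h)⟩]
    have := (measureReal_mono (μ := lam) this).trans (measureReal_union_le _ _)
    linarith [hval n, hpos n]
  · have key : ∀ P : Set Can, MeasurableSet P →
        psi m (((G i ∩ P) ∪ (G j \ P)) ∩ cy (n + 1) y) = psi m (G i ∩ cy (n + 1) y ∩ P) +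
          (psi m (G j ∩ cy (n + 1) y) - psi m (G j ∩ cy (n + 1) y ∩ P)) := by
      intro P hP
      rw [psi_split m _ hP, psi_split m (G j ∩ cy (n + 1) y) hP]
      have e1 : ((G i ∩ P) ∪ (G j \ P)) ∩ cy (n + 1) y ∩ P = G i ∩ cy (n + 1) y ∩ P := by
        ext z
        simp only [mem_inter_iff, mem_union, Set.mem_sdiff]
        tauto
      have e2 : (((G i ∩ P) ∪ (G j \ P)) ∩ cy (n + 1) y) \ P = (G j ∩ cy (n + 1) y) \ P := by
        ext z
        simp only [mem_inter_iff, mem_union, Set.mem_sdiff]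
        tauto
      rw [e1, e2]
      ring
    have h6 := key K h2.meas
    rw [hA] at h6
    have h7 := abs_le.1 ((h3 k hk y).2 m hm)
    have h8 := abs_le.1 (h5 i hi y m hm)
    have h9 := abs_le.1 (h5 j hj y m hm)
    rw [key _ hP, hval, abs_le]
    constructor <;> linarith [h7.1, h7.2, h8.1, h8.2, h9.1, h9.2]

/-- A legitimate move that destroys the level `n` for the intersection with `B`. -/
def Kill (G : ℕ → Set Can) (B : Set Can) (t : ℕ) (s s' : St) (n : ℕ) : Prop :=
  Legit G t s s' ∧ ∃ y m, n < m ∧ m ≤ s'.1 ∧ 3 ≤ m * |psi m (KK s' ∩ B ∩ cy (n + 1) y)|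

theorem kill_not_good {B : Set Can} (hB : MeasurableSet B) {t n : ℕ}
    (h : Kill G B t (st G c t) (c t) n) : ¬ ∀ y, GoodR 1 n y (Phi G c ∩ B) := by
  intro hg
  obtain ⟨h1, y, m, h2, h3, h4⟩ := h
  have e : st G c (t + 1) = c t := by rw [st, if_pos h1]
  have hm : (0 : ℝ) < m := Nat.cast_pos.2 (by omega)
  have h5 := (hg y).2 m h2
  have h6 := phi_tail G c (t + 1)
  rw [e] at h6
  have h7 := abs_psi_sub_le m (((meas_Phi G c).inter hB).inter (meas_cy (n + 1) y))
    (((meas_KK (c t)).inter hB).inter (meas_cy (n + 1) y))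
  have h8 : lam.real (symmDiff (Phi G c ∩ B ∩ cy (n + 1) y) (KK (c t) ∩ B ∩ cy (n + 1) y)) ≤
      1 / m := by
    refine (measureReal_mono ?_).trans (h6.trans ?_)
    · rw [← inter_symmDiff_distrib_right, ← inter_symmDiff_distrib_right]
      exact inter_subset_left.trans inter_subset_left
    · have h9 : 2 * (1 / 2 : ℝ) ^ (t + 1) ≤ 1 := by
        rw [pow_succ]
        linarith [pow_le_one₀ (n := t) (by norm_num : (0 : ℝ) ≤ 1 / 2) (by norm_num)]
      have h10 : (1 / 2 : ℝ) ^ ((c t).1 + 1) / ((c t).1 + 1) ≤ 1 / m := by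
        gcongr
        · exact pow_le_one₀ (by norm_num) (by norm_num)
        · exact_mod_cast Nat.le_succ_of_le h3
      exact (mul_le_mul h9 h10 (by positivity) zero_le_one).trans (one_mul _).le
  have h9 : |psi m (Phi G c ∩ B ∩ cy (n + 1) y)| ≤ 1 / m := by
    refine h5.trans ?_
    gcongr
    rw [one_mul]
    exact pow_le_one₀ (by norm_num) (by norm_num)
  have h10 : |psi m (KK (c t) ∩ B ∩ cy (n + 1) y)| ≤ 2 / m := by
    have := abs_sub_abs_le_abs_sub (psi m (KK (c t) ∩ B ∩ cy (n + 1) y))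
      (psi m (Phi G c ∩ B ∩ cy (n + 1) y))
    rw [abs_sub_comm] at this
    have e2 : (2 : ℝ) / m = 1 / m + 1 / m := by ring
    linarith
  rw [le_div_iff₀ hm] at h10
  linarith

end Pool.Agent.Lib.MP_898cae_lc
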