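import Pool.Agent.Lib.MP_898cae_lc.Inj

/-!
In the model, fewer than continuum many dense open sets have a common point.
-/

open Set Filter MeasureTheory Topology Cardinal
open Pool.Agent.Lib.MP_e0f6ac_lc

namespace Pool.Agent.Lib.MP_898cae_lc

variable {J : Type}

/-- The real read off from the block `k`. -/
def rd (k : J) (x : J × ℕ × ℕ → Bool) : Can := fun n => x (k, 0, n)

theorem meas_rd (k : J) : Measurable (rd k) :=
  measurable_pi_iff.2 fun _ => measurable_pi_apply _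

theorem fresh_res (k : J) {O : Set ((J × ℕ × ℕ → Bool) × Can)} (hO : OpenFam O)
    (hk : ∀ x x' : J × ℕ × ℕ → Bool, (∀ i : J × ℕ × ℕ, i.1 ≠ k → x i = x' i) → sec O x = sec O x') :
    ∀ᶠ x in residual (J × ℕ × ℕ → Bool),
      (∀ N (s : Finset ℕ), (sec O x ∩ cy N (ind s)).Nonempty) → (x, rd k x) ∈ O := by
  classical
  have hD : ∀ x, (∀ N (s : Finset ℕ), (sec O x ∩ cy N (ind s)).Nonempty) ↔
      ∀ N (s : Finset ℕ), ∃ (M : ℕ) (t : Finset ℕ), cy M (ind t) ⊆ sec O x ∧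
        cy M (ind t) ⊆ cy N (ind s) := by
    intro x
    refine forall₂_congr fun N s => ⟨fun ⟨z, hz⟩ => ?_, fun ⟨M, t, h1, h2⟩ =>
      ⟨_, h1 (self_mem_cy _ _), h2 (self_mem_cy _ _)⟩⟩
    obtain ⟨M, hM⟩ := exists_cy_subset ((hO.isOpen x).inter (isClopen_cy N (ind s)).isOpen) hz
    refine ⟨M, tr M z, ?_⟩
    rw [cy_ind_tr]
    exact ⟨hM.trans inter_subset_left, hM.trans inter_subset_right⟩
  simp only [hD]
  have hZ : MeasurableSet {x | (∀ N (s : Finset ℕ), ∃ (M : ℕ) (t : Finset ℕ),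
      cy M (ind t) ⊆ sec O x ∧ cy M (ind t) ⊆ cy N (ind s)) ∧ (x, rd k x) ∉ O} := by
    refine MeasurableSet.inter (measurableSet_setOfPred.2 (Measurable.forall fun N =>
      Measurable.forall fun s => Measurable.exists fun M => Measurable.exists fun t =>
        (measurableSet_setOfPred.1 (hO.meas M (ind t))).and measurable_const)) ?_
    exact (meas_graph hO.measurableSet (meas_rd k)).compl
  obtain ⟨u, hu, hu'⟩ := Cat.meas_bp _ hZ
  rcases u.eq_empty_or_nonempty with rfl | ⟨x0, hx0⟩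
  · filter_upwards [hu'] with x hx h
    by_contra hc
    exact hx.1 ⟨h, hc⟩
  exfalso
  obtain ⟨s0, hs0⟩ := exists_box hu hx0
  obtain ⟨K, hK⟩ : ∃ K, ∀ p ∈ s0, p.2.2 < K := ⟨s0.sup (fun p => p.2.2) + 1, fun p hp =>
    Nat.lt_succ_of_le (Finset.le_sup (f := fun p : J × ℕ × ℕ => p.2.2) hp)⟩
  obtain ⟨⟨M, t⟩, V, hV, ⟨x2, hx2⟩, hVs, hR⟩ := exists_open_of_ae (isOpen_box s0 x0)
    ⟨x0, self_mem_box _ _⟩ (Z := fun j : ℕ × Finset ℕ =>
      {x | cy j.1 (ind j.2) ⊆ sec O x ∧ cy j.1 (ind j.2) ⊆ cy K (rd k x0)})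
    (fun j => (hO.meas _ _).inter (MeasurableSet.const _)) (by
      filter_upwards [hu'] with x hx hx'
      obtain ⟨M, t, h1, h2⟩ := (hx.2 (hs0 hx')).1 K (tr K (rd k x0))
      rw [cy_ind_tr] at h2
      exact ⟨(M, t), h1, h2⟩)
  obtain ⟨s2, hs2⟩ := exists_box hV hx2
  let s3 : Finset (J × ℕ × ℕ) := s2 ∪ {k} ×ˢ {0} ×ˢ Finset.range M
  let w : J × ℕ × ℕ → Bool := fun i =>
    if i.1 = k ∧ i.2.1 = 0 ∧ i.2.2 < M then xor (x2 i) (ind t i.2.2) else false
  have := Cat.baire (X := J × ℕ × ℕ → Bool)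
  obtain ⟨x, hx, h1, h2⟩ := (dense_of_mem_residual (hR.and (cubeFlip_residual w hu'))
    ).inter_open_nonempty _ (isOpen_box s3 x2) ⟨x2, self_mem_box _ _⟩
  have hxV : x ∈ V := hs2 (box_anti Finset.subset_union_left _ hx)
  obtain ⟨h3, h4⟩ := h1 hxV
  have hw : ∀ i, ¬ (i.1 = k ∧ i.2.1 = 0 ∧ i.2.2 < M) → cubeFlip w x i = x i := fun i hi => by
    change xor (x i) (w i) = x i
    simp only [w, if_neg hi, Bool.xor_false]
  have hw' : ∀ n < M, cubeFlip w x (k, 0, n) = ind t n := fun n hn => by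
    have h5 : x (k, 0, n) = x2 (k, 0, n) := hx _ (Finset.mem_union_right _ (by simp [hn]))
    change xor (x _) (w _) = _
    simp [w, h5, hn]
  have hx' : cubeFlip w x ∈ box s0 x0 := by
    rintro ⟨i, a, n⟩ hi
    by_cases h5 : i = k ∧ a = 0 ∧ n < M
    · obtain ⟨rfl, rfl, h5⟩ := h5
      rw [hw' n h5]
      exact h4 (self_mem_cy _ _) n (hK _ hi)
    · exact (hw _ h5).trans (hVs hxV _ hi)
  refine (h2.2 (hs0 hx')).2 ?_
  have h6 : sec O x = sec O (cubeFlip w x) := hk _ _ fun i hi => (hw i fun h => hi h.1).symm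
  have h7 : rd k (cubeFlip w x) ∈ sec O x := h3 hw'
  rwa [h6] at h7

theorem fresh_el (k : J) {O : Set ((J × ℕ × ℕ → Bool) × Can)} (hO : OpenFam O)
    (hk : ∀ x x' : J × ℕ × ℕ → Bool, (∀ i : J × ℕ × ℕ, i.1 ≠ k → x i = x' i) → sec O x = sec O x')
    {U : UF (J × ℕ × ℕ → Bool)} (h : Dns (El U) (om U) (fm U O)) :
    El U (rl U (rd k)) (fm U O) := by
  have hm : ∀ j : ℕ × Finset ℕ, MeasurableSet {x | (sec O x ∩ cy j.1 (ind j.2)).Nonempty} := by
    intro j
    have : {x | (sec O x ∩ cy j.1 (ind j.2)).Nonempty} = ⋃ M, ⋃ t : Finset ℕ,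
        {x | cy M (ind t) ⊆ sec O x} ∩ {_x | cy M (ind t) ⊆ cy j.1 (ind j.2)} := by
      ext x
      simp only [mem_ofPred_eq, mem_iUnion, mem_inter_iff]
      refine ⟨fun ⟨z, hz⟩ => ?_, fun ⟨M, t, h1, h2⟩ =>
        ⟨_, h1 (self_mem_cy _ _), h2 (self_mem_cy _ _)⟩⟩
      obtain ⟨M, hM⟩ := exists_cy_subset ((hO.isOpen x).inter (isClopen_cy _ _).isOpen) hz
      refine ⟨M, tr M z, ?_⟩
      rw [cy_ind_tr]
      exact ⟨hM.trans inter_subset_left, hM.trans inter_subset_right⟩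
    rw [this]
    exact MeasurableSet.iUnion fun M => MeasurableSet.iUnion fun t =>
      (hO.meas _ _).inter (MeasurableSet.const _)
  have key := ae_all (fun U => Dns (El U) (om U) (fm U O))
    (q := fun (j : ℕ × Finset ℕ) x => (sec O x ∩ cy j.1 (ind j.2)).Nonempty) (fun j U h => ?_) h
  · refine (el_fam hO.measurableSet (meas_rd k)).2 ?_
    filter_upwards [key, U.res (fresh_res k hO hk)] with x h1 h2 using h2 fun N s => h1 (N, s)
  · obtain ⟨y, hy, ha⟩ := h _ _ (num_el_om U j.1) (subs_rl U fun _ => ind j.2)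
    obtain ⟨g, hg, rfl⟩ := real_cases (fam_subs hy)
    filter_upwards [(el_fam hO.measurableSet hg).1 hy, (agree_iff measurable_const hg _).1 ha]
      with x h1 h2 using ⟨g x, h1, fun n hn => (h2 n hn).symm⟩

theorem card_meas (h : #J ^ ℵ₀ = #J) (h' : ℵ₀ ≤ #J) :
    #{g : (J × ℕ × ℕ → Bool) → Can // Measurable g} ≤ #J := by
  have h0 : #(J × ℕ × ℕ) = #J := by simp [mul_eq_left h' h' aleph0_ne_zero]
  have h1 : #{S : Set (J × ℕ × ℕ → Bool) | MeasurableSet S} ≤ #J := by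
    rw [MeasurableSpace.pi_eq_generateFrom_projections]
    refine (MeasurableSpace.cardinal_measurableSet_le _).trans ?_
    rw [← h]
    refine power_le_power_right (max_le ?_ (natCast_lt_aleph0.le.trans h'))
    have h2 : {B : Set (J × ℕ × ℕ → Bool) | ∃ (i : J × ℕ × ℕ) (A : Set Bool), MeasurableSet A ∧
        Function.eval i ⁻¹' A = B} ⊆ range fun p : (J × ℕ × ℕ) × Set Bool =>
          (Function.eval p.1 ⁻¹' p.2 : Set (J × ℕ × ℕ → Bool)) := by
      rintro _ ⟨i, A, -, rfl⟩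
      exact ⟨(i, A), rfl⟩
    refine (mk_le_mk_of_subset h2).trans (mk_range_le.trans ?_)
    rw [mk_prod, lift_id, lift_id, h0]
    exact (mul_le_mul_right (mk_le_aleph0.trans h') _).trans (mul_eq_self h').le
  have h2 : Function.Injective fun (g : {g : (J × ℕ × ℕ → Bool) → Can // Measurable g}) (n : ℕ) =>
      (⟨{x | g.1 x n = true}, meas_coord g.2 n⟩ :
        {S : Set (J × ℕ × ℕ → Bool) | MeasurableSet S}) := by
    intro g g' e
    refine Subtype.ext (funext fun x => funext fun n => ?_)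
    have := Set.ext_iff.1 (congrArg Subtype.val (congrFun e n)) x
    simpa using this
  refine (mk_le_of_injective h2).trans ?_
  rw [mk_arrow, lift_id, lift_id, mk_nat, ← h]
  exact power_le_power_right h1

theorem covC_md (h : #J ^ ℵ₀ = #J) (h' : ℵ₀ < #J) (U : UF (J × ℕ × ℕ → Bool)) :
    CovC (El U) (om U) := by
  intro F hF hI
  obtain ⟨Φ, rfl⟩ := mk_surj F
  by_contra hc
  obtain ⟨r, wo, hr⟩ := exists_ord_eq {g : (J × ℕ × ℕ → Bool) → Can // Measurable g}
  have hlt : ∀ i, #{j // r j i} < #J := fun i =>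
    (card_typein_lt i hr).trans_le (card_meas h h'.le)
  obtain ⟨σ, hσ⟩ := exists_rec wo.wf (fun i (f : {j // r j i} → Nm (J × ℕ × ℕ → Bool)) a =>
    ∃ k : J, (∀ j U, Opn (El U) (om U) (cls U (f j)) → Dns (El U) (om U) (cls U (f j)) →
      El U (rl U (rd k)) (cls U (f j))) ∧
      ∀ U, (∃ O, El U O (cls U Φ) ∧ ¬ El U (rl U (rd k)) O) →
        El U (cls U a) (cls U Φ) ∧ ¬ El U (rl U (rd k)) (cls U a)) fun i f => by
    choose O hO hO' using fun j => exists_openFam (f j)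
    choose I hI hI' using fun j => dep_countable (hO j).measurableSet
    obtain ⟨k, hk⟩ : ∃ k : J, k ∉ ⋃ j, Prod.fst '' I j := by
      by_contra hcon
      push Not at hcon
      have h1 : #J ≤ #(⋃ j, Prod.fst '' I j) := by
        rw [eq_univ_of_forall hcon, mk_univ]
      refine absurd (h1.trans (mk_iUnion_le _)) (not_le.2 ?_)
      refine mul_lt_of_lt h'.le (hlt i) (lt_of_le_of_lt (ciSup_le' fun j => ?_) h')
      exact le_aleph0_iff_set_countable.2 ((hI j).image _)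
    obtain ⟨a, ha⟩ := exists_wit fun U O => El U O (cls U Φ) ∧ ¬ El U (rl U (rd k)) O
    refine ⟨a, k, fun j U h1 h2 => ?_, ha⟩
    rw [hO' j U h1] at h2 ⊢
    exact fresh_el k (hO j) (fun x x' e => hI' j x x' fun p hp => e p fun e' =>
      hk (mem_iUnion.2 ⟨j, p, hp, e'⟩)) h2
  choose k hk hk' using hσ
  have key : ∀ i (U : UF (J × ℕ × ℕ → Bool)),
      ¬ (∃ x, Subs (El U) x (om U) ∧ ∀ O, El U O (cls U Φ) → El U x O) →
      El U (cls U (σ i)) (cls U Φ) ∧ ¬ El U (rl U (rd (k i))) (cls U (σ i)) := by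
    intro i U hU
    refine hk' i U ?_
    by_contra hcon
    push Not at hcon
    exact hU ⟨_, subs_rl U _, hcon⟩
  refine hI ((inj_mk wo.wf (trichotomous_of r) (fun g => realN g.1) σ
    (fun U => (∀ O, El U O (cls U Φ) → Opn (El U) (om U) O ∧ Dns (El U) (om U) O) ∧
      ¬ (∃ x, Subs (El U) x (om U) ∧ ∀ O, El U O (cls U Φ) → El U x O))
    (fun U O => El U O (cls U Φ)) (fun i U hU => (key i U hU.2).1) (fun i j U hij hU e => ?_)
    ⟨hF, hc⟩).mono fun z hz => ?_)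
  · obtain ⟨h1, h2⟩ := hU.1 _ (key i U hU.2).1
    exact (key j U hU.2).2 (e ▸ hk j ⟨i, hij⟩ U h1 h2)
  · obtain ⟨g, hg, rfl⟩ := real_cases hz
    exact el_of_v (fun g : {g : (J × ℕ × ℕ → Bool) → Can // Measurable g} => realN g.1) _ ⟨g, hg⟩
      (hold_top U)

end Pool.Agent.Lib.MP_898cae_lc
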