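import Pool.Agent.Lib.MP_898cae_lc.Defs

/-!
The statement that some maximal subalgebra with property (T) has exactly `ℵ₁` members modulo null
sets, while `ℵ₁ < c = cov(M)`, written in the language of set theory.
-/

namespace Pool.Agent.Lib.MP_898cae_lc

variable {M : Type 1} (E : M → M → Prop) (w : M)

/-- `|R| = ℵ₁`: the set `R` is uncountable, and each subset of `R` is countable or as large
as `R`. -/
def Aleph1 (R : M) : Prop :=
  ¬ Inj E (fun A => E A R) (fun n => E n w) ∧
    ∀ X, Subs E X R →
      Inj E (fun A => E A X) (fun n => E n w) ∨ Inj E (fun A => E A R) (fun A => E A X)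

/-- `O` meets every cylinder. -/
def Dns (O : M) : Prop := ∀ N s, E N w → Subs E s w → ∃ y, E y O ∧ Agree E N s y

/-- `cov(M) = c`: fewer than continuum many dense open subsets of the Cantor space have a common
point. -/
def CovC : Prop :=
  ∀ F, (∀ O, E O F → Opn E w O ∧ Dns E w O) →
    ¬ Inj E (fun x => Subs E x w) (fun O => E O F) → ∃ x, Subs E x w ∧ ∀ O, E O F → E x O

/-- Some maximal subalgebra `B` with property (T) has exactly `ℵ₁` members modulo null sets: a
subset `R` of `B` meets every class modulo null sets, `R` is itself a subalgebra with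
property (T) and without nonempty null members, maximal among such subalgebras, and `|R| = ℵ₁`.
Moreover the Cantor space does not inject into `R`, and `cov(M) = c`. -/
def PropCov : Prop :=
  ∃ w B R, Omega E w ∧ MaxT E w B ∧ Subs E R B ∧
    (∀ A, E A B → ∃ A', E A' R ∧ Null E w fun x => ¬ (E x A ↔ E x A')) ∧
    HasT E w R ∧ Pos E w R ∧ (∀ R', HasT E w R' → Pos E w R' → Subs E R R' → Subs E R' R) ∧
    Aleph1 E w R ∧ ¬ Inj E (fun x => Subs E x w) (fun A => E A R) ∧ CovC E w

end Pool.Agent.Lib.MP_898cae_lc
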