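import Pool.Agent.Lib.MP_898cae_lc.Cantor

/-!
Names for measurable families of subsets of the Cantor space; these are exactly the Borel sets of
the two-valued models.
-/

open TopologicalSpace Set Filter MeasureTheory
open Pool.Agent.Lib.MP_e0f6ac_lc

namespace Pool.Agent.Lib.MP_898cae_lc

variable {X : Type} [TopologicalSpace X] [MeasurableSpace X] [Cat X]

/-- The name for the set of reals given by a measurable family. -/
noncomputable def famN (F : Set (X × Can)) : Nm X :=
  Name.mk {g : X → Can // Measurable g} (fun g => realN g.1) fun g => pr {x | (x, g.1 x) ∈ F}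

/-- The set of reals given by a measurable family. -/
noncomputable abbrev fm (U : UF X) (F : Set (X × Can)) : Md U := cls U (famN F)

theorem el_fam {U : UF X} {F : Set (X × Can)} (hF : MeasurableSet F) {g : X → Can}
    (hg : Measurable g) : El U (rl U g) (fm U F) ↔ Ae U fun x => (x, g x) ∈ F := by
  constructor
  · intro h
    have := tr_ae (meas_graph hF hg)
    refine all_mk (fun U z => z = rl U g → Ae U fun x => (x, g x) ∈ F) (fun j U hj e => ?_) h rfl
    filter_upwards [(hold_pr (meas_graph hF j.2) U).1 hj, (rl_eq j.2 hg).1 e] with x h1 h2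
    exact h2 ▸ h1
  · intro h
    exact el_of_v (fun g : {g : X → Can // Measurable g} => realN g.1) _ ⟨g, hg⟩
      ((hold_pr (meas_graph hF hg) U).2 h)

theorem fam_subs {U : UF X} {F : Set (X × Can)} {y : Md U} (h : El U y (fm U F)) :
    Subs (El U) y (om U) :=
  all_mk (fun U y => Subs (El U) y (om U)) (fun _ U _ => subs_rl U _) h

theorem class_eq {U : UF X} {F : Set (X × Can)} (hF : MeasurableSet F) {P : Md U → Prop}
    (h1 : ∀ z, P z → Subs (El U) z (om U))
    (h2 : ∀ g, Measurable g → (P (rl U g) ↔ Ae U fun x => (x, g x) ∈ F)) :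
    P = fun z => El U z (fm U F) := by
  funext z
  apply propext
  constructor
  · intro h
    obtain ⟨g, hg, rfl⟩ := real_cases (h1 z h)
    exact (el_fam hF hg).2 ((h2 g hg).1 h)
  · intro h
    obtain ⟨g, hg, rfl⟩ := real_cases (fam_subs h)
    exact (h2 g hg).2 ((el_fam hF hg).1 h)

theorem fam_ext {U : UF X} {F : Set (X × Can)} (hF : MeasurableSet F) {a : Md U}
    (h1 : ∀ z, El U z a → Subs (El U) z (om U))
    (h2 : ∀ g, Measurable g → (El U (rl U g) a ↔ Ae U fun x => (x, g x) ∈ F)) : a = fm U F :=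
  md_ext fun z => iff_of_eq (congrFun (class_eq hF h1 h2) z)

theorem fam_congr {U : UF X} {F G : Set (X × Can)} (hF : MeasurableSet F) (hG : MeasurableSet G)
    (h : Ae U fun x => sec F x = sec G x) : fm U F = fm U G := by
  refine fam_ext hG (fun _ => fam_subs) fun g hg => ?_
  rw [el_fam hF hg]
  refine eventually_congr (h.mono fun x hx => ?_)
  exact iff_of_eq (congrArg (fun s => g x ∈ s) hx)

/-- The family of cylinders around a measurable function. -/
def cyF (N : ℕ) (g : X → Can) : Set (X × Can) := {p | p.2 ∈ cy N (g p.1)}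

omit [TopologicalSpace X] [Cat X] in
theorem openFam_cyF {g : X → Can} (hg : Measurable g) (N : ℕ) :
    OpenFam (cyF N g) ∧ OpenFam (cyF N g)ᶜ := by
  have h1 : cyF N g = ⋃ s : Finset ℕ, {x | tr N (g x) = s} ×ˢ cy N (ind s) := by
    ext ⟨x, z⟩
    simp [cyF, cy_ind_tr]
  have h2 : (cyF N g)ᶜ = ⋃ s : Finset ℕ, {x | tr N (g x) = s} ×ˢ (cy N (ind s))ᶜ := by
    ext ⟨x, z⟩
    simp [cyF, cy_ind_tr]
  constructor
  · rw [h1]
    exact OpenFam.iUnion fun s => OpenFam.prod (meas_tr hg N s) (isClopen_cy _ _).isOpen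
  · rw [h2]
    exact OpenFam.iUnion fun s => OpenFam.prod (meas_tr hg N s) (isClopen_cy _ _).compl.isOpen

theorem cyl_iff {U : UF X} {O : Set (X × Can)} (hO : OpenFam O) {g : X → Can} (hg : Measurable g)
    (N : ℕ) : Cyl (El U) (om U) (num U N) (rl U g) (fm U O) ↔
      Ae U fun x => cy N (g x) ⊆ sec O x := by
  constructor
  · intro h
    obtain ⟨f, hf, hf'⟩ := (hO.union (openFam_cyF hg N).2).select
    by_contra hc
    have h1 : Ae U fun x => f x ∈ cy N (g x) ∧ (x, f x) ∉ O := by
      filter_upwards [Ultrafilter.eventually_not.2 hc] with x hx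
      obtain ⟨z, hz, hz'⟩ := not_subset.1 hx
      have := hf' x ⟨z, fun h => h.elim hz' fun h => h hz⟩
      rw [mem_union, not_or] at this
      exact ⟨not_not.1 this.2, this.1⟩
    have h2 := h (rl U f) (subs_rl U f)
      ((agree_iff hg hf N).2 (h1.mono fun x hx k hk => (hx.1 k hk).symm))
    obtain ⟨x, h3, h4⟩ := (h1.and ((el_fam hO.measurableSet hf).1 h2)).exists
    exact h3.2 h4
  · intro h y hy ha
    obtain ⟨f, hf, rfl⟩ := real_cases hy
    refine (el_fam hO.measurableSet hf).2 ?_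
    filter_upwards [h, (agree_iff hg hf N).1 ha] with x h1 h2
    exact h1 fun k hk => (h2 k hk).symm

theorem opn_fam (U : UF X) {O : Set (X × Can)} (hO : OpenFam O) :
    Opn (El U) (om U) (fm U O) := by
  intro y hy
  refine ⟨fam_subs hy, ?_⟩
  obtain ⟨g, hg, rfl⟩ := real_cases (fam_subs hy)
  refine (ex_om_iff (fun U N => Cyl (El U) (om U) N (rl U g) (fm U O))
    (fun N U => cyl_iff hO hg N) U).2 ?_
  filter_upwards [(el_fam hO.measurableSet hg).1 hy] with x hx
  exact exists_cy_subset (hO.isOpen x) hx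

omit [MeasurableSpace X] [Cat X] in
theorem ae_tr (U : UF X) (g : X → Can) (N : ℕ) : ∃ s, Ae U fun x => tr N (g x) = s := by
  have h : Ae U fun x => ∃ s : (Finset.range N).powerset, tr N (g x) = s :=
    Eventually.of_forall fun x => ⟨⟨_, tr_pow N (g x)⟩, rfl⟩
  obtain ⟨s, hs⟩ := Ultrafilter.eventually_exists_iff.1 h
  exact ⟨s, hs⟩

theorem exists_openFam (σ : Nm X) : ∃ O, OpenFam O ∧
    ∀ U, Opn (El U) (om U) (cls U σ) → cls U σ = fm U O := by
  choose W hW hW' using fun (N : ℕ) (s : Finset ℕ) =>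
    Tr.rep fun U => Cyl (El U) (om U) (num U N) (rl U fun _ => ind s) (cls U σ)
  have hO : OpenFam (⋃ N, ⋃ s, W N s ×ˢ cy N (ind s)) :=
    OpenFam.iUnion fun N => OpenFam.iUnion fun s => OpenFam.prod (hW N s) (isClopen_cy _ _).isOpen
  refine ⟨_, hO, fun U hU => fam_ext hO.measurableSet (fun z hz => (hU z hz).1) fun g hg => ?_⟩
  constructor
  · intro h
    obtain ⟨N, hN, hc⟩ := (hU _ h).2
    have := tr_ae (meas_graph hO.measurableSet hg)
    refine all_om (fun U N => Cyl (El U) (om U) N (rl U g) (cls U σ) →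
      Ae U fun x => (x, g x) ∈ ⋃ N, ⋃ s, W N s ×ˢ cy N (ind s)) (fun N U hc => ?_) hN hc
    obtain ⟨s, hs⟩ := ae_tr U g N
    have h1 : Ae U fun x => g x ∈ cy N (ind s) := hs.mono fun x hx => by
      rw [← hx, cy_ind_tr]; exact self_mem_cy _ _
    have h2 := (agree_iff hg measurable_const N).2 h1
    have h3 : W N s ∈ U.1 :=
      (hW' N s U).1 fun y hy ha => hc y hy fun k hk => (h2 k hk).trans (ha k hk)
    filter_upwards [h1, h3] with x h4 h5
    exact mem_iUnion.2 ⟨N, mem_iUnion.2 ⟨s, h5, h4⟩⟩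
  · intro h
    refine ae_ex (fun U => El U (rl U g) (cls U σ))
      (q := fun (i : ℕ × Finset ℕ) x => x ∈ W i.1 i.2 ∧ g x ∈ cy i.1 (ind i.2))
      (fun i U hi => ?_) (h.mono fun x hx => ?_)
    · refine (hW' i.1 i.2 U).2 (hi.mono fun x hx => hx.1) _ (subs_rl U g) ?_
      exact (agree_iff measurable_const hg _).2 (hi.mono fun x hx k hk => (hx.2 k hk).symm)
    · simp only [mem_iUnion, mem_prod] at hx
      obtain ⟨N, s, hx⟩ := hx
      exact ⟨(N, s), hx⟩

theorem cmp_iff {U : UF X} {F : Set (X × Can)} (hF : MeasurableSet F) {C : Md U} :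
    Cmp (El U) (om U) (fm U F) C ↔ C = fm U Fᶜ := by
  have key : (fun z => Subs (El U) z (om U) ∧ ¬ El U z (fm U F)) = fun z => El U z (fm U Fᶜ) := by
    refine class_eq hF.compl (fun z hz => hz.1) fun g hg => ?_
    rw [el_fam hF hg, and_iff_right (subs_rl U g)]
    exact Ultrafilter.eventually_not.symm
  constructor
  · exact fun h => md_ext fun z => (h z).trans (iff_of_eq (congrFun key z))
  · rintro rfl z
    exact (iff_of_eq (congrFun key z)).symm

theorem union_iff {U : UF X} {F G : Set (X × Can)} (hF : MeasurableSet F) (hG : MeasurableSet G)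
    (z : Md U) : El U z (fm U (F ∪ G)) ↔ El U z (fm U F) ∨ El U z (fm U G) := by
  have key : (fun z => El U z (fm U F) ∨ El U z (fm U G)) = fun z => El U z (fm U (F ∪ G)) := by
    refine class_eq (hF.union hG) (fun z hz => hz.elim fam_subs fam_subs) fun g hg => ?_
    rw [el_fam hF hg, el_fam hG hg]
    exact Ultrafilter.eventually_or.symm
  exact (iff_of_eq (congrFun key z)).symm

theorem fn_seq (U : UF X) (C : ℕ → Nm X) : Fn (El U) (cls U (funN numN C)) :=
  fn_funN (fun _ _ _ h => by rw [num_inj.1 h]) U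

theorem borel_fam {F : Set (X × Can)} (hF : MeasurableSet F) :
    ∀ U : UF X, Borel (El U) (om U) (fm U F) := by
  refine fam_induction (P := fun F => ∀ U : UF X, Borel (El U) (om U) (fm U F))
    (fun F h _ U S hS => hS.1 _ (opn_fam U h)) (fun F hF h U S hS => ?_)
    (fun F hF h U S hS => ?_) hF
  · obtain ⟨C, hC, hC'⟩ := hS.2.1 _ (h U S hS)
    exact (cmp_iff hF).1 hC' ▸ hC
  · obtain ⟨σ, rfl⟩ := mk_surj S
    obtain ⟨B, hB, hB'⟩ := hS.2.2 _ (fn_seq U fun n => famN (F n)) fun n A _ hA =>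
      all_app (fun U _ A => SigmaAlg (El U) (om U) (cls U σ) → El U A (cls U σ))
        (fun k U hS => h k U _ hS) hA hS
    have hm := MeasurableSet.iUnion hF
    have : B = fm U (⋃ n, F n) := by
      refine md_ext fun z => (hB' z).trans ⟨?_, fun hz => ?_⟩
      · rintro ⟨n, A, -, hA, hz⟩
        refine all_app (fun U _ A => ∀ z, El U z A → El U z (fm U (⋃ n, F n)))
          (fun k U z hz => ?_) hA z hz
        obtain ⟨g, hg, rfl⟩ := real_cases (fam_subs hz)
        exact (el_fam hm hg).2 (((el_fam (hF k) hg).1 hz).mono fun x hx => mem_iUnion.2 ⟨k, hx⟩)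
      · obtain ⟨g, hg, rfl⟩ := real_cases (fam_subs hz)
        refine ae_ex (fun U => ∃ n A, El U n (om U) ∧
          App (El U) (cls U (funN numN fun n => famN (F n))) n A ∧ El U (rl U g) A)
          (q := fun k x => (x, g x) ∈ F k) (fun k U hk => ?_)
          (((el_fam hm hg).1 hz).mono fun x hx => mem_iUnion.1 hx)
        exact ⟨_, _, num_el_om U k, app_funN U numN (fun n => famN (F n)) k,
          (el_fam (hF k) hg).2 hk⟩
    exact this ▸ hB

/-- The name for the set of all measurable families. -/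
noncomputable def allN : Nm X :=
  Name.mk {F : Set (X × Can) // MeasurableSet F} (fun F => famN F.1) fun _ => ⊤

omit [Cat X] in
theorem fam_el_all (U : UF X) {F : Set (X × Can)} (hF : MeasurableSet F) :
    El U (fm U F) (cls U allN) :=
  el_of_v (fun F : {F : Set (X × Can) // MeasurableSet F} => famN F.1) _ ⟨F, hF⟩ (hold_top U)

theorem mix_fam (σ : Nm X) : ∃ F, MeasurableSet F ∧
    ∀ U, El U (cls U σ) (cls U allN) → cls U σ = fm U F := by
  have : Nonempty {F : Set (X × Can) // MeasurableSet F} := ⟨⟨∅, MeasurableSet.empty⟩⟩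
  obtain ⟨s, hs⟩ := exists_seq fun F : {F : Set (X × Can) // MeasurableSet F} =>
    Name.eqv σ (famN F.1)
  choose S hS hS' using fun n => Tr.rep fun U => cls U σ = fm U (s n).1
  have hm : MeasurableSet (⋃ n, (disjointed S n ×ˢ univ) ∩ (s n).1) :=
    MeasurableSet.iUnion fun n =>
      ((MeasurableSet.disjointed hS n).prod MeasurableSet.univ).inter (s n).2
  refine ⟨_, hm, fun U hU => ?_⟩
  have h1 : hold U (⨆ n, Name.eqv σ (famN (s n).1)) := by
    refine hold_mono ?_ (el_mk.1 hU)
    rw [allN, Name.mem_mk]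
    exact iSup_le fun F => inf_le_right.trans (hs F)
  have h2 : (⋃ n, S n) ∈ U.1 := by
    have := Tr.meas (MeasurableSet.iUnion hS)
    refine count_union (fun U => (⋃ n, S n) ∈ U.1) (fun n U hn => ?_) ((hold_iSup_iff _).1 h1)
    exact mem_of_superset ((hS' n U).1 (mk_eq.2 hn)) (subset_iUnion S n)
  rw [← iUnion_disjointed] at h2
  refine count_union (fun U => cls U σ = fm U (⋃ n, (disjointed S n ×ˢ univ) ∩ (s n).1))
    (fun n U hn => ?_) h2
  rw [(hS' n U).2 (mem_of_superset hn (disjointed_subset S n))]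
  refine fam_congr (s n).2 hm ?_
  filter_upwards [hn] with x hx
  ext z
  simp only [sec, mem_preimage, mem_iUnion, mem_inter_iff, mem_prod, mem_univ, and_true]
  refine ⟨fun h => ⟨n, hx, h⟩, fun ⟨m, h1, h2⟩ => ?_⟩
  obtain rfl : m = n := by
    by_contra hne
    exact disjoint_left.1 (disjoint_disjointed S hne) h1 hx
  exact h2

theorem sigma_all (U : UF X) : SigmaAlg (El U) (om U) (cls U allN) := by
  refine ⟨fun O hO => ?_, fun A hA => ?_, fun f hf h => ?_⟩
  · obtain ⟨σ, rfl⟩ := mk_surj O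
    obtain ⟨O, h1, h2⟩ := exists_openFam σ
    rw [h2 U hO]
    exact fam_el_all U h1.measurableSet
  · exact all_mk (fun U A => ∃ C, El U C (cls U allN) ∧ Cmp (El U) (om U) A C)
      (fun F U _ => ⟨_, fam_el_all U F.2.compl, (cmp_iff F.2).2 rfl⟩) hA
  · obtain ⟨φ, rfl⟩ := mk_surj f
    choose a ha using fun k => exists_wit fun U A => App (El U) (cls U φ) (num U k) A
    choose F hF hF' using fun k => mix_fam (a k)
    choose S hS hS' using fun k => Tr.rep fun U => ∃ A, App (El U) (cls U φ) (num U k) A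
    have hm : MeasurableSet (⋃ k, (S k ×ˢ univ) ∩ F k) :=
      MeasurableSet.iUnion fun k => ((hS k).prod MeasurableSet.univ).inter (hF k)
    refine ⟨_, fam_el_all U hm, fun z => ⟨fun hz => ?_, ?_⟩⟩
    · obtain ⟨g, hg, rfl⟩ := real_cases (fam_subs hz)
      refine ae_ex (fun U => (∀ n A, El U n (om U) → App (El U) (cls U φ) n A →
          El U A (cls U allN)) → ∃ n A, El U n (om U) ∧ App (El U) (cls U φ) n A ∧
            El U (rl U g) A) (q := fun k x => x ∈ S k ∧ (x, g x) ∈ F k) (fun k U hk h => ?_)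
        (((el_fam hm hg).1 hz).mono fun x hx => ?_) h
      · have h1 := ha k U ((hS' k U).2 (hk.mono fun x hx => hx.1))
        refine ⟨_, _, num_el_om U k, h1, ?_⟩
        rw [hF' k U (h _ _ (num_el_om U k) h1)]
        exact (el_fam (hF k) hg).2 (hk.mono fun x hx => hx.2)
      · obtain ⟨k, hk⟩ := mem_iUnion.1 hx
        exact ⟨k, hk.1.1, hk.2⟩
    · rintro ⟨n, A, hn, hA, hz⟩
      refine all_om (fun U n => Fn (El U) (cls U φ) → (∀ n A, El U n (om U) →
          App (El U) (cls U φ) n A → El U A (cls U allN)) → ∀ A z, App (El U) (cls U φ) n A →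
          El U z A → El U z (fm U (⋃ k, (S k ×ˢ univ) ∩ F k)))
        (fun k U hf h A z hA hz => ?_) hn hf h A z hA hz
      have h1 := ha k U ⟨A, hA⟩
      rw [hf _ _ _ hA h1, hF' k U (h _ _ (num_el_om U k) h1)] at hz
      obtain ⟨g, hg, rfl⟩ := real_cases (fam_subs hz)
      refine (el_fam hm hg).2 ?_
      filter_upwards [(el_fam (hF k) hg).1 hz, (hS' k U).1 ⟨A, hA⟩] with x h2 h3
      exact mem_iUnion.2 ⟨k, ⟨h3, mem_univ _⟩, h2⟩

theorem exists_fam (σ : Nm X) : ∃ F, MeasurableSet F ∧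
    ∀ U, Borel (El U) (om U) (cls U σ) → cls U σ = fm U F := by
  obtain ⟨F, hF, h⟩ := mix_fam σ
  exact ⟨F, hF, fun U hU => h U (hU _ (sigma_all U))⟩

theorem exists_clopen (σ : Nm X) : ∃ F, MeasurableSet F ∧
    ∀ U, Clop (El U) (om U) (cls U σ) → cls U σ = fm U F ∧ Ae U fun x => IsClopen (sec F x) := by
  obtain ⟨O, hO, h⟩ := exists_openFam σ
  refine ⟨O, hO.measurableSet, fun U hU => ⟨h U hU.1, ?_⟩⟩
  obtain ⟨C, hC, hC'⟩ := hU.2
  obtain ⟨τ, rfl⟩ := mk_surj C
  obtain ⟨O', hO', h'⟩ := exists_openFam τ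
  rw [h U hU.1, h' U hC', cmp_iff hO.measurableSet] at hC
  have key : ∀ g, Measurable g → Ae U fun x => ((x, g x) ∈ O' ↔ (x, g x) ∉ O) := by
    intro g hg
    have h1 := el_fam (U := U) hO'.measurableSet hg
    rw [hC, el_fam hO.measurableSet.compl hg] at h1
    by_cases h2 : Ae U fun x => (x, g x) ∈ O'
    · filter_upwards [h2, h1.2 h2] with x h3 h4 using iff_of_true h3 h4
    · filter_upwards [Ultrafilter.eventually_not.2 h2,
        Ultrafilter.eventually_not.2 fun h => h2 (h1.1 h)] with x h3 h4 using iff_of_false h3 h4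
  obtain ⟨g, hg, hg'⟩ := (hO.union hO').select
  have h1 : Ae U fun x => ∀ z, (x, z) ∈ O ∪ O' := by
    filter_upwards [key g hg] with x hx
    by_contra hc
    have := hg' x (not_forall.1 hc)
    rw [mem_union, not_or] at this
    exact this.2 (hx.2 this.1)
  classical
  let T : ℕ × Finset ℕ → Set X := fun i => {x | cy i.1 (ind i.2) ⊆ sec (O ∩ O') x}
  have hT : ∀ i, MeasurableSet (T i) := fun i => (hO.inter hO').meas _ _
  obtain ⟨e, he⟩ := exists_surjective_nat (ℕ × Finset ℕ)
  have hex : ∀ x, ∃ n, x ∈ T (e n) ∨ ∀ m, x ∉ T (e m) := by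
    intro x
    by_cases hx : ∃ n, x ∈ T (e n)
    · exact hx.imp fun _ h => Or.inl h
    · exact ⟨0, Or.inr (not_exists.1 hx)⟩
  have hf : Measurable fun x => ind (e (Nat.find (hex x))).2 := by
    refine (measurable_from_top (f := fun n => ind (e n).2)).comp (measurable_find hex fun n => ?_)
    refine (hT _).union ?_
    have : {x | ∀ m, x ∉ T (e m)} = ⋂ m, (T (e m))ᶜ := by ext; simp
    change MeasurableSet {x | ∀ m, x ∉ T (e m)}
    rw [this]
    exact MeasurableSet.iInter fun m => (hT _).compl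
  have h2 : Ae U fun x => ∀ z, (x, z) ∉ O ∩ O' := by
    filter_upwards [key _ hf] with x hx z hz
    obtain ⟨N, hN⟩ := exists_cy_subset ((hO.inter hO').isOpen x) hz
    obtain ⟨n, hn⟩ := he (N, tr N z)
    rcases Nat.find_spec (hex x) with h3 | h3
    · have h4 := h3 (self_mem_cy _ _)
      exact hx.1 h4.2 h4.1
    · refine h3 n ?_
      rw [hn]
      change cy N (ind (tr N z)) ⊆ _
      rwa [cy_ind_tr]
  filter_upwards [h1, h2] with x h3 h4
  refine ⟨⟨?_⟩, hO.isOpen x⟩
  convert hO'.isOpen x using 1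
  ext z
  exact ⟨fun h => (h3 z).resolve_left h, fun h h' => h4 z ⟨h', h⟩⟩

theorem clop_fam (U : UF X) {K : Set Can} (hK : IsClopen K) :
    Clop (El U) (om U) (fm U (univ ×ˢ K)) := by
  have h1 := OpenFam.prod (X := X) MeasurableSet.univ hK.isOpen
  refine ⟨opn_fam U h1, _, (cmp_iff h1.measurableSet).2 rfl, opn_fam U ?_⟩
  convert OpenFam.prod (X := X) MeasurableSet.univ hK.compl.isOpen using 1
  ext; simp

end Pool.Agent.Lib.MP_898cae_lc
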