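import Pool.Agent.Lib.MP_898cae_lc.Space

/-!
The algebra generated by `ω₁` generic limit sets.
-/

open Set Filter MeasureTheory Topology

namespace Pool.Agent.Lib.MP_898cae_lc

section Meas

variable {X : Type} [MeasurableSpace X]

theorem forall_cy {N : ℕ} (P : Set Can → Prop) :
    (∀ y, P (cy N y)) ↔ ∀ s : Finset ℕ, P (cy N (ind s)) :=
  ⟨fun h _ => h _, fun h y => cy_ind_tr N y ▸ h (tr N y)⟩

theorem meas_real_inter {F : Set (X × Can)} (hF : MeasurableSet F) {K : Set Can}
    (hK : MeasurableSet K) : Measurable fun x => lam.real (sec F x ∩ K) :=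
  meas_real_sec (hF.inter (measurable_snd hK))

theorem meas_psi {F : Set (X × Can)} (hF : MeasurableSet F) {K : Set Can}
    (hK : MeasurableSet K) (m : ℕ) : Measurable fun x => psi m (sec F x ∩ K) := by
  simp only [psi, inter_assoc]
  exact (meas_real_inter hF (hK.inter (meas_coord' _ _))).sub
    (meas_real_inter hF (hK.inter (meas_coord' _ _)))

theorem meas_le {f g : X → ℝ} (hf : Measurable f) (hg : Measurable g) :
    Measurable fun x => f x ≤ g x := measurableSet_setOfPred.1 (measurableSet_le hf hg)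

theorem meas_goodR {F : Set (X × Can)} (hF : MeasurableSet F) (ε : ℝ) (n : ℕ) :
    Measurable fun x => ∀ y, GoodR ε n y (sec F x) := by
  have e : ∀ x, (∀ y, GoodR ε n y (sec F x)) ↔ ∀ s, GoodR ε n (ind s) (sec F x) := fun x =>
    forall_cy (N := n + 1) fun K => (lam.real (sec F x ∩ K) ≤ ε * (1 / 2) ^ (n + 1) / n ∨
      lam.real (K \ sec F x) ≤ ε * (1 / 2) ^ (n + 1) / n) ∧
      ∀ m, n < m → |psi m (sec F x ∩ K)| ≤ ε * (1 / 2) ^ (n + 1) / m
  simp only [e]
  refine Measurable.forall fun s => Measurable.and (Measurable.or ?_ ?_)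
    (Measurable.forall fun m => measurable_const.imp ?_)
  · exact meas_le (meas_real_inter hF (meas_cy _ _)) measurable_const
  · simp only [sdiff_eq, inter_comm (cy _ _)]
    exact meas_le (meas_real_inter hF.compl (meas_cy _ _)) measurable_const
  · exact meas_le (meas_psi hF (meas_cy _ _) m).abs measurable_const

theorem meas_legit {F : ℕ → Set (X × Can)} (hF : ∀ i, MeasurableSet (F i)) (t : ℕ) (s s' : St) :
    Measurable fun x => Legit (fun i => sec (F i) x) t s s' := by
  refine measurable_const.and (Measurable.and ?_ (measurable_const.and ?_))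
  · exact Measurable.forall fun i => measurable_const.imp (meas_goodR (hF i) _ _)
  · refine Measurable.forall fun i => measurable_const.imp (Measurable.forall fun n =>
      measurable_const.imp ?_)
    have e : ∀ x, (∀ y m, n < m → |psi m (sec (F i) x ∩ cy (n + 1) y ∩ KK s') -
        psi m (sec (F i) x ∩ cy (n + 1) y ∩ KK s)| ≤ (1 / 2) ^ t * ((1 / 2) ^ (s.1 + 1) / m)) ↔
        ∀ r : Finset ℕ, ∀ m, n < m → |psi m (sec (F i) x ∩ cy (n + 1) (ind r) ∩ KK s') -
        psi m (sec (F i) x ∩ cy (n + 1) (ind r) ∩ KK s)| ≤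
          (1 / 2) ^ t * ((1 / 2) ^ (s.1 + 1) / m) := fun x =>
      forall_cy (N := n + 1) fun K => ∀ m, n < m → |psi m (sec (F i) x ∩ K ∩ KK s') -
        psi m (sec (F i) x ∩ K ∩ KK s)| ≤ (1 / 2) ^ t * ((1 / 2) ^ (s.1 + 1) / m)
    simp only [e]
    refine Measurable.forall fun r => Measurable.forall fun m => measurable_const.imp ?_
    simp only [inter_assoc]
    exact meas_le ((meas_psi (hF i) ((meas_cy _ _).inter (meas_KK _)) m).sub
      (meas_psi (hF i) ((meas_cy _ _).inter (meas_KK _)) m)).abs measurable_const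

theorem meas_kill {F : ℕ → Set (X × Can)} (hF : ∀ i, MeasurableSet (F i)) {B : Set (X × Can)}
    (hB : MeasurableSet B) (t : ℕ) (s s' : St) (n : ℕ) :
    Measurable fun x => Kill (fun i => sec (F i) x) (sec B x) t s s' n := by
  refine (meas_legit hF t s s').and ?_
  have e : ∀ x, (∃ y m, n < m ∧ m ≤ s'.1 ∧ 3 ≤ m * |psi m (KK s' ∩ sec B x ∩ cy (n + 1) y)|) ↔
      ∃ (r : Finset ℕ) (m : ℕ), n < m ∧ m ≤ s'.1 ∧
        3 ≤ m * |psi m (sec B x ∩ (KK s' ∩ cy (n + 1) (ind r)))| := by
    intro x
    have e' : ∀ K, sec B x ∩ (KK s' ∩ K) = KK s' ∩ sec B x ∩ K := fun K => by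
      rw [← inter_assoc, inter_comm (sec B x)]
    simp only [e']
    exact ⟨fun ⟨y, h⟩ => ⟨tr (n + 1) y, by rwa [cy_ind_tr]⟩, fun ⟨r, h⟩ => ⟨_, h⟩⟩
  simp only [e]
  refine Measurable.exists fun r => Measurable.exists fun m =>
    measurable_const.and (measurable_const.and ?_)
  exact meas_le measurable_const
    ((meas_psi hB ((meas_KK _).inter (meas_cy _ _)) m).abs.const_mul _)

theorem meas_st {F : ℕ → Set (X × Can)} (hF : ∀ i, MeasurableSet (F i)) {c : X → ℕ → St}
    (hc : ∀ t s, MeasurableSet {x | c x t = s}) (t : ℕ) :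
    ∀ s, MeasurableSet {x | st (fun i => sec (F i) x) (c x) t = s} := by
  classical
  induction t with
  | zero => exact fun s => MeasurableSet.const (((0, ∅) : St) = s)
  | succ t ih =>
    intro s
    simp only [st]
    refine meas_comp ih (p := fun r x =>
      (if Legit (fun i => sec (F i) x) t r (c x t) then c x t else r) = s) fun r => ?_
    refine meas_comp (hc t) (p := fun r' x =>
      (if Legit (fun i => sec (F i) x) t r r' then r' else r) = s) fun r' => ?_
    have : {x | (if Legit (fun i => sec (F i) x) t r r' then r' else r) = s} =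
        {x | (Legit (fun i => sec (F i) x) t r r' ∧ r' = s) ∨
          (¬ Legit (fun i => sec (F i) x) t r r' ∧ r = s)} := by
      ext x
      by_cases hx : Legit (fun i => sec (F i) x) t r r' <;> simp [hx]
    rw [this]
    exact measurableSet_setOfPred.2 (((meas_legit hF t r r').and measurable_const).or
      ((meas_legit hF t r r').not.and measurable_const))

theorem meas_Phi_fam {F : ℕ → Set (X × Can)} (hF : ∀ i, MeasurableSet (F i)) {c : X → ℕ → St}
    (hc : ∀ t s, MeasurableSet {x | c x t = s}) :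
    MeasurableSet {p : X × Can | p.2 ∈ Phi (fun i => sec (F i) p.1) (c p.1)} := by
  refine measurableSet_setOfPred.2 (Measurable.forall fun a => Measurable.exists fun t =>
    measurable_const.and (measurableSet_setOfPred.1 ?_))
  exact meas_comp (f := fun p : X × Can => st (fun i => sec (F i) p.1) (c p.1) t)
    (fun s => measurable_fst (meas_st hF hc t s)) (p := fun s p => p.2 ∈ KK s)
    fun s => measurable_snd (meas_KK s)

end Meas

theorem st_congr (G : ℕ → Set Can) {c c' : ℕ → St} {T : ℕ} (h : ∀ t < T, c t = c' t) :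
    st G c T = st G c' T := by
  induction T with
  | zero => rfl
  | succ T ih => rw [st, st, ih fun t ht => h t (by omega), h T (by omega)]

theorem det_good {n : ℕ} {K : Set Can} (h : Det (n + 1) K) {ε : ℝ} (hε : 0 ≤ ε) (y : Can) :
    GoodR ε n y K := by
  have hp : ∀ m : ℕ, 0 ≤ ε * (1 / 2) ^ (n + 1) / m := fun m => by positivity
  by_cases hy : y ∈ K
  · refine ⟨Or.inr ?_, fun m hm => ?_⟩
    · rw [sdiff_eq_empty.2 (h y hy), measureReal_empty]
      exact hp n
    · rw [inter_eq_right.2 (h y hy), psi_cy hm, abs_zero]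
      exact hp m
  · have : K ∩ cy (n + 1) y = ∅ := eq_empty_of_forall_notMem fun z hz => h.compl y hy hz.2 hz.1
    refine ⟨Or.inl ?_, fun m hm => ?_⟩
    · rw [this, measureReal_empty]
      exact hp n
    · rw [this, psi_empty, abs_zero]
      exact hp m

/-- Boolean terms in the coordinate sets and the generators. -/
inductive Tm (W : Type) : Type
  | cyl (k : ℕ) : Tm W
  | gen (a : W) : Tm W
  | nor (t t' : Tm W) : Tm W

variable {W : Type}

/-- The value of a term. -/
def Tm.ev (A : W → Set Can) : Tm W → Set Can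
  | .cyl k => {z | z k = true}
  | .gen a => A a
  | .nor t t' => (t.ev A ∪ t'.ev A)ᶜ

/-- The complement term. -/
def Tm.neg (t : Tm W) : Tm W := t.nor t

/-- The union term. -/
def Tm.un (t t' : Tm W) : Tm W := (t.nor t').neg

theorem Tm.ev_neg (A : W → Set Can) (t : Tm W) : t.neg.ev A = (t.ev A)ᶜ := by
  simp [Tm.neg, Tm.ev]

theorem Tm.ev_un (A : W → Set Can) (t t' : Tm W) : (t.un t').ev A = t.ev A ∪ t'.ev A := by
  rw [Tm.un, Tm.ev_neg, Tm.ev, compl_compl]

/-- A code for a term. -/
def Tm.enc (f : W → ℕ) : Tm W → ℕ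
  | .cyl k => Nat.pair 0 k
  | .gen a => Nat.pair 1 (f a)
  | .nor t t' => Nat.pair 2 (Nat.pair (t.enc f) (t'.enc f))

variable [LinearOrder W]

/-- The generators occurring in a term. -/
def Tm.gens : Tm W → Finset W
  | .cyl _ => ∅
  | .gen a => {a}
  | .nor t t' => t.gens ∪ t'.gens

theorem Tm.ev_congr {A A' : W → Set Can} (t : Tm W) (h : ∀ b ∈ t.gens, A b = A' b) :
    t.ev A = t.ev A' := by
  induction t with
  | cyl k => rfl
  | gen a => exact h a (Finset.mem_singleton_self a)
  | nor t t' ih ih' =>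
    rw [Tm.ev, Tm.ev, ih fun b hb => h b (Finset.mem_union_left _ hb),
      ih' fun b hb => h b (Finset.mem_union_right _ hb)]

theorem Tm.clopen (A : W → Set Can) (t : Tm W) (h : t.gens = ∅) : IsClopen (t.ev A) := by
  induction t with
  | cyl k => exact isClopen_coord k true
  | gen a => exact absurd h (Finset.singleton_ne_empty a)
  | nor t t' ih ih' =>
    rw [Tm.gens, Finset.union_eq_empty] at h
    exact ((ih h.1).union (ih' h.2)).compl

/-- The terms using only generators below `a`. -/
def Below (a : W) : Set (Tm W) := {t | ∀ b ∈ t.gens, b < a}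

theorem Below.nor {a : W} {t t' : Tm W} (h : t ∈ Below a) (h' : t' ∈ Below a) :
    t.nor t' ∈ Below a := fun b hb => (Finset.mem_union.1 hb).elim (h b) (h' b)

theorem Below.cyl (a : W) (k : ℕ) : Tm.cyl k ∈ Below a :=
  fun b hb => absurd hb (Finset.notMem_empty b)

theorem countable_below {a : W} (h : (Iio a).Countable) : (Below a).Countable := by
  obtain ⟨f, hf⟩ := Set.countable_iff_exists_injOn.1 h
  refine Set.countable_iff_exists_injOn.2 ⟨Tm.enc f, fun t ht => ?_⟩
  induction t with
  | cyl k => intro t' _ e; cases t' <;> simp_all [Tm.enc]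
  | gen b =>
    intro t' ht' e
    cases t' with
    | gen b' =>
      simp only [Tm.enc, Nat.pair_eq_pair, true_and] at e
      rw [hf (ht b (Finset.mem_singleton_self b)) (ht' b' (Finset.mem_singleton_self b')) e]
    | _ => simp [Tm.enc] at e
  | nor u v ih ih' =>
    intro t' ht' e
    cases t' with
    | nor u' v' =>
      simp only [Tm.enc, Nat.pair_eq_pair, true_and] at e
      rw [ih (fun b hb => ht b (Finset.mem_union_left _ hb))
        (fun b hb => ht' b (Finset.mem_union_left _ hb)) e.1,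
        ih' (fun b hb => ht b (Finset.mem_union_right _ hb))
        (fun b hb => ht' b (Finset.mem_union_right _ hb)) e.2]
    | _ => simp [Tm.enc] at e

theorem normal_form (A : W → Set Can) {b : W} (t : Tm W) (h : ∀ c ∈ t.gens, c ≤ b) :
    ∃ u ∈ Below b, ∃ v ∈ Below b, t.ev A = (u.ev A ∩ A b) ∪ (v.ev A \ A b) := by
  induction t with
  | cyl k => exact ⟨_, Below.cyl b k, _, Below.cyl b k, (inter_union_sdiff _ _).symm⟩
  | gen a =>
    rcases (h a (Finset.mem_singleton_self a)).lt_or_eq with h1 | rfl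
    · have : Tm.gen a ∈ Below b := fun c hc => Finset.mem_singleton.1 hc ▸ h1
      exact ⟨_, this, _, this, (inter_union_sdiff _ _).symm⟩
    · have h0 := Below.nor (Below.cyl a 0) (Below.nor (Below.cyl a 0) (Below.cyl a 0))
      refine ⟨_, Below.nor h0 h0, _, h0, ?_⟩
      simp [Tm.ev]
  | nor t t' ih ih' =>
    obtain ⟨u, hu, v, hv, e⟩ := ih fun c hc => h c (Finset.mem_union_left _ hc)
    obtain ⟨u', hu', v', hv', e'⟩ := ih' fun c hc => h c (Finset.mem_union_right _ hc)
    refine ⟨_, Below.nor hu hu', _, Below.nor hv hv', ?_⟩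
    simp only [Tm.ev, e, e']
    ext z
    simp only [mem_compl_iff, mem_union, mem_inter_iff, Set.mem_sdiff]
    tauto

omit [LinearOrder W] in
theorem exists_term {K : Set Can} (hK : IsClopen K) :
    ∃ t : Tm W, ∀ A' : W → Set Can, t.ev A' = K := by
  have h0 : ∀ N y, ∃ t : Tm W, ∀ A' : W → Set Can, t.ev A' = cy N y := by
    intro N y
    induction N with
    | zero =>
      refine ⟨(Tm.cyl 0).un (Tm.cyl 0).neg, fun A' => ?_⟩
      rw [Tm.ev_un, Tm.ev_neg, union_compl_self]
      ext z; simp [cy]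
    | succ N ih =>
      obtain ⟨t, ht⟩ := ih
      refine ⟨t.neg.nor (if y N then (Tm.cyl N).neg else Tm.cyl N), fun A' => ?_⟩
      rw [Tm.ev, Tm.ev_neg, ht]
      ext z
      have : z ∈ cy (N + 1) y ↔ z ∈ cy N y ∧ z N = y N := Nat.forall_lt_succ_right
      rw [this]
      cases hy : y N <;> simp [Tm.ev_neg, Tm.ev]
  obtain ⟨N, hN⟩ := clopen_det hK
  obtain ⟨D, rfl⟩ := exists_KK (l := N) (hN.mono (Nat.le_succ N))
  have h1 : ∀ D : Finset (Finset ℕ), ∃ t : Tm W, ∀ A' : W → Set Can, t.ev A' = KK (N, D) := by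
    intro D
    induction D using Finset.induction_on with
    | empty =>
      refine ⟨(Tm.cyl 0).nor (Tm.cyl 0).neg, fun A' => ?_⟩
      rw [Tm.ev, Tm.ev_neg, union_compl_self]
      ext z; simp [KK]
    | insert s D _ ih =>
      obtain ⟨t, ht⟩ := ih
      by_cases hs : s ∈ (Finset.range (N + 1)).powerset
      · obtain ⟨u, hu⟩ := h0 (N + 1) (ind s)
        refine ⟨u.un t, fun A' => ?_⟩
        rw [Tm.ev_un, ht, hu]
        ext z
        simp only [mem_union, mem_cy_ind hs, KK, mem_ofPred_eq, Finset.mem_insert]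
      · refine ⟨t, fun A' => ?_⟩
        rw [ht]
        ext z
        simp only [KK, mem_ofPred_eq, Finset.mem_insert]
        exact ⟨Or.inr, fun h => h.resolve_left fun e => hs (e ▸ tr_pow _ _)⟩
  exact h1 D

end Pool.Agent.Lib.MP_898cae_lc
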