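import Pool.Agent.Lib.MP_898cae_lc.Gen

/-!
The generic generators, property (T) for the algebra they generate, and the genericity argument.
-/

open Set Filter MeasureTheory Topology

namespace Pool.Agent.Lib.MP_898cae_lc

/-- An enumeration of the states. -/
noncomputable def dec : ℕ → St := (exists_surjective_nat St).choose

theorem dec_surj : Function.Surjective dec := (exists_surjective_nat St).choose_spec

/-- The moves read off from a block of coordinates. -/
noncomputable def cc {ι : Type} (j : ι) (x : ι × ℕ × ℕ → Bool) (t : ℕ) : St :=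
  dec (sInf {k | x (j, t, k) = true})

theorem sInf_eq_iff' (S : Set ℕ) (n : ℕ) :
    sInf S = n ↔ (n ∈ S ∧ ∀ k < n, k ∉ S) ∨ (n = 0 ∧ ∀ k, k ∉ S) := by
  constructor
  · rintro rfl
    rcases S.eq_empty_or_nonempty with rfl | h
    · exact Or.inr ⟨Nat.sInf_empty, fun _ h => h⟩
    · exact Or.inl ⟨Nat.sInf_mem h, fun k hk => Nat.notMem_of_lt_sInf hk⟩
  · rintro (⟨h1, h2⟩ | ⟨rfl, h⟩)
    · exact le_antisymm (Nat.sInf_le h1) (not_lt.1 fun h => h2 _ h (Nat.sInf_mem ⟨n, h1⟩))
    · rw [eq_empty_of_forall_notMem h, Nat.sInf_empty]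

theorem meas_cc {ι : Type} (j : ι) (t : ℕ) (s : St) :
    MeasurableSet {x : ι × ℕ × ℕ → Bool | cc j x t = s} := by
  refine meas_comp (f := fun x : ι × ℕ × ℕ → Bool => sInf {k | x (j, t, k) = true}) (fun n => ?_)
    (p := fun n _ => dec n = s) fun n => MeasurableSet.const _
  have h : ∀ k, Measurable fun x : ι × ℕ × ℕ → Bool => x (j, t, k) = true := fun k =>
    measurableSet_setOfPred.1
      (measurable_pi_apply (X := fun _ => Bool) (j, t, k) (measurableSet_singleton true))
  simp only [sInf_eq_iff', mem_ofPred_eq]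
  exact measurableSet_setOfPred.2 (((h n).and (Measurable.forall fun k =>
    measurable_const.imp (h k).not)).or (measurable_const.and (Measurable.forall fun k => (h k).not)))

theorem cc_congr {ι : Type} {j : ι} {x x' : ι × ℕ × ℕ → Bool} {t K : ℕ} (h : x (j, t, K) = true)
    (h' : ∀ k ≤ K, x' (j, t, k) = x (j, t, k)) : cc j x' t = cc j x t := by
  have hne : {k | x (j, t, k) = true}.Nonempty := ⟨K, h⟩
  have hle : sInf {k | x (j, t, k) = true} ≤ K := Nat.sInf_le h
  unfold cc
  congr 1
  refine (sInf_eq_iff' _ _).2 (Or.inl ⟨?_, fun k hk => ?_⟩)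
  · exact (h' _ hle).trans (Nat.sInf_mem hne)
  · exact fun hk' => Nat.notMem_of_lt_sInf hk ((h' k (hk.le.trans hle)).symm.trans hk')

theorem cc_eq {ι : Type} {j : ι} {x : ι × ℕ × ℕ → Bool} {t n : ℕ}
    (h : ∀ k ≤ n, x (j, t, k) = decide (k = n)) : cc j x t = dec n := by
  unfold cc
  congr 1
  refine (sInf_eq_iff' _ _).2 (Or.inl ⟨?_, fun k hk => ?_⟩)
  · simpa using h n le_rfl
  · simpa [hk.ne] using h k hk.le

/-- Changing `P` on a null set so that no new nonempty null sets appear. -/
def lift (G : ℕ → Set Can) (P : Set Can) : Set Can :=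
  (P ∪ ⋃ i, {z | lam (G i \ P) = 0 ∧ z ∈ G i}) \ ⋃ i, {z | lam (G i ∩ P) = 0 ∧ z ∈ G i}

theorem lift_ae (G : ℕ → Set Can) (P : Set Can) : lift G P =ᵐ[lam] P := by
  have key : ∀ H : ℕ → Set Can, lam (⋃ i, {z | lam (H i) = 0 ∧ z ∈ H i}) = 0 := fun H =>
    measure_iUnion_null fun i => by
      by_cases h : lam (H i) = 0 <;> simp [h]
  refine ae_eq_set.2 ⟨measure_mono_null ?_ (key fun i => G i \ P),
    measure_mono_null ?_ (key fun i => G i ∩ P)⟩
  · rintro z ⟨⟨h1, -⟩, h2⟩
    obtain ⟨i, hi⟩ := mem_iUnion.1 (h1.resolve_left h2)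
    exact mem_iUnion.2 ⟨i, hi.1, hi.2, h2⟩
  · rintro z ⟨h1, h2⟩
    obtain ⟨i, hi⟩ := mem_iUnion.1 (not_not.1 fun h => h2 ⟨Or.inl h1, h⟩)
    exact mem_iUnion.2 ⟨i, hi.1, hi.2, h1⟩

theorem lift_pos {G : ℕ → Set Can} (P : Set Can)
    (hG : ∀ i j, lam (G i ∩ G j) = 0 → G i ∩ G j = ∅) {i j : ℕ}
    (h : lam ((G i ∩ lift G P) ∪ (G j \ lift G P)) = 0) :
    (G i ∩ lift G P) ∪ (G j \ lift G P) = ∅ := by
  rw [measure_union_null_iff, measure_congr (EventuallyEq.rfl.inter (lift_ae G P)),
    measure_congr (EventuallyEq.rfl.diff (lift_ae G P))] at h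
  refine eq_empty_of_forall_notMem fun z hz => hz.elim
    (fun h1 => h1.2.2 (mem_iUnion.2 ⟨i, h.1, h1.1⟩)) fun h1 => h1.2 ⟨Or.inr
      (mem_iUnion.2 ⟨j, h.2, h1.1⟩), fun h2 => ?_⟩
  obtain ⟨k, hk, hz⟩ := mem_iUnion.1 h2
  have h3 : G j ∩ G k ⊆ (G j \ P) ∪ (G k ∩ P) := fun y hy => by
    by_cases hP : y ∈ P
    exacts [Or.inr ⟨hy.2, hP⟩, Or.inl ⟨hy.1, hP⟩]
  exact (hG j k (measure_mono_null h3 (measure_union_null h.2 hk))).le ⟨h1.1, hz⟩

theorem meas_lift {X : Type} [MeasurableSpace X] {F : ℕ → Set (X × Can)}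
    (hF : ∀ i, MeasurableSet (F i)) {P : Set (X × Can)} (hP : MeasurableSet P) :
    MeasurableSet {p : X × Can | p.2 ∈ lift (fun i => sec (F i) p.1) (sec P p.1)} := by
  have key : ∀ H : ℕ → Set (X × Can), (∀ i, MeasurableSet (H i)) →
      MeasurableSet (⋃ i, {p : X × Can | lam (sec (H i) p.1) = 0} ∩ F i) := fun H hH =>
    MeasurableSet.iUnion fun i =>
      (measurable_fst (meas_lam_sec (hH i) (measurableSet_singleton 0))).inter (hF i)
  convert (hP.union (key _ fun i => (hF i).diff hP)).diff (key _ fun i => (hF i).inter hP) using 1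
  ext p
  simp only [lift, mem_ofPred_eq, Set.mem_sdiff, mem_union, mem_iUnion, mem_inter_iff]
  rfl

variable {W : Type}

/-- The index set of the blocks of coordinates. -/
abbrev Jx (W : Type) : Type := Set (Tm W × ℕ)

/-- The space of the forcing. -/
abbrev XX (W : Type) : Type := Jx W × ℕ × ℕ → Bool

/-- The block used for the generator `a`. -/
def emb (a : W) : Jx W := {(Tm.gen a, 0)}

theorem emb_inj : Function.Injective (emb : W → Jx W) := by
  intro a b h
  simpa [emb] using h

variable [LinearOrder W] [WellFoundedLT W] (en : W → ℕ → Tm W)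

/-- The generators. -/
noncomputable def Agen : W → XX W → Set Can :=
  WellFoundedLT.fix fun a r x =>
    (fun G => lift G (Phi G (cc (emb a) x)))
      fun i => (en a i).ev fun b => if h : b < a then r b h x else ∅

/-- The value of a term at a point. -/
noncomputable def val (t : Tm W) (x : XX W) : Set Can := t.ev fun b => Agen en b x

/-- The family given by a term. -/
def FT (t : Tm W) : Set (XX W × Can) := {p | p.2 ∈ val en t p.1}

variable {en} (hen : ∀ a, range (en a) = Below a)
include hen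

omit [WellFoundedLT W] in
theorem en_below (a : W) (i : ℕ) : en a i ∈ Below a := hen a ▸ mem_range_self i

theorem Agen_eq (a : W) (x : XX W) :
    Agen en a x = lift (fun i => val en (en a i) x)
      (Phi (fun i => val en (en a i) x) (cc (emb a) x)) := by
  rw [Agen, WellFoundedLT.fix_eq]
  refine congrArg (fun G => lift G (Phi G (cc (emb a) x))) ?_
  funext i
  exact Tm.ev_congr _ fun b hb => dif_pos (en_below hen a i b hb)

omit hen in
theorem meas_FT_of (t : Tm W) (h : ∀ b ∈ t.gens, MeasurableSet (FT en (Tm.gen b))) :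
    MeasurableSet (FT en t) := by
  induction t with
  | cyl k => exact measurable_snd (meas_coord' k true)
  | gen a => exact h a (Finset.mem_singleton_self a)
  | nor t t' ih ih' =>
    exact ((ih fun b hb => h b (Finset.mem_union_left _ hb)).union
      (ih' fun b hb => h b (Finset.mem_union_right _ hb))).compl

theorem meas_FT (t : Tm W) : MeasurableSet (FT en t) := by
  refine meas_FT_of t fun a ha => ?_
  clear ha
  induction a using WellFoundedLT.induction with
  | ind a ih =>
    have h0 := fun i => meas_FT_of (en := en) _ fun b hb => ih b (en_below hen a i b hb)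
    have := meas_lift h0
      (meas_Phi_fam (F := fun i => FT en (en a i)) (c := cc (emb a)) h0 (meas_cc (emb a)))
    convert this using 1
    ext p
    change p.2 ∈ Agen en a p.1 ↔ _
    rw [Agen_eq hen]
    rfl

theorem meas_val (t : Tm W) (x : XX W) : MeasurableSet (val en t x) := meas_sec (meas_FT hen t) x

theorem Agen_congr {x x' : XX W} (a : W) :
    (∀ b ≤ a, ∀ t k, x (emb b, t, k) = x' (emb b, t, k)) → Agen en a x = Agen en a x' := by
  induction a using WellFoundedLT.induction with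
  | ind a ih =>
    intro h
    have e1 : (fun i => val en (en a i) x) = fun i => val en (en a i) x' := by
      funext i
      refine Tm.ev_congr _ fun b hb => ?_
      have hb' := en_below hen a i b hb
      exact ih b hb' fun c hc => h c (hc.trans hb'.le)
    have e2 : cc (emb a) x = cc (emb a) x' := by
      funext t
      simp only [cc, h a le_rfl]
    rw [Agen_eq hen, Agen_eq hen, e1, e2]

theorem val_congr {x x' : XX W} {a : W} (h : ∀ i : Jx W × ℕ × ℕ, i.1 ≠ emb a → x i = x' i)
    {t : Tm W} (ht : t ∈ Below a) : val en t x = val en t x' :=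
  Tm.ev_congr _ fun b hb => Agen_congr hen b fun _ hc _ _ =>
    h _ fun e => (hc.trans_lt (ht b hb)).ne (emb_inj e)

theorem val_good (x : XX W) (f : ℕ → Tm W) (t N : ℕ) {ε : ℝ} (hε : 0 < ε) :
    ∃ n, N ≤ n ∧ GoodF ε n (fun i => val en (f i) x) t := by
  have key : ∀ P : W → Prop, (∀ b, P b → ∀ (f : ℕ → Tm W) t N (ε : ℝ), 0 < ε →
      (∀ i < t, ∀ c ∈ (f i).gens, c ≤ b) → ∃ n, N ≤ n ∧ GoodF ε n (fun i => val en (f i) x) t) →
      ∀ (f : ℕ → Tm W) t N (ε : ℝ), 0 < ε → (∀ i < t, ∀ c ∈ (f i).gens, P c) →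
        ∃ n, N ≤ n ∧ GoodF ε n (fun i => val en (f i) x) t := by
    intro P hP f t N ε hε hf
    rcases ((Finset.range t).biUnion fun i => (f i).gens).eq_empty_or_nonempty with h | h
    · have h1 : ∀ i, ∃ M, i < t → Det M (val en (f i) x) := by
        intro i
        by_cases hi : i < t
        · refine (clopen_det (Tm.clopen _ _ (Finset.eq_empty_of_forall_notMem fun c hc => ?_))).imp
            fun _ h _ => h
          exact Finset.notMem_empty c (h ▸ Finset.mem_biUnion.2 ⟨i, Finset.mem_range.2 hi, hc⟩)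
        · exact ⟨0, fun h => absurd h hi⟩
      choose M hM using h1
      refine ⟨max N ((Finset.range t).sup M), le_max_left _ _, fun i hi y => det_good
        ((hM i hi).mono ?_) hε.le y⟩
      have := Finset.le_sup (f := M) (Finset.mem_range.2 hi)
      omega
    · obtain ⟨i, hi, hc⟩ := Finset.mem_biUnion.1 (Finset.max'_mem _ h)
      exact hP _ (hf i (Finset.mem_range.1 hi) _ hc) f t N ε hε fun j hj c hc =>
        Finset.le_max' _ _ (Finset.mem_biUnion.2 ⟨j, Finset.mem_range.2 hj, hc⟩)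
  refine key (fun _ => True) (fun b _ => ?_) f t N ε hε fun _ _ _ _ => trivial
  induction b using WellFoundedLT.induction with
  | ind b ih =>
    intro f t N ε hε hf
    have h1 : ∀ i, ∃ u v, i < t → val en (f i) x =
        (val en (en b u) x ∩ Agen en b x) ∪ (val en (en b v) x \ Agen en b x) := by
      intro i
      by_cases hi : i < t
      · obtain ⟨u, hu, v, hv, e⟩ := normal_form (fun b => Agen en b x) (f i) (hf i hi)
        rw [← hen] at hu hv
        obtain ⟨u, rfl⟩ := hu
        obtain ⟨v, rfl⟩ := hv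
        exact ⟨u, v, fun _ => e⟩
      · exact ⟨0, 0, fun h => absurd h hi⟩
    choose u v huv using h1
    obtain ⟨n, hn, h⟩ := ext_good (G := fun i => val en (en b i) x) (fun i => meas_val hen _ x)
      (fun t N ε hε => key (· < b) (fun c hc => ih c hc) (en b) t N ε hε
        fun i _ => en_below hen b i) (cc (emb b) x)
      ((Finset.range t).sup u + (Finset.range t).sup v + 1) N hε
    refine ⟨n, hn, fun i hi y => ?_⟩
    have h2 := Finset.le_sup (f := u) (Finset.mem_range.2 hi)
    have h3 := Finset.le_sup (f := v) (Finset.mem_range.2 hi)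
    simp only
    rw [huv i hi, Agen_eq hen]
    exact (h _ (by omega) _ (by omega) y).congr ((EventuallyEq.rfl.inter (lift_ae _ _).symm).union
      (EventuallyEq.rfl.diff (lift_ae _ _).symm))

theorem val_pos (x : XX W) (t : Tm W) (h : lam (val en t x) = 0) : val en t x = ∅ := by
  have key : ∀ t : Tm W, (∀ c ∈ t.gens, ∀ u ∈ Below c, lam (val en u x) = 0 → val en u x = ∅) →
      lam (val en t x) = 0 → val en t x = ∅ := by
    intro t ih h
    rcases t.gens.eq_empty_or_nonempty with h1 | h1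
    · refine eq_empty_of_forall_notMem fun z hz => ?_
      obtain ⟨N, hN⟩ := exists_cy_subset (Tm.clopen _ t h1).isOpen hz
      have := measure_mono_null hN h
      rw [lam_cy] at this
      simp at this
    · obtain ⟨u, hu, v, hv, e⟩ := normal_form (b := t.gens.max' h1) (fun b => Agen en b x) t
        fun c hc => t.gens.le_max' c hc
      rw [← hen] at hu hv
      obtain ⟨u, rfl⟩ := hu
      obtain ⟨v, rfl⟩ := hv
      rw [val, e, Agen_eq hen] at h ⊢
      refine lift_pos (G := fun i => val en (en (t.gens.max' h1) i) x) _ (fun i j h => ?_) h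
      have h2 := en_below hen (t.gens.max' h1) i
      have h3 := en_below hen (t.gens.max' h1) j
      have h4 := ih _ (t.gens.max'_mem h1) _ (Below.nor (Below.nor h2 h2) (Below.nor h3 h3))
      simp only [val, Tm.ev, union_self, compl_union, compl_compl] at h4
      exact h4 h
  refine key t (fun c hc => ?_) h
  clear hc
  induction c using WellFoundedLT.induction with
  | ind c ih => exact fun u hu => key u fun d hd => ih d (hu d hd)

theorem generic_kill (a : W) {F : Set (XX W × Can)} (hF : MeasurableSet F)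
    (hFa : ∀ x x' : XX W, (∀ i : Jx W × ℕ × ℕ, i.1 ≠ emb a → x i = x' i) → sec F x = sec F x')
    {V : Set (XX W)} (hV : IsOpen V) (hne : V.Nonempty)
    (h : ∀ᶠ x in residual (XX W), x ∈ V → (∀ i, ¬ sec F x =ᵐ[lam] val en (en a i) x) ∧
      (∀ t N (ε : ℝ), 0 < ε → ∃ l, N ≤ l ∧ GoodF ε l (fun i => val en (en a i) x) t ∧
        ∀ y, GoodR ε l y (sec F x)) ∧
      ∃ n, ∀ y, GoodR 1 n y (Agen en a x ∩ sec F x)) : False := by
  classical
  obtain ⟨n, V1, hV1, ⟨x0, hx0⟩, hV1V, hR1⟩ := exists_open_of_ae hV hne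
    (Z := fun n => {x | ∀ y, GoodR 1 n y (sec (FT en (Tm.gen a) ∩ F) x)})
    (fun n => (meas_goodR ((meas_FT hen _).inter hF) 1 n).setOf) (h.mono fun x hx h => (hx h).2.2)
  obtain ⟨s, hs⟩ := exists_box hV1 hx0
  obtain ⟨T, hT⟩ : ∃ T, ∀ p ∈ s, p.2.1 < T := ⟨s.sup (fun p => p.2.1) + 1, fun p hp =>
    Nat.lt_succ_of_le (Finset.le_sup (f := fun p : Jx W × ℕ × ℕ => p.2.1) hp)⟩
  obtain ⟨K, hK⟩ : ∃ K, ∀ p ∈ s, p.2.2 < K := ⟨s.sup (fun p => p.2.2) + 1, fun p hp =>
    Nat.lt_succ_of_le (Finset.le_sup (f := fun p : Jx W × ℕ × ℕ => p.2.2) hp)⟩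
  let x1 : XX W := fun i => if i.2.2 = K then true else x0 i
  let s1 : Finset (Jx W × ℕ × ℕ) := s ∪ {emb a} ×ˢ Finset.range T ×ˢ Finset.range (K + 1)
  have hs1 : box s1 x1 ⊆ V1 := fun x hx => hs fun i hi =>
    (hx i (Finset.mem_union_left _ hi)).trans (if_neg (hK i hi).ne)
  have hs1T : ∀ p ∈ s1, p.2.1 < T := by
    intro p hp
    rcases Finset.mem_union.1 hp with hp | hp
    · exact hT p hp
    · exact Finset.mem_range.1 (Finset.mem_product.1 (Finset.mem_product.1 hp).2).1
  have hcc : ∀ x ∈ box s1 x1, ∀ t < T, cc (emb a) x t = cc (emb a) x1 t := fun x hx t ht =>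
    cc_congr (K := K) (if_pos rfl) fun k hk => hx _ (Finset.mem_union_right _ (by
      simp [ht, Nat.lt_succ_of_le hk]))
  obtain ⟨j, V2, hV2, ⟨x2, hx2⟩, hV21, hR2⟩ := exists_open_of_ae (isOpen_box s1 x1)
    ⟨x1, self_mem_box _ _⟩ (Z := fun j => {x | Kill (fun i => val en (en a i) x) (sec F x) T
      (st (fun i => val en (en a i) x) (cc (emb a) x1) T) (dec j) n})
    (fun j => meas_comp (meas_st (F := fun i => FT en (en a i)) (c := fun _ => cc (emb a) x1)
      (fun i => meas_FT hen _) (fun _ _ => MeasurableSet.const _) T)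
      (p := fun r x => Kill (fun i => val en (en a i) x) (sec F x) T r (dec j) n) fun r =>
      (meas_kill (F := fun i => FT en (en a i)) (fun i => meas_FT hen _) hF T r (dec j) n).setOf)
    (h.mono fun x hx hx1 => by
      obtain ⟨h1, h2, -⟩ := hx (hV1V (hs1 hx1))
      obtain ⟨Y, ⟨u, -, rfl⟩, y0, h3, h4, h5, h6⟩ := exists_split
        (G := fun i => val en (en a i) x) (B := sec F x) (𝒢 := (fun t => val en t x) '' Below a)
        (by rintro _ ⟨t, ht, rfl⟩; exact ⟨t.neg, Below.nor ht ht, Tm.ev_neg _ _⟩)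
        (by
          rintro _ ⟨t, ht, rfl⟩ _ ⟨t', ht', rfl⟩
          exact ⟨t.un t', Below.nor (Below.nor ht ht') (Below.nor ht ht'), Tm.ev_un _ _ _⟩)
        (fun i => ⟨_, en_below hen a i, rfl⟩) (fun k => ⟨Tm.cyl k, Below.cyl a k, rfl⟩)
        (by
          rintro _ ⟨t, ht, rfl⟩
          rw [← hen] at ht
          obtain ⟨i, rfl⟩ := ht
          exact h1 i) T
        (max (st (fun i => val en (en a i) x) (cc (emb a) x1) T).1 n + 1)
      obtain ⟨s', hs'⟩ := exists_kill (fun i => meas_val hen _ x) (meas_sec hF x) T _ n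
        (meas_val hen u x) h3 h4 h5 h6 (h2 T)
      obtain ⟨j, rfl⟩ := dec_surj s'
      exact ⟨j, hs'⟩)
  obtain ⟨s2, hs2⟩ := exists_box hV2 hx2
  let s3 : Finset (Jx W × ℕ × ℕ) := s2 ∪ {emb a} ×ˢ {T} ×ˢ Finset.range (j + 1)
  let w : XX W := fun i => if i.1 = emb a ∧ i.2.1 = T then xor (x2 i) (decide (i.2.2 = j)) else false
  have := Cat.baire (X := XX W)
  obtain ⟨x, hx, h1, h2⟩ := (dense_of_mem_residual (hR2.and (cubeFlip_residual w hR1))
    ).inter_open_nonempty _ (isOpen_box s3 x2) ⟨x2, self_mem_box _ _⟩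
  have hxV : x ∈ V2 := hs2 (box_anti Finset.subset_union_left _ hx)
  have hw : ∀ i, ¬ (i.1 = emb a ∧ i.2.1 = T) → cubeFlip w x i = x i := fun i hi => by
    change xor (x i) (w i) = x i
    simp only [w, if_neg hi, Bool.xor_false]
  have hx' : cubeFlip w x ∈ box s1 x1 := fun i hi =>
    (hw i fun h => (hs1T i hi).ne h.2).trans (hV21 hxV i hi)
  have hinv : ∀ i : Jx W × ℕ × ℕ, i.1 ≠ emb a → x i = cubeFlip w x i :=
    fun i hi => (hw i fun h => hi h.1).symm
  have h3 := h1 hxV
  have e1 : (fun i => val en (en a i) x) = fun i => val en (en a i) (cubeFlip w x) :=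
    funext fun i => val_congr hen hinv (en_below hen a i)
  have e2 : cc (emb a) (cubeFlip w x) T = dec j := cc_eq fun k hk => by
    have h4 : x (emb a, T, k) = x2 (emb a, T, k) := hx _ (Finset.mem_union_right _ (by
      simp [Nat.lt_succ_of_le hk]))
    change xor (x _) (w _) = _
    simp [w, h4]
  rw [mem_ofPred_eq, e1, hFa _ _ hinv, ← st_congr _ (hcc _ hx'), ← e2] at h3
  refine kill_not_good (meas_sec hF _) h3 fun y => (h2 (hs1 hx') y).congr ?_
  change (Agen en a _ ∩ sec F _ : Set Can) =ᵐ[lam] _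
  rw [Agen_eq hen]
  exact (lift_ae _ _).inter EventuallyEq.rfl

end Pool.Agent.Lib.MP_898cae_lc
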