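import Pool.Agent.Lib.MP_898cae_lc.Main
import Pool.Agent.Lib.MP_898cae_lc.DefsCov

/-!
Injections in the two-valued models built by recursion on names.
-/

open Set Filter MeasureTheory Topology
open Pool.Agent.Lib.MP_e0f6ac_lc

namespace Pool.Agent.Lib.MP_898cae_lc

theorem exists_rec {ι : Type} {α : Type*} {r : ι → ι → Prop} (hwf : WellFounded r)
    (R : (i : ι) → ({j // r j i} → α) → α → Prop) (h : ∀ i f, ∃ a, R i f a) :
    ∃ σ : ι → α, ∀ i, R i (fun j => σ j) (σ i) := by
  choose F hF using h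
  refine ⟨hwf.fix fun i q => F i fun j => q j j.2, fun i => ?_⟩
  rw [hwf.fix_eq]
  exact hF i _

theorem Inj.mono {M : Type 1} {E : M → M → Prop} {P P' Q : M → Prop} (h : Inj E P Q)
    (hP : ∀ z, P' z → P z) : Inj E P' Q := by
  obtain ⟨f, h1, h2, h3⟩ := h
  exact ⟨f, h1, fun a ha => h2 a (hP a ha), h3⟩

variable {X : Type} [TopologicalSpace X] [MeasurableSpace X] [Cat X]

instance tr_Dns (w a : Nm X) : Tr fun U => Dns (El U) (cls U w) (cls U a) := by
  unfold Dns; infer_instance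

theorem all_appv {ι : Type} {A C : ι → Nm X} {v : ι → RO X} (P : (U : UF X) → Md U → Md U → Prop)
    [hP : ∀ σ τ, Tr fun U => P U (cls U σ) (cls U τ)]
    (h : ∀ i U, hold U (v i) → P U (cls U (A i)) (cls U (C i))) {U : UF X} {x y : Md U}
    (hy : App (El U) (cls U (Name.mk ι (fun i => prN (A i) (C i)) v)) x y) : P U x y := by
  obtain ⟨z, hz, hp⟩ := hy
  refine all_mk (fun U z => ∀ x y, Pair (El U) z x y → P U x y) (fun i U hi x y hp => ?_) hz x y hp
  obtain ⟨rfl, rfl⟩ := pair_inj hp (pair_prN U _ _)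
  exact h i U hi

theorem inj_mk {ι : Type} {r : ι → ι → Prop} (hwf : WellFounded r)
    (htri : ∀ i j, r i j ∨ i = j ∨ r j i) (A σ : ι → Nm X) (H : UF X → Prop) [Tr H]
    (Q : (U : UF X) → Md U → Prop) [∀ τ, Tr fun U => Q U (cls U τ)]
    (hQ : ∀ i U, H U → Q U (cls U (σ i)))
    (hne : ∀ i j U, r i j → H U → cls U (σ i) ≠ cls U (σ j)) {U : UF X} (hU : H U) :
    Inj (El U) (fun z => El U z (cls U (Name.mk ι A fun _ => ⊤))) (Q U) := by
  let v : ι → RO X := fun i => ⨅ j : {j // r j i}, (Name.eqv (A j) (A i))ᶜ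
  have hv : ∀ i j U, r j i → hold U (v i) → cls U (A j) ≠ cls U (A i) := fun i j U hj h e =>
    hold_compl.1 (hold_mono (iInf_le _ (⟨j, hj⟩ : {j // r j i})) h) (mk_eq.1 e)
  let φ : Nm X := Name.mk ι (fun i => prN (A i) (σ i)) v
  refine ⟨cls U φ, fun a b b' h1 h2 => ?_, fun a ha => ?_, fun a a' b h1 h2 => ?_⟩
  · refine all_appv (fun U a b => ∀ b', App (El U) (cls U φ) a b' → b = b')
      (fun i U hi b' h2 => ?_) h1 b' h2
    refine all_appv (fun U a b' => hold U (v i) → cls U (A i) = a → cls U (σ i) = b')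
      (fun j U hj hi e => ?_) h2 hi rfl
    rcases htri i j with h | rfl | h
    exacts [absurd e (hv j i U h hj), rfl, absurd e.symm (hv i j U h hi)]
  · refine all_mk (fun U a => H U → ∃ b, Q U b ∧ App (El U) (cls U φ) a b) (fun i U _ hU => ?_) ha hU
    by_contra hc
    obtain ⟨c, hc'⟩ := (inferInstance : Tr fun U => H U ∧
      ¬ ∃ b, Q U b ∧ App (El U) (cls U φ) (cls U (A i)) b).ex
    have h0 : i ∈ {j | c ⊓ Name.eqv (A j) (A i) ≠ ⊥} := by
      intro e
      rw [Name.eqv_refl, inf_top_eq] at e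
      exact not_hold_bot U (e ▸ (hc' U).1 ⟨hU, hc⟩)
    obtain ⟨j, hj, hmin⟩ := hwf.has_min _ ⟨i, h0⟩
    obtain ⟨U', hU'⟩ := exists_uf hj
    have h1 : hold U' (v j) := by
      refine hold_mono (le_iInf fun k => le_of_uf fun U'' h2 => hold_compl.2 fun h3 => ?_) hU'
      rw [hold_inf] at h2
      have h4 : c ⊓ Name.eqv (A k) (A i) = ⊥ := not_not.1 fun h => hmin k h k.2
      refine not_hold_bot U'' (h4 ▸ hold_inf.2 ⟨h2.1, mk_eq.1 ?_⟩)
      exact (mk_eq.2 h3).trans (mk_eq.2 h2.2)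
    rw [hold_inf, ← hc'] at hU'
    refine hU'.1.2 ⟨_, hQ j U' hU'.1.1, ?_⟩
    rw [← mk_eq.2 hU'.2]
    exact ⟨_, el_of_v (fun i => prN (A i) (σ i)) v j h1, pair_prN U' _ _⟩
  · refine all_appv (fun U a b => H U → ∀ a', App (El U) (cls U φ) a' b → a = a')
      (fun i U _ hU a' h2 => ?_) h1 hU a' h2
    refine all_appv (fun U a' b => H U → cls U (σ i) = b → cls U (A i) = a')
      (fun j U _ hU e => ?_) h2 hU rfl
    rcases htri i j with h | rfl | h
    exacts [absurd e (hne i j U h hU), rfl, absurd e.symm (hne j i U h hU)]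

theorem inj_countable {ι : Type} [Countable ι] (A : ι → Nm X) (U : UF X) :
    Inj (El U) (fun z => El U z (cls U (Name.mk ι A fun _ => ⊤))) fun n => El U n (om U) := by
  obtain ⟨e, he⟩ := exists_injective_nat ι
  have := Tr.const (X := X) True
  refine inj_mk (r := fun i j => e i < e j) (InvImage.wf e wellFounded_lt) (fun i j => ?_) A
    (fun i => numN (e i)) (fun _ => True) (fun U n => El U n (om U))
    (fun i U _ => num_el_om U _) (fun i j U h _ => num_ne _ _ h) trivial
  rcases lt_trichotomy (e i) (e j) with h | h | h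
  exacts [Or.inl h, Or.inr (Or.inl (he h)), Or.inr (Or.inr h)]

/-- A set named along a well-ordering with countable initial segments has at most `ℵ₁` members. -/
theorem le_aleph1 {ι : Type} {r : ι → ι → Prop} (hwf : WellFounded r)
    (htri : ∀ i j, r i j ∨ i = j ∨ r j i) (hc : ∀ i, Countable {j // r j i}) (A : ι → Nm X)
    (U : UF X) (Y : Md U) : Inj (El U) (fun z => El U z Y) (fun n => El U n (om U)) ∨
      Inj (El U) (fun z => El U z (cls U (Name.mk ι A fun _ => ⊤))) fun z => El U z Y := by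
  obtain ⟨ξ, rfl⟩ := mk_surj Y
  refine or_iff_not_imp_left.2 fun hU => ?_
  obtain ⟨σ, hσ⟩ := exists_rec hwf (fun i (f : {j // r j i} → Nm X) (a : Nm X) => ∀ U : UF X,
    (∃ y, El U y (cls U ξ) ∧ ¬ El U y (cls U (Name.mk _ f fun _ => ⊤))) →
      El U (cls U a) (cls U ξ) ∧ ¬ El U (cls U a) (cls U (Name.mk _ f fun _ => ⊤)))
    fun i f => exists_wit fun U y => El U y (cls U ξ) ∧ ¬ El U y (cls U (Name.mk _ f fun _ => ⊤))
  have key : ∀ i (U : UF X), ¬ Inj (El U) (fun z => El U z (cls U ξ)) (fun n => El U n (om U)) →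
      El U (cls U (σ i)) (cls U ξ) ∧ ¬ El U (cls U (σ i))
        (cls U (Name.mk _ (fun j : {j // r j i} => σ j) fun _ => ⊤)) := by
    intro i U hU
    refine hσ i U ?_
    by_contra hcon
    push Not at hcon
    have := hc i
    exact hU ((inj_countable _ U).mono hcon)
  refine inj_mk hwf htri A σ
    (fun U => ¬ Inj (El U) (fun z => El U z (cls U ξ)) (fun n => El U n (om U)))
    (fun U z => El U z (cls U ξ)) (fun i U hU => (key i U hU).1) (fun i j U h hU e => ?_) hU
  refine (key j U hU).2 ?_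
  rw [← e]
  exact el_of_v (fun k : {k // r k j} => σ k) _ ⟨i, h⟩ (hold_top U)

end Pool.Agent.Lib.MP_898cae_lc
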