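import Pool.Agent.Lib.MP_898cae_lc.Core

/-!
A set that splits a piece of the algebra can be destroyed by a legitimate move.
-/

open Set Filter MeasureTheory Topology

namespace Pool.Agent.Lib.MP_898cae_lc

theorem exists_level_small {η : ℝ} (hη : 0 < η) :
    ∃ N, ∀ L ≥ N, 2 * (1 / 2 : ℝ) ^ (L + 1) * (L + 1 : ℕ) ≤ η := by
  have h := tendsto_self_mul_const_pow_of_lt_one (r := 1 / 2) (by norm_num) (by norm_num)
  obtain ⟨N, hN⟩ := eventually_atTop.1 (h.eventually (ge_mem_nhds (half_pos hη)))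
  refine ⟨N, fun L hL => ?_⟩
  have := hN (L + 1) (by omega)
  linarith

theorem exists_kill {G : ℕ → Set Can} (hG : ∀ i, MeasurableSet (G i)) {B : Set Can}
    (hB : MeasurableSet B) (t : ℕ) (s : St) (n0 : ℕ) {Y : Set Can} (hY : MeasurableSet Y)
    {y0 : Can} (hY0 : Y ⊆ cy (max s.1 n0 + 1) y0) (hY1 : ∀ i < t, Y ⊆ G i ∨ Y ⊆ (G i)ᶜ)
    (h1 : 0 < lam.real (Y ∩ B)) (h2 : 0 < lam.real (Y \ B))
    (hT : ∀ N (ε : ℝ), 0 < ε → ∃ l, N ≤ l ∧ GoodF ε l G t ∧ ∀ y, GoodR ε l y B) :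
    ∃ s', Kill G B t s s' n0 := by
  classical
  obtain ⟨n, D⟩ := s
  simp only at hY0
  let S : ℕ → Set Can := fun i => if Y ⊆ G i then G i else (G i)ᶜ
  have hSm : ∀ i, MeasurableSet (S i) := fun i => by
    simp only [S]; split_ifs; exacts [hG i, (hG i).compl]
  have hYS : ∀ i < t, Y ⊆ S i := fun i hi => by
    simp only [S]; split_ifs with h; exacts [h, (hY1 i hi).resolve_left h]
  have hST : ∀ ε l, GoodF ε l G t → ∀ i < t, T1 ε l (S i) := fun ε l h i hi => by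
    have : T1 ε l (G i) := fun y => (h i hi y).1
    simp only [S]; split_ifs; exacts [this, this.compl]
  obtain ⟨η, hη⟩ : ∃ η : ℝ, η = (1 / 2) ^ t * (1 / 2) ^ (n + 1) := ⟨_, rfl⟩
  have hη0 : 0 < η := by rw [hη]; positivity
  have ht1 : (0 : ℝ) < t + 1 := by positivity
  -- the first level
  obtain ⟨N0, hN0⟩ := exists_level_small hη0
  obtain ⟨ε, hε0, hε1, hε2, hε3⟩ : ∃ ε : ℝ, 0 < ε ∧ (t + 1) * ε ≤ 1 / 16 ∧
      ε < lam.real (Y ∩ B) ∧ ε < lam.real (Y \ B) := by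
    refine ⟨min (1 / 16 / (t + 1)) (min (lam.real (Y ∩ B) / 2) (lam.real (Y \ B) / 2)),
      by positivity, ?_, ?_, ?_⟩
    · rw [← le_div_iff₀' ht1]; exact min_le_left _ _
    · exact ((min_le_right _ _).trans (min_le_left _ _)).trans_lt (half_lt_self h1)
    · exact ((min_le_right _ _).trans (min_le_right _ _)).trans_lt (half_lt_self h2)
  have hε4 : ε ≤ 1 / 16 := by nlinarith [Nat.cast_nonneg (α := ℝ) t]
  obtain ⟨L, hL, hLG, hLB⟩ := hT (max N0 (max n n0 + 1)) ε hε0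
  have hL0 : 0 < L := by omega
  have hE0 : Det (L + 1) (cy (max n n0 + 1) y0) := (det_cy _ _).mono (by omega)
  have hLB1 : T1 ε L B := fun y => (hLB y).1
  obtain ⟨y1, hy1, hy1S, hy1B⟩ := exists_full hε0.le hL0 hE0 (hY.inter hB) (hST _ _ hLG) hLB1
    (fun i hi => inter_subset_left.trans (hYS i hi)) inter_subset_right
    (inter_subset_left.trans hY0) hε2
  obtain ⟨y2, hy2, hy2S, hy2B⟩ := exists_full hε0.le hL0 hE0 (hY.diff hB) (hST _ _ hLG) hLB1.compl
    (fun i hi => sdiff_subset.trans (hYS i hi)) (fun _ h => h.2) (sdiff_subset.trans hY0) hε3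
  obtain ⟨a, ha⟩ : ∃ a : ℝ, a = (1 / 2) ^ (L + 1) := ⟨_, rfl⟩
  have ha0 : 0 < a := by rw [ha]; positivity
  have ha1 : 2 * a * (L + 1 : ℕ) ≤ η := ha ▸ hN0 L (by omega)
  -- the coordinate
  obtain ⟨m, hm1, hm2⟩ : ∃ m : ℕ, L < m ∧ 24 ≤ m * a := by
    obtain ⟨k, hk⟩ := exists_nat_ge (24 / a)
    refine ⟨max (L + 1) k, by omega, ?_⟩
    rw [div_le_iff₀ ha0] at hk
    refine hk.trans ?_
    gcongr
    exact le_max_right _ _
  have hm0 : (0 : ℝ) < m := Nat.cast_pos.2 (by omega)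
  -- the second level
  obtain ⟨ε', hε'0, hε'1, hε'2, hε'3⟩ : ∃ ε' : ℝ, 0 < ε' ∧ (t + 1) * ε' ≤ a / 16 ∧ ε' ≤ η ∧
      ε' ≤ 1 := by
    refine ⟨min (a / 16 / (t + 1)) (min η 1), by positivity, ?_,
      (min_le_right _ _).trans (min_le_left _ _), (min_le_right _ _).trans (min_le_right _ _)⟩
    rw [← le_div_iff₀' ht1]; exact min_le_left _ _
  obtain ⟨l, hl, hlG, hlB⟩ := hT m ε' hε'0
  have hl0 : 0 < l := by omega
  have hl0' : (0 : ℝ) < l := Nat.cast_pos.2 hl0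
  have hlB1 : T1 ε' l B := fun y => (hlB y).1
  let w : Can := fun k => if k ≤ L then xor (y1 k) (y2 k) else true
  have hw : ∀ k, L < k → w k = true := fun k hk => if_neg (by omega)
  have hw1 : ∀ z, flip w z ∈ cy (L + 1) y1 ↔ z ∈ cy (L + 1) y2 := by
    intro z
    refine forall₂_congr fun k hk => ?_
    have : w k = xor (y1 k) (y2 k) := if_pos (by omega)
    simp only [flip, this]
    cases z k <;> cases y1 k <;> cases y2 k <;> simp
  let C : Set Can := ⋂ i ∈ Finset.range t, hat ε' l (S i)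
  have hC : Det (l + 1) C := fun y hy z hz =>
    mem_iInter₂.2 fun i hi => det_hat ε' l (S i) y (mem_iInter₂.1 hy i hi) hz
  let F : Set Can := cy (L + 1) y1 ∩ {z | z m = false} ∩ (C ∩ hat ε' l B) ∩
    flip w ⁻¹' (C ∩ hat ε' l Bᶜ)
  have hF : Det (l + 1) F :=
    ((((det_cy _ _).mono (by omega)).inter (det_coord (by omega) _)).inter
      (hC.inter (det_hat _ _ _))).inter ((hC.inter (det_hat _ _ _)).flip w)
  have hF' : Det (l + 1) (flip w ⁻¹' F) := hF.flip w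
  have hF1 : ∀ z ∈ F, z ∈ cy (L + 1) y1 ∧ z m = false ∧ z ∈ C ∧ z ∈ hat ε' l B :=
    fun z hz => ⟨hz.1.1.1, hz.1.1.2, hz.1.2.1, hz.1.2.2⟩
  have hF2 : ∀ z ∈ flip w ⁻¹' F, z ∈ cy (L + 1) y2 ∧ z m = true ∧ z ∈ C ∧ z ∈ hat ε' l Bᶜ := by
    intro z hz
    have h3 : flip w (flip w z) ∈ C ∩ hat ε' l Bᶜ := hz.2
    rw [flip_flip] at h3
    refine ⟨(hw1 z).1 hz.1.1.1, ?_, h3.1, h3.2⟩
    have h4 : flip w z m = false := hz.1.1.2
    simpa [flip, hw m hm1] using h4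
  have hFa : a / 4 ≤ lam.real F := by
    have h3 := cy_sdiff_hats hε0.le hε'0.le hL0 hl0 hSm hB (hST _ _ hlG) hlB1 hy1S hy1B
    have h4 := cy_sdiff_hats hε0.le hε'0.le hL0 hl0 hSm hB.compl (hST _ _ hlG) hlB1.compl hy2S hy2B
    rw [← lam_flip w ((meas_cy _ _).diff (hC.inter (det_hat _ _ _)).meas)] at h4
    have h5 : cy (L + 1) y1 ∩ {z | z m = false} ⊆ F ∪ ((cy (L + 1) y1 \ (C ∩ hat ε' l B)) ∪
        flip w ⁻¹' (cy (L + 1) y2 \ (C ∩ hat ε' l Bᶜ))) := by
      intro z hz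
      by_cases h6 : z ∈ C ∩ hat ε' l B
      · by_cases h7 : flip w z ∈ C ∩ hat ε' l Bᶜ
        · exact Or.inl ⟨⟨hz, h6⟩, h7⟩
        · refine Or.inr (Or.inr ⟨(hw1 _).1 ?_, h7⟩)
          rw [flip_flip]
          exact hz.1
      · exact Or.inr (Or.inl ⟨hz.1, h6⟩)
    have h6 := (measureReal_mono (μ := lam) h5).trans ((measureReal_union_le _ _).trans
      (add_le_add le_rfl (measureReal_union_le _ _)))
    rw [real_cy_half (by omega), ← ha] at h6
    rw [← ha] at h3 h4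
    have h7 : (t + 1) * (ε * a + ε') ≤ a / 8 := by nlinarith
    linarith
  let E : Set Can := F ∪ flip w ⁻¹' F
  have hE : Det (l + 1) E := hF.union hF'
  have hEC : E ⊆ C := fun z hz => hz.elim (fun h => (hF1 z h).2.2.1) fun h => (hF2 z h).2.2.1
  have hE1 : E ⊆ cy (max n n0 + 1) y0 := fun z hz =>
    hz.elim (fun h => hE0 _ hy1 (hF1 z h).1) fun h => hE0 _ hy2 (hF2 z h).1
  have hEa : lam.real E ≤ 2 * a := by
    have h3 : lam.real F ≤ a := by
      rw [ha, ← lam_real_cy (L + 1) y1]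
      exact measureReal_mono fun z hz => (hF1 z hz).1
    have h4 := measureReal_union_le (μ := lam) F (flip w ⁻¹' F)
    rw [lam_flip w hF.meas] at h4
    linarith
  have hdisj : E ∩ F = F ∧ E \ F = flip w ⁻¹' F := by
    refine ⟨inter_eq_right.2 subset_union_left, ?_⟩
    ext z
    refine ⟨fun h => h.1.resolve_left h.2, fun h => ⟨Or.inr h, fun h' => ?_⟩⟩
    have h3 := (hF1 z h').2.1
    rw [(hF2 z h).2.1] at h3
    exact Bool.noConfusion h3
  have hpsiE : ∀ k, L < k → psi k E = 0 := by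
    intro k hk
    rw [psi_split k E hF.meas, hdisj.1, hdisj.2, psi_flip (hw k hk) hF.meas, add_neg_cancel]
  have hsub : ∀ (K : Set Can) (j : ℕ), j ≤ max n n0 → Det (j + 1) K → E ⊆ K ∨ E ⊆ Kᶜ := by
    intro K j hj hK
    by_cases h : y0 ∈ K
    · exact Or.inl ((hE1.trans (cy_anti (by omega) _)).trans (hK _ h))
    · exact Or.inr ((hE1.trans (cy_anti (by omega) _)).trans (hK.compl _ h))
  have hK : Det (n + 1) (KK (n, D)) := det_KK (n, D)
  have hEK := hsub _ n (le_max_left _ _) hK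
  have hK' : Det (l + 1) (symmDiff (KK (n, D)) E) := by
    rw [symmDiff_def]
    exact ((hK.mono (by omega)).inter hE.compl).union (hE.inter (hK.mono (by omega)).compl)
  obtain ⟨D', hD'⟩ := exists_KK hK'
  have hGE : ∀ i < t, ∀ k : ℕ, 0 < k → |psi k (G i ∩ E)| ≤ η / k := by
    intro i hi k hk
    have hk' : (0 : ℝ) < k := Nat.cast_pos.2 hk
    rcases le_or_gt k L with h3 | h3
    · refine (abs_psi_le _ _).trans ((measureReal_mono inter_subset_right).trans (hEa.trans ?_))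
      rw [le_div_iff₀ hk']
      refine le_trans ?_ ha1
      gcongr
      omega
    rcases le_or_gt k l with h4 | h4
    · have h5 : lam.real (E \ S i) ≤ η / k := by
        refine (measureReal_mono (sdiff_subset_sdiff_left fun z hz =>
          mem_iInter₂.1 (hEC hz) i (Finset.mem_range.2 hi))).trans
          ((hat_sdiff hε'0.le l (hSm i)).trans ?_)
        gcongr
      have h6 := (abs_psi_le k _).trans h5
      simp only [S] at h6
      split_ifs at h6
      · have h7 := psi_split k E (hG i)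
        rw [hpsiE k h3] at h7
        have h8 : psi k (E ∩ G i) = -psi k (E \ G i) := by linarith
        rwa [inter_comm, h8, abs_neg]
      · rwa [Set.sdiff_compl, inter_comm] at h6
    · refine (psi_sum_bound hE (hG i) (δ := ε' / k) (by positivity) fun z _ => ?_).trans ?_
      · rw [div_mul_eq_mul_div]
        exact (hlG i hi z).2 k h4
      · gcongr
  refine ⟨(l, D'), ⟨by simp only; omega, fun i hi y => (hlG i hi y).mono (hε'2.trans ?_), ?_, ?_⟩,
    y0, m, by omega, hl, ?_⟩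
  · rw [hη]
    exact mul_le_of_le_one_right (by positivity) (pow_le_one₀ (by norm_num) (by norm_num))
  · rw [hD', symmDiff_symmDiff_cancel_left, ← mul_div_assoc, ← hη,
      le_div_iff₀ (by positivity)]
    refine le_trans ?_ ha1
    have : ((n : ℝ) + 1) ≤ (L + 1 : ℕ) := by
      have : n + 1 ≤ L + 1 := by omega
      exact_mod_cast this
    simp only
    gcongr
  · intro i hi j hj y k hk
    simp only at hj
    rw [hD', psi_symmDiff k hK.meas hE.meas hEK, ← mul_div_assoc, ← hη]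
    rcases hsub _ j (by omega) (det_cy (j + 1) y) with h3 | h3
    · rw [inter_assoc, inter_eq_right.2 h3]
      exact hGE i hi k (by omega)
    · have : G i ∩ cy (j + 1) y ∩ E = ∅ :=
        eq_empty_of_forall_notMem fun z hz => h3 hz.2 hz.1.2
      rw [this, psi_empty, abs_zero]
      positivity
  · have hU : E ⊆ cy (n0 + 1) y0 := hE1.trans (cy_anti (by omega) _)
    have h3 := psi_symmDiff m (Z := B ∩ cy (n0 + 1) y0) hK.meas hE.meas hEK
    rw [inter_assoc B _ E, inter_eq_right.2 hU] at h3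
    have h4 : |psi m (B ∩ cy (n0 + 1) y0 ∩ KK (n, D))| ≤ ε / m := by
      rw [inter_assoc]
      refine psi_sum_bound (N := L + 1) (((det_cy _ _).mono (by omega)).inter (hK.mono (by omega)))
        hB (by positivity) fun z _ => ?_
      rw [div_mul_eq_mul_div]
      exact (hLB z).2 m hm1
    have h5 : a / 4 - 2 * (ε' / l) ≤ psi m (B ∩ E) := by
      have e1 : B ∩ E ∩ {z | z m = false} = F ∩ B := by
        ext z
        refine ⟨fun h => ⟨h.1.2.resolve_right fun h' => ?_, h.1.1⟩,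
          fun h => ⟨⟨h.2, Or.inl h.1⟩, (hF1 z h.1).2.1⟩⟩
        have h6 : z m = false := h.2
        rw [(hF2 z h').2.1] at h6
        exact Bool.noConfusion h6
      have e2 : B ∩ E ∩ {z | z m = true} ⊆ hat ε' l Bᶜ \ Bᶜ := by
        intro z h
        refine ⟨(hF2 z (h.1.2.resolve_left fun h' => ?_)).2.2.2, fun h' => h' h.1.1⟩
        have h6 : z m = true := h.2
        rw [(hF1 z h').2.1] at h6
        exact Bool.noConfusion h6
      have h6 := (measureReal_mono (μ := lam) e2).trans (hat_sdiff hε'0.le l hB.compl)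
      have h7 : lam.real (F \ B) ≤ ε' / l :=
        (measureReal_mono (sdiff_subset_sdiff_left fun z hz => (hF1 z hz).2.2.2)).trans
          (hat_sdiff hε'0.le l hB)
      have h8 := measureReal_inter_add_sdiff (μ := lam) (s := F) hB
      rw [psi, e1]
      linarith
    have e : KK (l, D') ∩ B ∩ cy (n0 + 1) y0 = B ∩ cy (n0 + 1) y0 ∩ symmDiff (KK (n, D)) E := by
      rw [hD', inter_assoc, inter_comm]
    rw [e]
    have h6 := abs_sub_abs_le_abs_sub (psi m (B ∩ E)) 0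
    have h7 := abs_sub (psi m (B ∩ cy (n0 + 1) y0 ∩ symmDiff (KK (n, D)) E))
      (psi m (B ∩ cy (n0 + 1) y0 ∩ KK (n, D)))
    rw [h3] at h7
    have h8 := le_abs_self (psi m (B ∩ E))
    have h9 : m * (ε' / l) ≤ 1 := by
      rw [← mul_div_assoc, div_le_one hl0']
      have : (m : ℝ) ≤ l := by exact_mod_cast hl
      nlinarith
    have h10 : m * (ε / m) = ε := mul_div_cancel₀ _ hm0.ne'
    have h11 : a / 4 - 2 * (ε' / l) - ε / m ≤
        |psi m (B ∩ cy (n0 + 1) y0 ∩ symmDiff (KK (n, D)) E)| := by linarith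
    have h12 := mul_le_mul_of_nonneg_left h11 hm0.le
    nlinarith

theorem exists_split {G : ℕ → Set Can} {B : Set Can} {𝒢 : Set (Set Can)}
    (hc : ∀ A ∈ 𝒢, Aᶜ ∈ 𝒢) (hu : ∀ A ∈ 𝒢, ∀ A' ∈ 𝒢, A ∪ A' ∈ 𝒢) (hG : ∀ i, G i ∈ 𝒢)
    (hV : ∀ k, {z : Can | z k = true} ∈ 𝒢) (hB : ∀ A ∈ 𝒢, ¬ B =ᵐ[lam] A) (t N : ℕ) :
    ∃ Y ∈ 𝒢, ∃ y0, Y ⊆ cy N y0 ∧ (∀ i < t, Y ⊆ G i ∨ Y ⊆ (G i)ᶜ) ∧
      0 < lam.real (Y ∩ B) ∧ 0 < lam.real (Y \ B) := by
  have hi : ∀ A ∈ 𝒢, ∀ A' ∈ 𝒢, A ∩ A' ∈ 𝒢 := fun A hA A' hA' => by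
    have := hc _ (hu _ (hc _ hA) _ (hc _ hA'))
    rwa [compl_union, compl_compl, compl_compl] at this
  have huniv : univ ∈ 𝒢 := union_compl_self (G 0) ▸ hu _ (hG 0) _ (hc _ (hG 0))
  have key : ∀ (H : ℕ → Set Can), (∀ i, H i ∈ 𝒢) → ∀ Y0 ∈ 𝒢,
      (∀ A ∈ 𝒢, ¬ (Y0 ∩ B : Set Can) =ᵐ[lam] A) → ∀ t, ∃ Y ∈ 𝒢, Y ⊆ Y0 ∧
        (∀ A ∈ 𝒢, ¬ (Y ∩ B : Set Can) =ᵐ[lam] A) ∧ ∀ i < t, Y ⊆ H i ∨ Y ⊆ (H i)ᶜ := by
    intro H hH Y0 hY0 h0 t
    induction t with
    | zero => exact ⟨Y0, hY0, Subset.rfl, h0, fun i hi => absurd hi (Nat.not_lt_zero i)⟩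
    | succ t ih =>
      obtain ⟨Y, h1, h2, h3, h4⟩ := ih
      have h5 : ∀ Z, (Z = H t ∨ Z = (H t)ᶜ) → (∀ A ∈ 𝒢, ¬ (Y ∩ Z ∩ B : Set Can) =ᵐ[lam] A) →
          ∃ Y ∈ 𝒢, Y ⊆ Y0 ∧ (∀ A ∈ 𝒢, ¬ (Y ∩ B : Set Can) =ᵐ[lam] A) ∧
            ∀ i < t + 1, Y ⊆ H i ∨ Y ⊆ (H i)ᶜ := by
        intro Z hZ h
        refine ⟨Y ∩ Z, hi _ h1 _ ?_, inter_subset_left.trans h2, h, fun i hi => ?_⟩
        · rcases hZ with rfl | rfl
          exacts [hH t, hc _ (hH t)]
        · rcases Nat.lt_succ_iff_lt_or_eq.1 hi with hi | rfl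
          · exact (h4 i hi).imp inter_subset_left.trans inter_subset_left.trans
          · rcases hZ with rfl | rfl
            exacts [Or.inl inter_subset_right, Or.inr inter_subset_right]
      by_contra hcon
      have h6 := mt (h5 _ (Or.inl rfl)) hcon
      have h7 := mt (h5 _ (Or.inr rfl)) hcon
      push Not at h6 h7
      obtain ⟨A, hA, h6⟩ := h6
      obtain ⟨A', hA', h7⟩ := h7
      refine h3 _ (hu _ hA _ hA') ?_
      have e : Y ∩ B = (Y ∩ H t ∩ B) ∪ (Y ∩ (H t)ᶜ ∩ B) := by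
        ext z
        simp only [mem_inter_iff, mem_union, mem_compl_iff]
        tauto
      rw [e]
      exact h6.union h7
  obtain ⟨Y1, h1, -, h2, h3⟩ := key G hG univ huniv (by simpa using hB) t
  obtain ⟨Y, h4, h5, h6, h7⟩ := key _ hV Y1 h1 h2 N
  have h8 : 0 < lam.real (Y ∩ B) := by
    refine ENNReal.toReal_pos (fun h => h6 _ (compl_univ ▸ hc _ huniv) ?_) (measure_ne_top _ _)
    exact ae_eq_empty.2 h
  have h9 : 0 < lam.real (Y \ B) := by
    refine ENNReal.toReal_pos (fun h => h6 _ h4 ?_) (measure_ne_top _ _)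
    refine ae_eq_set.2 ⟨?_, ?_⟩
    · rw [sdiff_eq_empty.2 inter_subset_left, measure_empty]
    · rwa [sdiff_self_inter]
  obtain ⟨y0, hy0⟩ : (Y ∩ B).Nonempty := by
    by_contra h
    rw [not_nonempty_iff_eq_empty.1 h] at h8
    simp at h8
  refine ⟨Y, h4, y0, fun z hz k hk => ?_, fun i hi => (h3 i hi).imp h5.trans h5.trans, h8, h9⟩
  rcases h7 k hk with h | h
  · exact (h hz).trans (h hy0.1).symm
  · have h10 := h hz
    have h11 := h hy0.1
    simp only [mem_compl_iff, mem_ofPred_eq, Bool.not_eq_true] at h10 h11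
    rw [h10, h11]

end Pool.Agent.Lib.MP_898cae_lc
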