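import Pool.Agent.Lib.MP_898cae_lc.Generic

/-!
The model: a maximal algebra with property (T) having fewer than continuum many classes modulo
null sets.
-/

open Set Filter MeasureTheory Topology
open Pool.Agent.Lib.MP_e0f6ac_lc

namespace Pool.Agent.Lib.MP_898cae_lc

section General

variable {X : Type} [TopologicalSpace X] [MeasurableSpace X] [Cat X]

omit [MeasurableSpace X] [Cat X] in
theorem res_of_forall {S : Set X} {q : X → Prop} (h : ∀ U : UF X, S ∈ U.1 → Ae U q) :
    ∀ᶠ x in residual X, x ∈ S → q x := by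
  refine res_iff.2 fun U => ?_
  by_cases hS : S ∈ U.1
  · filter_upwards [h U hS] with x hx _ using hx
  · filter_upwards [Ultrafilter.compl_mem_iff_notMem.2 hS] with x hx hx' using absurd hx' hx

omit [TopologicalSpace X] [Cat X] in
theorem meas_ae_eq {F G : Set (X × Can)} (hF : MeasurableSet F) (hG : MeasurableSet G) :
    MeasurableSet {x | sec F x =ᵐ[lam] sec G x} := by
  simp only [← measure_symmDiff_eq_zero_iff]
  exact meas_lam_sec (hF.symmDiff hG) (measurableSet_singleton 0)

theorem fam_eq_ae {U : UF X} {F G : Set (X × Can)} (hF : MeasurableSet F) (hG : MeasurableSet G)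
    (h : fm U F = fm U G) : Ae U fun x => sec F x =ᵐ[lam] sec G x := by
  have hm := hF.symmDiff hG
  have key := ae_all (fun U => fm U F = fm U G)
    (q := fun (d : ℕ) x => lam.real (sec (symmDiff F G) x) ≤ 1 / (d + 1 : ℕ)) (fun d U h => ?_) h
  · filter_upwards [key] with x hx
    rw [← measure_symmDiff_eq_zero_iff, ← measureReal_eq_zero_iff]
    refine le_antisymm (le_of_forall_pos_le_add fun ε hε => ?_) measureReal_nonneg
    obtain ⟨j, hj⟩ := exists_nat_one_div_lt hε
    have := hx j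
    push_cast at this
    exact this.trans (by linarith)
  · have e : (fun _ => False) = fun z => El U z (fm U (symmDiff F G)) := by
      refine class_eq hm (fun _ => False.elim) fun g hg => ⟨False.elim, fun h1 => ?_⟩
      have h2 := el_fam (U := U) hF hg
      rw [h, el_fam hG hg] at h2
      simp only [mem_symmDiff, Ae, Ultrafilter.eventually_or, eventually_and,
        Ultrafilter.eventually_not] at h1 h2
      tauto
    rw [← measLe_false hm (Nat.succ_ne_zero d), ← e]
    have := (measLe_false (U := U) MeasurableSet.empty (Nat.succ_ne_zero d)).2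
      (Eventually.of_forall fun x => by simp [sec]; positivity)
    rwa [← class_false] at this

/-- The conclusion of property (T). -/
def Concl {M : Type 1} (E : M → M → Prop) (w p f k : M) : Prop :=
  ∃ n, E n w ∧ ¬ Emp E n ∧ ∀ y i A, Subs E y w → E i p → App E f i A → Good E w k n y A

instance tr_Concl (w p f k : Nm X) :
    Tr fun U => Concl (El U) (cls U w) (cls U p) (cls U f) (cls U k) := by
  unfold Concl; infer_instance

theorem concl_of_ae {φ : Nm X} {F : ℕ → Set (X × Can)} (hF : ∀ i, MeasurableSet (F i)) {p k : ℕ}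
    (hk : k ≠ 0) {U : UF X}
    (h1 : ∀ i < p, ∀ A, App (El U) (cls U φ) (num U i) A → A = fm U (F i))
    (h2 : Ae U fun x => ∃ n, n ≠ 0 ∧ ∀ i < p, ∀ y, GoodR (1 / k) n y (sec (F i) x)) :
    Concl (El U) (om U) (num U p) (cls U φ) (num U k) := by
  refine ae_ex (fun U => (∀ i A, El U i (num U p) → App (El U) (cls U φ) i A →
      App (El U) (cls U (funN numN fun i => famN (F i))) i A) →
    Concl (El U) (om U) (num U p) (cls U φ) (num U k)) (fun n U hn h => ?_) h2 fun i A hi hA => ?_
  · obtain ⟨x, h0, -⟩ := hn.exists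
    refine ⟨_, num_el_om U n, fun h => h0 (emp_num_iff.1 h), fun y i A hy hi hA => ?_⟩
    have h3 := h i A hi hA
    obtain ⟨g, hg, rfl⟩ := real_cases hy
    obtain ⟨j, hj, rfl⟩ := el_num.1 hi
    rw [fn_seq U _ _ _ _ h3 (app_funN U numN (fun i => famN (F i)) j)]
    exact (good_iff (hF j) hg hk h0).2 (hn.mono fun x hx => hx.2 j hj _)
  · obtain ⟨j, hj, rfl⟩ := el_num.1 hi
    rw [h1 j hj A hA]
    exact app_funN U numN (fun i => famN (F i)) j

theorem ae_of_concl {F : ℕ → Set (X × Can)} (hF : ∀ i, MeasurableSet (F i)) {p k : ℕ}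
    (hk : k ≠ 0) {U : UF X}
    (h : Concl (El U) (om U) (num U p) (cls U (funN numN fun i => famN (F i))) (num U k)) :
    Ae U fun x => ∃ n, ∀ i < p, ∀ y, GoodR (1 / k) n y (sec (F i) x) := by
  obtain ⟨n, hn, h0, h⟩ := h
  have := tr_ae (p := fun x => ∃ n, ∀ i < p, ∀ y, GoodR (1 / k) n y (sec (F i) x))
    (Measurable.exists fun n => Measurable.forall fun i =>
      measurable_const.imp (meas_goodR (hF i) _ n)).setOf
  refine all_om (fun U n => ¬ Emp (El U) n → (∀ y i A, Subs (El U) y (om U) → El U i (num U p) →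
    App (El U) (cls U (funN numN fun i => famN (F i))) i A → Good (El U) (om U) (num U k) n y A) →
    Ae U fun x => ∃ n, ∀ i < p, ∀ y, GoodR (1 / k) n y (sec (F i) x)) (fun n U h0 h => ?_) hn h0 h
  rw [emp_num_iff] at h0
  have key := ae_all (fun U => ∀ y i A, Subs (El U) y (om U) → El U i (num U p) →
    App (El U) (cls U (funN numN fun i => famN (F i))) i A →
      Good (El U) (om U) (num U k) (num U n) y A)
    (q := fun (i : ℕ × Finset ℕ) x => i.1 < p → GoodR (1 / k) n (ind i.2) (sec (F i.1) x))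
    (fun i U h => ?_) h
  · filter_upwards [key] with x hx
    refine ⟨n, fun i hi y => ?_⟩
    have := hx (i, tr (n + 1) y) hi
    simpa only [GoodR, cy_ind_tr] using this
  · by_cases hi : i.1 < p
    · exact ((good_iff (hF _) measurable_const hk h0).1 (h _ _ _ (subs_rl U fun _ => ind i.2)
        (num_el_num.2 hi) (app_funN U numN (fun i => famN (F i)) i.1))).mono fun x hx _ => hx
    · exact Eventually.of_forall fun x h => absurd h hi

theorem hasT_ae {U : UF X} {B : Md U} (hB : HasT (El U) (om U) B) {F : ℕ → Set (X × Can)}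
    (hF : ∀ i, MeasurableSet (F i)) {p k : ℕ} (hk : k ≠ 0) (h : ∀ i < p, El U (fm U (F i)) B) :
    Ae U fun x => ∃ n, ∀ i < p, ∀ y, GoodR (1 / k) n y (sec (F i) x) := by
  refine ae_of_concl hF hk (hB.2.2.2.2 _ _ _ (num_el_om U p) (fn_seq U _) (fun i A hi hA => ?_)
    (num_el_om U k) fun h => hk (emp_num_iff.1 h))
  obtain ⟨j, hj, rfl⟩ := el_num.1 hi
  rw [fn_seq U _ _ _ _ hA (app_funN U numN (fun i => famN (F i)) j)]
  exact h j hj

theorem hasT_inter {U : UF X} {B : Md U} (hB : HasT (El U) (om U) B) {F G : Set (X × Can)}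
    (hF : MeasurableSet F) (hG : MeasurableSet G) (h : El U (fm U F) B) (h' : El U (fm U G) B) :
    El U (fm U (F ∩ G)) B := by
  have hc : ∀ F : Set (X × Can), MeasurableSet F → El U (fm U F) B → El U (fm U Fᶜ) B := by
    intro F hF h
    obtain ⟨C, h1, h2⟩ := hB.2.2.1 _ h
    exact (cmp_iff hF).1 h2 ▸ h1
  obtain ⟨C, h1, h2⟩ := hB.2.2.2.1 _ _ (hc F hF h) (hc G hG h')
  have e : C = fm U (Fᶜ ∪ Gᶜ) := md_ext fun z => (h2 z).trans (union_iff hF.compl hG.compl z).symm
  have := hc _ (hF.compl.union hG.compl) (e ▸ h1)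
  rwa [compl_union, compl_compl, compl_compl] at this

theorem ccc_pair {ι : Type} [Uncountable ι] (b : ι → RO X) (hb : ∀ i, b i ≠ ⊥) :
    ∃ i j, i ≠ j ∧ b i ⊓ b j ≠ ⊥ := by
  obtain ⟨s, hs⟩ := exists_seq b
  obtain ⟨i, hi⟩ : ∃ i, i ∉ range s := by
    by_contra h
    push Not at h
    exact not_countable (α := ι) (Function.Surjective.countable (f := s) h)
  obtain ⟨n, c, h1, h2, h3⟩ := ex_of_le_iSup (hb i) (hs i)
  exact ⟨i, s n, fun e => hi ⟨n, e.symm⟩, fun e => h1 (le_bot_iff.1 (e ▸ le_inf h2 h3))⟩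

end General

theorem dep_countable {ι : Type} {F : Set ((ι → Bool) × Can)} (hF : MeasurableSet F) :
    ∃ I : Set ι, I.Countable ∧ ∀ x x', (∀ i ∈ I, x i = x' i) → sec F x = sec F x' := by
  refine fam_induction (P := fun F => ∃ I : Set ι, I.Countable ∧
    ∀ x x', (∀ i ∈ I, x i = x' i) → sec F x = sec F x') (fun O hO _ => ?_) (fun F _ h => ?_)
    (fun F _ h => ?_) hF
  · choose I t hI ht using fun i : ℕ × Finset ℕ =>
      (hO.meas i.1 (ind i.2)).eq_preimage_restrict_countable
    have key : ∀ x x', (∀ i ∈ ⋃ j, I j, x i = x' i) → sec O x ⊆ sec O x' := by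
      intro x x' h z hz
      obtain ⟨N, hN⟩ := exists_cy_subset (hO.isOpen x) hz
      have h1 : x ∈ {x | cy N (ind (tr N z)) ⊆ sec O x} := by rwa [mem_ofPred_eq, cy_ind_tr]
      have h2 : (I (N, tr N z)).domRestrict x = (I (N, tr N z)).domRestrict x' :=
        funext fun i => h i (mem_iUnion.2 ⟨_, i.2⟩)
      rw [ht (N, tr N z), mem_preimage, h2, ← mem_preimage, ← ht, mem_ofPred_eq, cy_ind_tr] at h1
      exact h1 (self_mem_cy _ _)
    exact ⟨⋃ j, I j, countable_iUnion hI, fun x x' h =>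
      (key x x' h).antisymm (key x' x fun i hi => (h i hi).symm)⟩
  · obtain ⟨I, hI, h⟩ := h
    exact ⟨I, hI, fun x x' e => congrArg compl (h x x' e)⟩
  · choose I hI h using h
    refine ⟨⋃ n, I n, countable_iUnion hI, fun x x' e => ?_⟩
    simp only [sec, preimage_iUnion]
    exact iUnion_congr fun n => h n x x' fun i hi => e i (mem_iUnion.2 ⟨n, hi⟩)

theorem le_of_good_coord {ε : ℝ} (hε : ε ≤ 1 / 3) {n N : ℕ} {y : Can}
    (h : GoodR ε n y {z | z N = true}) : N ≤ n := by
  by_contra hc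
  have hn : n < N := not_le.1 hc
  have h1 := h.2 N hn
  have h2 := real_cy_half (N := n + 1) (m := N) hn y
  have h3 := real_split N (cy (n + 1) y)
  have e1 : {z : Can | z N = true} ∩ cy (n + 1) y ∩ {z | z N = false} = ∅ := by
    ext z; simp; tauto
  have e2 : {z : Can | z N = true} ∩ cy (n + 1) y ∩ {z | z N = true} =
      cy (n + 1) y ∩ {z | z N = true} := by
    ext z; simp; tauto
  rw [lam_real_cy] at h3
  rw [psi, e1, e2, measureReal_empty, zero_sub, abs_neg, abs_of_nonneg measureReal_nonneg] at h1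
  have h4 : (1 : ℝ) ≤ N := Nat.one_le_cast.2 (by omega)
  have h5 : (0 : ℝ) < (1 / 2) ^ (n + 1) := by positivity
  rw [le_div_iff₀ (by linarith)] at h1
  nlinarith

variable {W : Type} [LinearOrder W] [WellFoundedLT W] (en : W → ℕ → Tm W)

/-- The name for the set of representatives. -/
noncomputable def RN : Nm (XX W) := Name.mk (Tm W) (fun t => famN (FT en t)) fun _ => ⊤

/-- The name for the maximal algebra. -/
noncomputable def BN : Nm (XX W) :=
  Name.mk ({F : Set (XX W × Can) // MeasurableSet F} × Tm W) (fun p => famN p.1.1)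
    fun p => pr {x | sec p.1.1 x =ᵐ[lam] sec (FT en p.2) x}

variable {en} (hen : ∀ a, range (en a) = Below a)
include hen

theorem el_BN {U : UF (XX W)} {F : Set (XX W × Can)} (hF : MeasurableSet F) (t : Tm W)
    (h : Ae U fun x => sec F x =ᵐ[lam] val en t x) : El U (fm U F) (cls U (BN en)) :=
  el_of_v (fun p : {F : Set (XX W × Can) // MeasurableSet F} × Tm W => famN p.1.1) _ (⟨F, hF⟩, t)
    ((hold_pr (meas_ae_eq hF (meas_FT hen t)) U).2 h)

theorem all_BN (P : (U : UF (XX W)) → Md U → Prop) [∀ τ, Tr fun U => P U (cls U τ)]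
    (h : ∀ F t U, MeasurableSet F → (Ae U fun x => sec F x =ᵐ[lam] val en t x) → P U (fm U F))
    {U : UF (XX W)} {y : Md U} (hy : El U y (cls U (BN en))) : P U y :=
  all_mk P (fun (p : {F : Set (XX W × Can) // MeasurableSet F} × Tm W) U hp => h p.1.1 p.2 U p.1.2
    ((hold_pr (meas_ae_eq p.1.2 (meas_FT hen p.2)) U).1 hp)) hy

theorem ae_of_el_BN {U : UF (XX W)} {F : Set (XX W × Can)} (hF : MeasurableSet F)
    (h : El U (fm U F) (cls U (BN en))) : Ae U fun x => ∃ t, sec F x =ᵐ[lam] val en t x := by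
  have : Nonempty (Tm W) := ⟨Tm.cyl 0⟩
  obtain ⟨s, hs⟩ := exists_seq fun t : Tm W => pr {x | sec F x =ᵐ[lam] sec (FT en t) x}
  have h1 : hold U (⨆ n, pr {x | sec F x =ᵐ[lam] sec (FT en (s n)) x}) := by
    refine all_BN hen (fun U y => y = fm U F →
      hold U (⨆ n, pr {x | sec F x =ᵐ[lam] sec (FT en (s n)) x})) (fun G t U hG h e => ?_) h rfl
    refine hold_mono (hs t) ((hold_pr (meas_ae_eq hF (meas_FT hen t)) U).2 ?_)
    filter_upwards [h, fam_eq_ae hG hF e] with x h1 h2 using h2.symm.trans h1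
  have := tr_ae (p := fun x => ∃ n, sec F x =ᵐ[lam] sec (FT en (s n)) x)
    (Measurable.exists fun n => measurableSet_setOfPred.1 (meas_ae_eq hF (meas_FT hen _))).setOf
  have h2 := count_union (fun U => Ae U fun x => ∃ n, sec F x =ᵐ[lam] sec (FT en (s n)) x)
    (fun n U hn => Eventually.mono ((hold_pr (meas_ae_eq hF (meas_FT hen _)) U).1 hn)
      fun x hx => ⟨n, hx⟩) ((hold_iSup_iff _).1 h1)
  exact h2.mono fun x ⟨n, hn⟩ => ⟨_, hn⟩

theorem hasT_BN (U : UF (XX W)) : HasT (El U) (om U) (cls U (BN en)) := by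
  have hbor : ∀ (U : UF (XX W)) A, El U A (cls U (BN en)) → Borel (El U) (om U) A := fun U A hA =>
    all_BN hen (fun U A => Borel (El U) (om U) A) (fun F _ U hF _ => borel_fam hF U) hA
  refine ⟨hbor U, fun K hK => ?_, fun A hA => ?_, fun A A' hA hA' => ?_,
    fun p f k hp hf h hk hk0 => ?_⟩
  · obtain ⟨σ, rfl⟩ := mk_surj K
    obtain ⟨F, hF, h⟩ := exists_clopen σ
    rw [(h U hK).1]
    refine ae_ex (fun U => El U (fm U F) (cls U (BN en))) (q := fun (s : St) x => sec F x = KK s)
      (fun s U hs => ?_) ((h U hK).2.mono fun x hx => ?_)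
    · obtain ⟨t, ht⟩ := exists_term (W := W) (det_KK s).isClopen
      exact el_BN hen hF t (hs.mono fun x hx => by rw [hx, val, ht])
    · obtain ⟨N, hN⟩ := clopen_det hx
      obtain ⟨D, hD⟩ := exists_KK (l := N) (hN.mono (Nat.le_succ N))
      exact ⟨_, hD.symm⟩
  · refine all_BN hen (fun U A => ∃ C, El U C (cls U (BN en)) ∧ Cmp (El U) (om U) A C)
      (fun F t U hF h => ⟨_, el_BN hen hF.compl t.neg (h.mono fun x hx => ?_),
        (cmp_iff hF).2 rfl⟩) hA
    rw [val, Tm.ev_neg]
    exact hx.compl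
  · refine all_BN hen (fun U A => ∀ A', El U A' (cls U (BN en)) →
      ∃ C, El U C (cls U (BN en)) ∧ ∀ x, El U x C ↔ El U x A ∨ El U x A')
      (fun F t U hF h A' hA' => ?_) hA A' hA'
    have := tr_ae (p := fun x => sec F x =ᵐ[lam] val en t x) (meas_ae_eq hF (meas_FT hen t))
    refine all_BN hen (fun U A' => (Ae U fun x => sec F x =ᵐ[lam] val en t x) →
      ∃ C, El U C (cls U (BN en)) ∧ ∀ x, El U x C ↔ El U x (fm U F) ∨ El U x A')
      (fun G t' U hG h' h => ⟨_, el_BN hen (hF.union hG) (t.un t') ?_, union_iff hF hG⟩) hA' h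
    filter_upwards [h, h'] with x h1 h2
    rw [val, Tm.ev_un]
    exact h1.union h2
  · obtain ⟨φ, rfl⟩ := mk_surj f
    refine all_om (fun U p => ∀ k, Fn (El U) (cls U φ) →
      (∀ i A, El U i p → App (El U) (cls U φ) i A → El U A (cls U (BN en))) → El U k (om U) →
      ¬ Emp (El U) k → Concl (El U) (om U) p (cls U φ) k) (fun p U k hf h hk hk0 => ?_)
      hp k hf h hk hk0
    refine all_om (fun U k => Fn (El U) (cls U φ) →
      (∀ i A, El U i (num U p) → App (El U) (cls U φ) i A → El U A (cls U (BN en))) →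
      ¬ Emp (El U) k → Concl (El U) (om U) (num U p) (cls U φ) k) (fun k U hf h hk0 => ?_)
      hk hf h hk0
    rw [emp_num_iff] at hk0
    choose a ha using fun i => exists_wit fun U A => App (El U) (cls U φ) (num U i) A
    choose F hF hF' using fun i => exists_fam (a i)
    choose S hS hS' using fun i => Tr.rep fun U => ∃ A, App (El U) (cls U φ) (num U i) A
    have hm : ∀ i, MeasurableSet ((S i ×ˢ univ) ∩ F i) := fun i =>
      ((hS i).prod MeasurableSet.univ).inter (hF i)
    have h1 : ∀ i < p, ∀ A, App (El U) (cls U φ) (num U i) A → A = fm U ((S i ×ˢ univ) ∩ F i) := by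
      intro i hi A hA
      have h2 := ha i U ⟨A, hA⟩
      rw [hf _ _ _ hA h2, hF' i U (hbor U _ (h _ _ (num_el_num.2 hi) h2))]
      refine fam_congr (hF i) (hm i) ?_
      filter_upwards [(hS' i U).1 ⟨A, hA⟩] with x hx
      ext z
      simp [sec, hx]
    have h2 : ∀ i ∈ Finset.range p, Ae U fun x =>
        ∃ t, sec ((S i ×ˢ univ) ∩ F i) x =ᵐ[lam] val en t x := by
      intro i hi
      by_cases h3 : ∃ A, App (El U) (cls U φ) (num U i) A
      · obtain ⟨A, hA⟩ := h3
        refine ae_of_el_BN hen (hm i) ?_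
        rw [← h1 i (Finset.mem_range.1 hi) A hA]
        exact h _ _ (num_el_num.2 (Finset.mem_range.1 hi)) hA
      · rw [hS', ← Ultrafilter.compl_mem_iff_notMem] at h3
        obtain ⟨t, ht⟩ := exists_term (W := W) isClopen_empty
        filter_upwards [h3] with x hx
        refine ⟨t, EventuallyEq.of_eq ?_⟩
        rw [val, ht]
        exact eq_empty_of_forall_notMem fun z hz => hx hz.1.1
    refine concl_of_ae hm hk0 h1 ?_
    filter_upwards [(eventually_all_finset _).2 h2] with x hx
    have : Nonempty (Tm W) := ⟨Tm.cyl 0⟩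
    choose! t ht using hx
    obtain ⟨n, hn, h3⟩ := val_good hen x t p 1 (ε := 1 / k) (by positivity)
    exact ⟨n, by omega, fun i hi y => (h3 i hi y).congr (ht i (Finset.mem_range.2 hi)).symm⟩

omit hen in
theorem el_RN (U : UF (XX W)) (t : Tm W) : El U (fm U (FT en t)) (cls U (RN en)) :=
  el_of_v (fun t => famN (FT en t)) _ t (hold_top U)

omit hen in
theorem all_RN (P : (U : UF (XX W)) → Md U → Prop) [∀ τ, Tr fun U => P U (cls U τ)]
    (h : ∀ t U, P U (fm U (FT en t))) {U : UF (XX W)} {y : Md U} (hy : El U y (cls U (RN en))) :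
    P U y :=
  all_mk P (fun t U _ => h t U) hy

theorem RN_subs (U : UF (XX W)) : Subs (El U) (cls U (RN en)) (cls U (BN en)) := fun _ hA =>
  all_RN (fun U A => El U A (cls U (BN en))) (fun t _ =>
    el_BN hen (meas_FT hen t) t (Eventually.of_forall fun _ => EventuallyEq.rfl)) hA

theorem hasT_RN (U : UF (XX W)) : HasT (El U) (om U) (cls U (RN en)) := by
  refine ⟨fun A hA => (hasT_BN hen U).1 _ (RN_subs hen U _ hA), fun K hK => ?_, fun A hA => ?_,
    fun A A' hA hA' => ?_, fun p f k hp hf h =>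
      (hasT_BN hen U).2.2.2.2 p f k hp hf fun i A hi hA => RN_subs hen U _ (h i A hi hA)⟩
  · obtain ⟨σ, rfl⟩ := mk_surj K
    obtain ⟨F, hF, h⟩ := exists_clopen σ
    rw [(h U hK).1]
    refine ae_ex (fun U => El U (fm U F) (cls U (RN en))) (q := fun (s : St) x => sec F x = KK s)
      (fun s U hs => ?_) ((h U hK).2.mono fun x hx => ?_)
    · obtain ⟨t, ht⟩ := exists_term (W := W) (det_KK s).isClopen
      rw [fam_congr hF (meas_FT hen t) (hs.mono fun x hx => hx.trans (ht fun b => Agen en b x).symm)]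
      exact el_RN U t
    · obtain ⟨N, hN⟩ := clopen_det hx
      obtain ⟨D, hD⟩ := exists_KK (l := N) (hN.mono (Nat.le_succ N))
      exact ⟨_, hD.symm⟩
  · refine all_RN (fun U A => ∃ C, El U C (cls U (RN en)) ∧ Cmp (El U) (om U) A C)
      (fun t U => ⟨_, el_RN U t.neg, (cmp_iff (meas_FT hen t)).2 (congrArg (fm U) ?_)⟩) hA
    ext p
    simp only [FT, val, Tm.ev_neg, mem_compl_iff, mem_ofPred_eq]
  · refine all_RN (fun U A => ∀ A', El U A' (cls U (RN en)) →
      ∃ C, El U C (cls U (RN en)) ∧ ∀ x, El U x C ↔ El U x A ∨ El U x A')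
      (fun t U A' hA' => ?_) hA A' hA'
    refine all_RN (fun U A' =>
      ∃ C, El U C (cls U (RN en)) ∧ ∀ x, El U x C ↔ El U x (fm U (FT en t)) ∨ El U x A')
      (fun t' U => ⟨_, el_RN U (t.un t'), ?_⟩) hA'
    have e : FT en (t.un t') = FT en t ∪ FT en t' := by
      ext p
      simp only [FT, val, Tm.ev_un, mem_union, mem_ofPred_eq]
    rw [e]
    exact union_iff (meas_FT hen t) (meas_FT hen t')

theorem pos_RN (U : UF (XX W)) : Pos (El U) (om U) (cls U (RN en)) := by
  intro A hA
  refine all_RN (fun U A => Null (El U) (om U) (fun x => El U x A) → Emp (El U) A)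
    (fun t U h => ?_) hA
  have key := ae_all (fun U => Null (El U) (om U) fun x => El U x (fm U (FT en t)))
    (q := fun (d : ℕ) x => lam.real (sec (FT en t) x) ≤ 1 / (d + 1 : ℕ))
    (fun d U h => (measLe_false (meas_FT hen t) (Nat.succ_ne_zero d)).1
      (h _ (num_el_om U _) fun h => Nat.succ_ne_zero d (emp_num_iff.1 h))) h
  rw [fam_congr (meas_FT hen t) MeasurableSet.empty (key.mono fun x hx => val_pos hen x t ?_)]
  · exact fun z hz => (congrFun (class_false U) z).mpr hz
  · rw [← measureReal_eq_zero_iff]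
    refine le_antisymm (le_of_forall_pos_le_add fun ε hε => ?_) measureReal_nonneg
    obtain ⟨j, hj⟩ := exists_nat_one_div_lt hε
    have := hx j
    push_cast at this
    exact this.trans (by linarith)

theorem rep_BN {U : UF (XX W)} {A : Md U} (hA : El U A (cls U (BN en))) :
    ∃ A', El U A' (cls U (RN en)) ∧ Null (El U) (om U) fun x => ¬ (El U x A ↔ El U x A') :=
  all_BN hen (fun U A => ∃ A', El U A' (cls U (RN en)) ∧
    Null (El U) (om U) fun x => ¬ (El U x A ↔ El U x A'))
    (fun _ t U hF h => ⟨_, el_RN U t, null_of_ae hF (meas_FT hen t) h⟩) hA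

theorem max_BN [Uncountable W] (U : UF (XX W)) (B : Md U) (hB : HasT (El U) (om U) B)
    (hs : Subs (El U) (cls U (RN en)) B) : Subs (El U) B (cls U (BN en)) := by
  intro A hA
  obtain ⟨β, rfl⟩ := mk_surj B
  obtain ⟨σ, rfl⟩ := mk_surj A
  obtain ⟨F, hF, hF'⟩ := exists_fam σ
  have e := hF' U (hB.1 _ hA)
  rw [e] at hA ⊢
  by_contra hc
  obtain ⟨b, hb⟩ := (inferInstance : Tr fun U => HasT (El U) (om U) (cls U β) ∧
    Subs (El U) (cls U (RN en)) (cls U β) ∧ El U (fm U F) (cls U β) ∧
    ¬ El U (fm U F) (cls U (BN en))).ex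
  have hne : b.set.Nonempty := Ultrafilter.nonempty_of_mem ((hb U).1 ⟨hB, hs, hA, hc⟩)
  obtain ⟨I, hI, hI'⟩ := dep_countable hF
  obtain ⟨a, ha⟩ : ∃ a : W, emb a ∉ Prod.fst '' I := by
    by_contra h
    push Not at h
    exact Set.not_countable_univ (((hI.image _).preimage_of_injOn emb_inj.injOn).mono
      fun a _ => h a)
  have hFT := el_RN (en := en)
  refine generic_kill hen a hF (fun x x' h => hI' x x' fun i hi => h i fun e => ha ⟨i, hi, e⟩)
    b.isOpen hne (res_of_forall fun U hU => ?_)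
  refine Eventually.and ?_ (Eventually.and ?_ ?_)
  · refine ae_all (fun U => hold U b) (fun i U hU => Ultrafilter.eventually_not.2 fun h => ?_) hU
    exact ((hb U).2 hU).2.2.2 (el_BN hen hF _ h)
  · let G : ℕ → ℕ → ℕ → Set (XX W × Can) := fun t N i =>
      if i < t then FT en (en a i) else if i = t then F else FT en (Tm.cyl N)
    have hG : ∀ t N i, MeasurableSet (G t N i) := fun t N i => by
      simp only [G]; split_ifs; exacts [meas_FT hen _, hF, meas_FT hen _]
    have key := ae_all (fun U => hold U b) (q := fun (j : ℕ × ℕ × ℕ) x => ∃ n, ∀ i < j.1 + 2, ∀ y,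
      GoodR (1 / (j.2.2 + 3 : ℕ)) n y (sec (G j.1 j.2.1 i) x)) (fun j U hU => ?_) hU
    · filter_upwards [key] with x hx t N ε hε
      obtain ⟨k, hk⟩ := exists_nat_one_div_lt hε
      obtain ⟨n, hn⟩ := hx (t, N, k)
      have h1 : (1 : ℝ) / (k + 3 : ℕ) ≤ ε := by
        refine le_trans ?_ hk.le
        push_cast
        gcongr
        norm_num
      refine ⟨n, ?_, fun i hi y => ?_, fun y => ?_⟩
      · have := hn (t + 1) (by omega) fun _ => true
        simp only [G, if_neg (show ¬ t + 1 < t by omega), if_neg (Nat.succ_ne_self t)] at this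
        refine le_of_good_coord ?_ this
        push_cast
        gcongr
        linarith [Nat.cast_nonneg (α := ℝ) k]
      · have := hn i (by omega) y
        simp only [G, if_pos hi] at this
        exact this.mono h1
      · have := hn t (by omega) y
        simp only [G, lt_irrefl, if_false, if_true] at this
        exact this.mono h1
    · obtain ⟨h1, h2, h3, -⟩ := (hb U).2 hU
      refine hasT_ae h1 (hG _ _) (by omega) fun i _ => ?_
      simp only [G]
      split_ifs
      exacts [h2 _ (hFT U _), h3, h2 _ (hFT U _)]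
  · obtain ⟨h1, h2, h3, -⟩ := (hb U).2 hU
    have := hasT_ae h1 (F := fun _ => FT en (Tm.gen a) ∩ F) (fun _ => (meas_FT hen _).inter hF)
      (p := 1) (k := 1) one_ne_zero fun _ _ => hasT_inter h1 (meas_FT hen _) hF (h2 _ (hFT U _)) h3
    filter_upwards [this] with x ⟨n, hn⟩
    refine ⟨n, fun y => ?_⟩
    have := hn 0 one_pos y
    rw [Nat.cast_one, div_one] at this
    exact this

omit hen in
theorem not_inj_RN (U : UF (XX W)) :
    ¬ Inj (El U) (fun x => Subs (El U) x (om U)) fun A => El U A (cls U (RN en)) := by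
  rintro ⟨f, -, h1, h2⟩
  obtain ⟨φ, rfl⟩ := mk_surj f
  let g : Jx W → XX W → Can := fun j x k => x (j, 0, k)
  have hg : ∀ j, Measurable (g j) := fun j => measurable_pi_iff.2 fun k => measurable_pi_apply _
  choose b hb using fun (j : Jx W) (t : Tm W) => (inferInstance : Tr fun U =>
    (∀ a a' b, App (El U) (cls U φ) a b → App (El U) (cls U φ) a' b → a = a') ∧
      App (El U) (cls U φ) (rl U (g j)) (fm U (FT en t))).ex
  have key : ∀ j, ∃ t, b j t ≠ ⊥ := by
    intro j
    by_contra hc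
    push Not at hc
    obtain ⟨A, hA, hA'⟩ := h1 _ (subs_rl U (g j))
    refine all_mk (fun U A => ¬ ((∀ a a' b, App (El U) (cls U φ) a b →
      App (El U) (cls U φ) a' b → a = a') ∧ App (El U) (cls U φ) (rl U (g j)) A))
      (fun t U _ h => ?_) hA ⟨h2, hA'⟩
    exact not_hold_bot U (hc t ▸ (hb j t U).1 h)
  choose t ht using key
  obtain ⟨u, hu⟩ : ∃ u, ¬ {j | t j = u}.Countable := by
    by_contra hc
    push Not at hc
    choose e he using fun u => Set.countable_iff_exists_injOn.1 (hc u)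
    refine Function.cantor_injective (fun j => (t j, e (t j) j)) fun i j h => ?_
    obtain ⟨h3, h4⟩ := Prod.ext_iff.1 h
    simp only at h3 h4
    rw [h3] at h4
    exact he (t j) h3 rfl h4
  have : Uncountable {j | t j = u} := not_countable_iff.1 (mt Set.countable_coe_iff.1 hu)
  obtain ⟨i, j, hij, h3⟩ := ccc_pair (fun j : {j | t j = u} => b j u) fun j => by
    have := ht j
    rwa [j.2] at this
  obtain ⟨U', hU'⟩ := exists_uf h3
  rw [hold_inf, ← hb, ← hb] at hU'
  have h4 := (rl_eq (hg i) (hg j)).1 (hU'.1.1 _ _ _ hU'.1.2 hU'.2.2)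
  obtain ⟨x, h5, h6⟩ := (h4.and (U'.res (coord_ne (Subtype.coe_ne_coe.2 hij)))).exists
  exact h6 h5

theorem max_RN [Uncountable W] (U : UF (XX W)) (R : Md U) (hR : HasT (El U) (om U) R)
    (hp : Pos (El U) (om U) R) (hs : Subs (El U) (cls U (RN en)) R) :
    Subs (El U) R (cls U (RN en)) := by
  intro A hA
  obtain ⟨A', h1, h2⟩ := rep_BN hen (max_BN hen U R hR hs A hA)
  obtain ⟨σ, rfl⟩ := mk_surj A
  obtain ⟨σ', rfl⟩ := mk_surj A'
  obtain ⟨F, hF, hF'⟩ := exists_fam σ
  obtain ⟨G, hG, hG'⟩ := exists_fam σ'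
  have h3 := hs _ h1
  have e := hF' U (hR.1 _ hA)
  have e' := hG' U (hR.1 _ h3)
  rw [e] at hA h2 ⊢
  rw [e'] at h1 h2 h3
  have hc : ∀ F : Set (XX W × Can), MeasurableSet F → El U (fm U F) R → El U (fm U Fᶜ) R := by
    intro F hF h
    obtain ⟨C, h1, h2⟩ := hR.2.2.1 _ h
    exact (cmp_iff hF).1 h2 ▸ h1
  obtain ⟨C, h4, h5⟩ := hR.2.2.2.1 _ _ (hasT_inter hR hF hG.compl hA (hc G hG h3))
    (hasT_inter hR hG hF.compl h3 (hc F hF hA))
  have hi : ∀ F G : Set (XX W × Can), MeasurableSet F → MeasurableSet G → ∀ z,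
      El U z (fm U (F ∩ Gᶜ)) ↔ El U z (fm U F) ∧ ¬ El U z (fm U G) := by
    intro F G hF hG z
    refine (iff_of_eq (congrFun (class_eq (P := fun z => El U z (fm U F) ∧ ¬ El U z (fm U G))
      (hF.inter hG.compl) (fun z hz => fam_subs hz.1) fun g hg => ?_) z)).symm
    rw [el_fam hF hg, el_fam hG hg]
    simp only [mem_inter_iff, mem_compl_iff, Ae, eventually_and, Ultrafilter.eventually_not]
  have h6 : (fun z => El U z C) = fun z => ¬ (El U z (fm U F) ↔ El U z (fm U G)) := by
    funext z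
    rw [h5, hi F G hF hG, hi G F hG hF]
    exact propext (by tauto)
  have h7 := hp C h4 (h6 ▸ h2)
  rw [md_ext (a := fm U F) (b := fm U G) fun z => not_not.1 fun h => h7 z ((congrFun h6 z).mpr h)]
  exact h1

theorem propLt_md [Uncountable W] (U : UF (XX W)) : PropLt (El U) :=
  ⟨om U, cls U (BN en), cls U (RN en), omega_om U,
    ⟨hasT_BN hen U, fun B hB hs => max_BN hen U B hB fun A hA => hs A (RN_subs hen U A hA)⟩,
    RN_subs hen U, fun _ hA => rep_BN hen hA, not_inj_RN U, hasT_RN hen U, pos_RN hen U,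
    max_RN hen U⟩

omit hen in
theorem main : ∃ (M : Type 1) (E : M → M → Prop), ZFC E ∧ PropLt E := by
  obtain ⟨W, _, _, _, hW⟩ := exists_omega1
  choose en hen using fun a : W =>
    (countable_below (hW a)).exists_eq_range ⟨_, Below.cyl a 0⟩
  obtain ⟨U⟩ : Nonempty (UF (XX W)) := inferInstance
  exact ⟨Md U, El U, zfc_md U, propLt_md (fun a => (hen a).symm) U⟩

end Pool.Agent.Lib.MP_898cae_lc
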