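import Pool.Agent.Lib.MP_898cae_lc.Fam

/-!
The measure-theoretic notions of the two-valued models, evaluated on measurable families.
-/

open TopologicalSpace Set Filter MeasureTheory
open Pool.Agent.Lib.MP_e0f6ac_lc

namespace Pool.Agent.Lib.MP_898cae_lc

/-- The signed version of the functional `φ_m`. -/
noncomputable def psi (m : ℕ) (A : Set Can) : ℝ :=
  lam.real (A ∩ {z | z m = false}) - lam.real (A ∩ {z | z m = true})

/-- Conditions (T.1) and (T.2) for one set and one atom. -/
def GoodR (ε : ℝ) (n : ℕ) (y : Can) (A : Set Can) : Prop :=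
  (lam.real (A ∩ cy (n + 1) y) ≤ ε * (1 / 2) ^ (n + 1) / n ∨
    lam.real (cy (n + 1) y \ A) ≤ ε * (1 / 2) ^ (n + 1) / n) ∧
  ∀ m, n < m → |psi m (A ∩ cy (n + 1) y)| ≤ ε * (1 / 2) ^ (n + 1) / m

theorem isClopen_coord (m : ℕ) (b : Bool) : IsClopen {z : Can | z m = b} := by
  have h : IsClopen ((fun x : Can => x m) ⁻¹' {b}) :=
    (isClopen_discrete {b}).preimage (continuous_apply m)
  exact h

theorem meas_coord' (m : ℕ) (b : Bool) : MeasurableSet {z : Can | z m = b} :=
  (isClopen_coord m b).isOpen.measurableSet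

variable {X : Type} [TopologicalSpace X] [MeasurableSpace X] [Cat X]

theorem small_iff {U : UF X} {O : Set (X × Can)} (hO : OpenFam O) (p : ℕ) {q : ℕ} (hq : q ≠ 0) :
    Small (El U) (om U) (fm U O) (num U p) (num U q) ↔
      Ae U fun x => lam.real (sec O x) ≤ p / q := by
  classical
  simp only [← open_real_le (hO.isOpen _) hq]
  refine all_om_iff (fun U N => Inj (El U) (fun z => ∃ s j, Subs (El U) s N ∧
      Cyl (El U) (om U) N s (fm U O) ∧ El U j (num U q) ∧ Pair (El U) z s j)
    (fun z => ∃ s i, Subs (El U) s N ∧ El U i (num U p) ∧ Pair (El U) z s i)) (fun N U => ?_) U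
  let I := (Finset.range N).powerset.filter fun s => Ae U fun x => cy N (ind s) ⊆ sec O x
  have hI : Ae U fun x => ((Finset.range N).powerset.filter fun s => cy N (ind s) ⊆ sec O x) = I := by
    have : ∀ s ∈ (Finset.range N).powerset, Ae U fun x =>
        (cy N (ind s) ⊆ sec O x ↔ Ae U fun x => cy N (ind s) ⊆ sec O x) := by
      intro s _
      by_cases h : Ae U fun x => cy N (ind s) ⊆ sec O x
      · filter_upwards [h] with x hx using iff_of_true hx h
      · filter_upwards [Ultrafilter.eventually_not.2 h] with x hx using iff_of_false hx h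
    filter_upwards [(eventually_all_finset _).2 this] with x hx using Finset.filter_congr hx
  have hinj : ∀ (T : Set (Finset ℕ × ℕ)),
      InjOn (fun i : Finset ℕ × ℕ => pr2 (rl U fun _ => ind i.1) (num U i.2)) T := by
    intro T a _ b _ h
    obtain ⟨h1, h2⟩ := pr2_inj h
    exact Prod.ext (rl_const_inj h1) (num_inj.1 h2)
  rw [inj_iff (I ×ˢ Finset.range q) ((Finset.range N).powerset ×ˢ Finset.range p) _ _ (hinj _)
    (hinj _), Finset.card_product, Finset.card_product, Finset.card_range, Finset.card_range,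
    Finset.card_powerset, Finset.card_range]
  · constructor
    · intro h
      filter_upwards [hI] with x hx
      rwa [hx]
    · intro h
      obtain ⟨x, h1, h2⟩ := (h.and hI).exists
      rwa [h2] at h1
  · intro z
    constructor
    · rintro ⟨s, j, h1, h2, h3, h4⟩
      obtain ⟨s, hs, rfl⟩ := subs_num_cases.1 h1
      obtain ⟨j, hj, rfl⟩ := el_num.1 h3
      exact ⟨(s, j), Finset.mem_product.2 ⟨Finset.mem_filter.2
        ⟨hs, (cyl_iff hO measurable_const N).1 h2⟩, Finset.mem_range.2 hj⟩, pair_iff.1 h4⟩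
    · rintro ⟨⟨s, j⟩, h, rfl⟩
      obtain ⟨h1, h2⟩ := Finset.mem_product.1 h
      obtain ⟨h1, h3⟩ := Finset.mem_filter.1 h1
      exact ⟨_, _, subs_num_cases.2 ⟨s, h1, rfl⟩, (cyl_iff hO measurable_const N).2 h3,
        num_el_num.2 (Finset.mem_range.1 h2), pair_pr2 _ _⟩
  · intro z
    constructor
    · rintro ⟨s, j, h1, h3, h4⟩
      obtain ⟨s, hs, rfl⟩ := subs_num_cases.1 h1
      obtain ⟨j, hj, rfl⟩ := el_num.1 h3
      exact ⟨(s, j), Finset.mem_product.2 ⟨hs, Finset.mem_range.2 hj⟩, pair_iff.1 h4⟩
    · rintro ⟨⟨s, j⟩, h, rfl⟩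
      obtain ⟨h1, h2⟩ := Finset.mem_product.1 h
      exact ⟨_, _, subs_num_cases.2 ⟨s, h1, rfl⟩, num_el_num.2 (Finset.mem_range.1 h2),
        pair_pr2 _ _⟩

theorem above_le {U : UF X} {F : Set (X × Can)} (hF : MeasurableSet F) (p : ℕ) {q : ℕ}
    (hq : q ≠ 0) (h : Above (El U) (om U) (fun z => El U z (fm U F)) (num U p) (num U q)) :
    Ae U fun x => lam.real (sec F x) ≤ p / q := by
  have key := ae_all (fun U => Above (El U) (om U) (fun z => El U z (fm U F)) (num U p) (num U q))
    (q := fun (j : ℕ) x => lam.real (sec F x) ≤ p / q + 1 / (j + 1)) (fun j U h => ?_) h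
  · filter_upwards [key] with x hx
    refine le_of_forall_pos_le_add fun ε hε => ?_
    obtain ⟨j, hj⟩ := exists_nat_one_div_lt hε
    exact (hx j).trans (by linarith)
  obtain ⟨O, h1, h2, h3⟩ := h
  obtain ⟨σ, rfl⟩ := mk_surj O
  obtain ⟨O, hO, hO'⟩ := exists_openFam σ
  rw [hO' U h1] at h2 h3
  rw [small_iff hO p hq] at h3
  obtain ⟨G, hG, hG1, hG2⟩ := out_real hF.compl (δ := 1 / (j + 1)) (by positivity)
  obtain ⟨g, hg, hg'⟩ := (hO.union hG).select
  by_contra hc
  have h4 : Ae U fun x => (x, g x) ∈ F ∧ (x, g x) ∉ O := by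
    filter_upwards [Ultrafilter.eventually_not.2 hc, h3] with x h5 h6
    have h7 : ∃ z, (x, z) ∉ O ∪ G := by
      by_contra h7
      push Not at h7
      have h8 : sec F x ⊆ sec O x ∪ sec (G \ Fᶜ) x := fun z hz =>
        (h7 z).imp id fun h => ⟨h, fun h' => h' hz⟩
      exact h5 (((measureReal_mono h8).trans (measureReal_union_le _ _)).trans
        (add_le_add h6 (hG2 x)))
    have h8 := hg' x h7
    rw [mem_union, not_or] at h8
    exact ⟨not_not.1 fun h => h8.2 (hG1 h), h8.1⟩
  have h5 := (el_fam hO.measurableSet hg).1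
    (h2 _ ((el_fam hF hg).2 (h4.mono fun x hx => hx.1)))
  obtain ⟨x, h6, h7⟩ := (h4.and h5).exists
  exact h6.2 h7

theorem above_of_lt {U : UF X} {F : Set (X × Can)} (hF : MeasurableSet F) (p : ℕ) {q : ℕ}
    (hq : q ≠ 0) (h : Ae U fun x => lam.real (sec F x) < p / q) :
    Above (El U) (om U) (fun z => El U z (fm U F)) (num U p) (num U q) := by
  refine ae_ex (fun U => Above (El U) (om U) (fun z => El U z (fm U F)) (num U p) (num U q))
    (q := fun (j : ℕ) x => lam.real (sec F x) + 1 / (j + 1) ≤ p / q) (fun j U h => ?_)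
    (h.mono fun x hx => ?_)
  · obtain ⟨O, hO, hO1, hO2⟩ := out_real hF (δ := 1 / (j + 1)) (by positivity)
    refine ⟨fm U O, opn_fam U hO, fun z hz => ?_, (small_iff hO p hq).2 (h.mono fun x hx => ?_)⟩
    · obtain ⟨g, hg, rfl⟩ := real_cases (fam_subs hz)
      exact (el_fam hO.measurableSet hg).2 (((el_fam hF hg).1 hz).mono fun x hx => hO1 hx)
    · have h8 : sec O x ⊆ sec F x ∪ sec (O \ F) x := fun z hz => by
        by_cases h : (x, z) ∈ F
        exacts [Or.inl h, Or.inr ⟨hz, h⟩]
      exact ((measureReal_mono h8).trans (measureReal_union_le _ _)).trans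
        ((add_le_add le_rfl (hO2 x)).trans hx)
  · obtain ⟨j, hj⟩ := exists_nat_one_div_lt (sub_pos.2 hx)
    exact ⟨j, by linarith⟩

theorem measLe_iff {U : UF X} {F G : Set (X × Can)} (hF : MeasurableSet F) (hG : MeasurableSet G)
    {d : ℕ} (hd : d ≠ 0) :
    MeasLe (El U) (om U) (fun z => El U z (fm U F)) (fun z => El U z (fm U G)) (num U d) ↔
      Ae U fun x => lam.real (sec F x) ≤ lam.real (sec G x) + 1 / d := by
  have hd' : (0 : ℝ) < d := Nat.cast_pos.2 (Nat.pos_of_ne_zero hd)
  constructor
  · intro h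
    have key := ae_all (fun U => MeasLe (El U) (om U) (fun z => El U z (fm U F))
        (fun z => El U z (fm U G)) (num U d))
      (q := fun (i : ℕ × ℕ) x => lam.real (sec G x) < i.1 / (i.2 + 1 : ℕ) →
        lam.real (sec F x) ≤ (i.1 + (i.2 + 1) / d + 1 : ℕ) / (i.2 + 1 : ℕ)) (fun i U h => ?_) h
    · filter_upwards [key] with x hx
      refine le_of_forall_pos_le_add fun ε hε => ?_
      obtain ⟨j, hj⟩ := exists_nat_one_div_lt (half_pos hε)
      have hq : (0 : ℝ) < (j + 1 : ℕ) := by positivity
      have h0 : 0 ≤ lam.real (sec G x) * (j + 1 : ℕ) := by positivity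
      have h1 := hx (⌊lam.real (sec G x) * (j + 1 : ℕ)⌋₊ + 1, j) (by
        rw [lt_div_iff₀ hq]
        push_cast
        exact_mod_cast Nat.lt_floor_add_one _)
      refine h1.trans ?_
      have h2 := Nat.floor_le h0
      have h3 : (((j + 1) / d : ℕ) : ℝ) ≤ (j + 1 : ℕ) / d := Nat.cast_div_le
      have h4 : (2 : ℝ) ≤ ε * (j + 1 : ℕ) := by
        rw [div_lt_iff₀ (by positivity)] at hj
        push_cast
        linarith
      rw [div_le_iff₀ hq, Nat.cast_add, Nat.cast_add, Nat.cast_add, Nat.cast_one]
      have h5 : ((j + 1 : ℕ) : ℝ) / d = 1 / d * (j + 1 : ℕ) := by ring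
      nlinarith
    · rw [Ae, Ultrafilter.eventually_imp]
      intro h1
      refine above_le hF _ (Nat.succ_ne_zero _) (h _ _ _ (num_el_om U i.1) (num_el_om U _)
        (num_el_om U _) (fun h => Nat.succ_ne_zero _ (emp_num_iff.1 h)) (gap_iff.2 ?_)
        (above_of_lt hG _ (Nat.succ_ne_zero _) h1))
      have h2 := Nat.lt_div_mul_add (a := i.2 + 1) (Nat.pos_of_ne_zero hd)
      nlinarith
  · intro h p q p' hp hq hp'
    have := tr_ae (p := fun x => lam.real (sec F x) ≤ lam.real (sec G x) + 1 / d)
      (measurableSet_le (meas_real_sec hF) ((meas_real_sec hG).add_const _))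
    refine all_om (fun U p => (Ae U fun x => lam.real (sec F x) ≤ lam.real (sec G x) + 1 / d) →
      ∀ q p', El U q (om U) → El U p' (om U) → ¬ Emp (El U) q →
        Gap (El U) (om U) p q (num U d) p' → Above (El U) (om U) (fun z => El U z (fm U G)) p q →
        Above (El U) (om U) (fun z => El U z (fm U F)) p' q)
      (fun p U h q p' hq hp' => ?_) hp h q p' hq hp'
    refine all_om (fun U q => (Ae U fun x => lam.real (sec F x) ≤ lam.real (sec G x) + 1 / d) →
      ∀ p', El U p' (om U) → ¬ Emp (El U) q →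
        Gap (El U) (om U) (num U p) q (num U d) p' →
        Above (El U) (om U) (fun z => El U z (fm U G)) (num U p) q →
        Above (El U) (om U) (fun z => El U z (fm U F)) p' q)
      (fun q U h p' hp' => ?_) hq h p' hp'
    refine all_om (fun U p' => (Ae U fun x => lam.real (sec F x) ≤ lam.real (sec G x) + 1 / d) →
        ¬ Emp (El U) (num U q) → Gap (El U) (om U) (num U p) (num U q) (num U d) p' →
        Above (El U) (om U) (fun z => El U z (fm U G)) (num U p) (num U q) →
        Above (El U) (om U) (fun z => El U z (fm U F)) p' (num U q))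
      (fun p' U h h1 h2 h3 => ?_) hp' h
    rw [emp_num_iff] at h1
    rw [gap_iff] at h2
    refine above_of_lt hF _ h1 ?_
    filter_upwards [h, above_le hG _ h1 h3] with x h4 h5
    have hq' : (0 : ℝ) < q := Nat.cast_pos.2 (Nat.pos_of_ne_zero h1)
    have h6 : (p : ℝ) * d + q < p' * d := by exact_mod_cast h2
    have h7 : (p : ℝ) / q + 1 / d < p' / q := by
      rw [div_add_div _ _ hq'.ne' hd'.ne', div_lt_div_iff₀ (by positivity) hq']
      nlinarith
    linarith

theorem class_false (U : UF X) : (fun _ => False) = fun z => El U z (fm U ∅) :=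
  class_eq MeasurableSet.empty (fun _ => False.elim) fun _ _ =>
    ⟨False.elim, fun h => h.exists.elim fun _ h => h⟩

theorem measLe_false {U : UF X} {F : Set (X × Can)} (hF : MeasurableSet F) {d : ℕ} (hd : d ≠ 0) :
    MeasLe (El U) (om U) (fun z => El U z (fm U F)) (fun _ => False) (num U d) ↔
      Ae U fun x => lam.real (sec F x) ≤ 1 / d := by
  rw [class_false, measLe_iff hF MeasurableSet.empty hd]
  simp [sec]

theorem null_of_ae {U : UF X} {F G : Set (X × Can)} (hF : MeasurableSet F) (hG : MeasurableSet G)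
    (h : Ae U fun x => sec F x =ᵐ[lam] sec G x) :
    Null (El U) (om U) fun z => ¬ (El U z (fm U F) ↔ El U z (fm U G)) := by
  have hm : MeasurableSet (symmDiff F G) := hF.symmDiff hG
  have e : (fun z => ¬ (El U z (fm U F) ↔ El U z (fm U G))) =
      fun z => El U z (fm U (symmDiff F G)) := by
    refine class_eq hm (fun z hz => ?_) fun g hg => ?_
    · by_contra hc
      exact hz (iff_of_false (fun h => hc (fam_subs h)) fun h => hc (fam_subs h))
    · rw [el_fam hF hg, el_fam hG hg]
      simp only [mem_symmDiff, Ae, Ultrafilter.eventually_or, eventually_and,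
        Ultrafilter.eventually_not]
      tauto
  rw [e]
  have h0 : Ae U fun x => lam.real (sec (symmDiff F G) x) = 0 := h.mono fun x hx => by
    have : sec (symmDiff F G) x = symmDiff (sec F x) (sec G x) := rfl
    rw [this, Measure.real, measure_symmDiff_eq_zero_iff.2 hx]
    rfl
  have := tr_ae (p := fun x => lam.real (sec (symmDiff F G) x) = 0)
    (measurableSet_eq_fun (meas_real_sec hm) measurable_const)
  intro d hd
  refine all_om (fun U d => (Ae U fun x => lam.real (sec (symmDiff F G) x) = 0) → ¬ Emp (El U) d →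
    MeasLe (El U) (om U) (fun z => El U z (fm U (symmDiff F G))) (fun _ => False) d)
    (fun d U h0 hd => ?_) hd h0
  rw [emp_num_iff] at hd
  exact (measLe_false hm hd).2 (h0.mono fun x hx => by rw [hx]; positivity)

theorem atom_iff {U : UF X} {g h : X → Can} (hg : Measurable g) (hh : Measurable h) (n : ℕ) :
    Atom (El U) (om U) (num U n) (rl U g) (rl U h) ↔ Ae U fun x => h x ∈ cy (n + 1) (g x) := by
  rw [Atom, and_iff_right (subs_rl U h)]
  simp only [← succ_num U n _]
  exact agree_iff hh hg (n + 1)

theorem good_iff {U : UF X} {F : Set (X × Can)} (hF : MeasurableSet F) {g : X → Can}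
    (hg : Measurable g) {k n : ℕ} (hk : k ≠ 0) (hn : n ≠ 0) :
    Good (El U) (om U) (num U k) (num U n) (rl U g) (fm U F) ↔
      Ae U fun x => GoodR (1 / k) n (g x) (sec F x) := by
  have hC : MeasurableSet (cyF (n + 1) g) := (openFam_cyF hg _).1.measurableSet
  have hV : ∀ m b, MeasurableSet {p : X × Can | p.2 m = b} := fun m b =>
    measurable_snd (meas_coord' m b)
  have e1 : ∀ U : UF X, (fun z => El U z (fm U F) ∧ Atom (El U) (om U) (num U n) (rl U g) z) =
      fun z => El U z (fm U (F ∩ cyF (n + 1) g)) := fun U =>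
    class_eq (hF.inter hC) (fun z hz => hz.2.1) fun h hh => by
      rw [el_fam hF hh, atom_iff hg hh]; exact eventually_and.symm
  have e2 : ∀ U : UF X, (fun z => Atom (El U) (om U) (num U n) (rl U g) z ∧ ¬ El U z (fm U F)) =
      fun z => El U z (fm U (cyF (n + 1) g \ F)) := fun U =>
    class_eq (hC.diff hF) (fun z hz => hz.1.1) fun h hh => by
      rw [el_fam hF hh, atom_iff hg hh, ← Ultrafilter.eventually_not]; exact eventually_and.symm
  have e3 : ∀ (U : UF X) m, (fun z => El U z (fm U F) ∧
      Atom (El U) (om U) (num U n) (rl U g) z ∧ El U (num U m) z) =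
      fun z => El U z (fm U ((F ∩ cyF (n + 1) g) ∩ {p | p.2 m = true})) := fun U m =>
    class_eq ((hF.inter hC).inter (hV m _)) (fun z hz => hz.2.1.1) fun h hh => by
      rw [el_fam hF hh, atom_iff hg hh, el_rl hh, ← and_assoc, ← eventually_and,
        ← eventually_and]
      rfl
  have e4 : ∀ (U : UF X) m, (fun z => El U z (fm U F) ∧
      Atom (El U) (om U) (num U n) (rl U g) z ∧ ¬ El U (num U m) z) =
      fun z => El U z (fm U ((F ∩ cyF (n + 1) g) ∩ {p | p.2 m = false})) := fun U m =>
    class_eq ((hF.inter hC).inter (hV m _)) (fun z hz => hz.2.1.1) fun h hh => by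
      rw [el_fam hF hh, atom_iff hg hh, el_rl hh, ← Ultrafilter.eventually_not, ← and_assoc,
        ← eventually_and, ← eventually_and]
      simp only [Bool.not_eq_true]
      rfl
  have hval : ∀ m : ℕ, (1 : ℝ) / (k * m * 2 ^ (n + 1) : ℕ) = 1 / k * (1 / 2) ^ (n + 1) / m := by
    intro m
    push_cast
    rw [one_div_pow]
    ring
  have hne : ∀ m : ℕ, m ≠ 0 → k * m * 2 ^ (n + 1) ≠ 0 := fun m hm => by positivity
  unfold Good GoodR
  rw [Ae, eventually_and]
  refine and_congr ?_ ?_
  · rw [all_om_iff (fun U d => Den (El U) (om U) (num U k) (num U n) (num U n) d →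
      MeasLe (El U) (om U) (fun x => El U x (fm U F) ∧ Atom (El U) (om U) (num U n) (rl U g) x)
        (fun _ => False) d ∨
      MeasLe (El U) (om U) (fun x => Atom (El U) (om U) (num U n) (rl U g) x ∧ ¬ El U x (fm U F))
        (fun _ => False) d) (q := fun d x => k * n * 2 ^ (n + 1) = d →
        (lam.real (sec F x ∩ cy (n + 1) (g x)) ≤ 1 / k * (1 / 2) ^ (n + 1) / n ∨
          lam.real (cy (n + 1) (g x) \ sec F x) ≤ 1 / k * (1 / 2) ^ (n + 1) / n))]
    · simp only [forall_eq']
    · intro d U
      rw [den_iff]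
      by_cases hd : k * n * 2 ^ (n + 1) = d
      · subst hd
        rw [e1, e2, measLe_false (hF.inter hC) (hne n hn), measLe_false (hC.diff hF) (hne n hn),
          hval]
        simp only [forall_const]
        exact Ultrafilter.eventually_or.symm
      · simp [hd]
  · have key : ∀ (m : ℕ) (U : UF X), (∀ d, El U d (om U) → El U (num U n) (num U m) →
        Den (El U) (om U) (num U k) (num U m) (num U n) d →
        MeasLe (El U) (om U) (fun x => El U x (fm U F) ∧
            Atom (El U) (om U) (num U n) (rl U g) x ∧ ¬ El U (num U m) x)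
          (fun x => El U x (fm U F) ∧
            Atom (El U) (om U) (num U n) (rl U g) x ∧ El U (num U m) x) d ∧
        MeasLe (El U) (om U) (fun x => El U x (fm U F) ∧
            Atom (El U) (om U) (num U n) (rl U g) x ∧ El U (num U m) x)
          (fun x => El U x (fm U F) ∧
            Atom (El U) (om U) (num U n) (rl U g) x ∧ ¬ El U (num U m) x) d) ↔
        Ae U fun x => n < m →
          |psi m (sec F x ∩ cy (n + 1) (g x))| ≤ 1 / k * (1 / 2) ^ (n + 1) / m := by
      intro m U
      rw [all_om_iff (fun U d => El U (num U n) (num U m) →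
        Den (El U) (om U) (num U k) (num U m) (num U n) d →
        MeasLe (El U) (om U) (fun x => El U x (fm U F) ∧
            Atom (El U) (om U) (num U n) (rl U g) x ∧ ¬ El U (num U m) x)
          (fun x => El U x (fm U F) ∧
            Atom (El U) (om U) (num U n) (rl U g) x ∧ El U (num U m) x) d ∧
        MeasLe (El U) (om U) (fun x => El U x (fm U F) ∧
            Atom (El U) (om U) (num U n) (rl U g) x ∧ El U (num U m) x)
          (fun x => El U x (fm U F) ∧
            Atom (El U) (om U) (num U n) (rl U g) x ∧ ¬ El U (num U m) x) d)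
        (q := fun d x => k * m * 2 ^ (n + 1) = d → n < m →
          |psi m (sec F x ∩ cy (n + 1) (g x))| ≤ 1 / k * (1 / 2) ^ (n + 1) / m)]
      · simp only [forall_eq']
      · intro d U
        rw [den_iff, num_el_num]
        by_cases hd : k * m * 2 ^ (n + 1) = d
        · subst hd
          by_cases hm : n < m
          · have hm' := hne m (by omega)
            rw [e3, e4, measLe_iff ((hF.inter hC).inter (hV m _)) ((hF.inter hC).inter (hV m _)) hm',
              measLe_iff ((hF.inter hC).inter (hV m _)) ((hF.inter hC).inter (hV m _)) hm', hval]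
            simp only [hm, forall_const]
            rw [← eventually_and]
            refine eventually_congr (Eventually.of_forall fun x => ?_)
            rw [psi, abs_sub_le_iff, sub_le_iff_le_add', sub_le_iff_le_add']
            rfl
          · simp [hm]
        · simp [hd]
    refine Iff.trans ?_ (all_om_iff (fun U m => ∀ d, El U d (om U) → El U (num U n) m →
        Den (El U) (om U) (num U k) m (num U n) d →
        MeasLe (El U) (om U) (fun x => El U x (fm U F) ∧
            Atom (El U) (om U) (num U n) (rl U g) x ∧ ¬ El U m x)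
          (fun x => El U x (fm U F) ∧ Atom (El U) (om U) (num U n) (rl U g) x ∧ El U m x) d ∧
        MeasLe (El U) (om U) (fun x => El U x (fm U F) ∧
            Atom (El U) (om U) (num U n) (rl U g) x ∧ El U m x)
          (fun x => El U x (fm U F) ∧ Atom (El U) (om U) (num U n) (rl U g) x ∧ ¬ El U m x) d)
      key U)
    exact ⟨fun h m hm d hd => h m d hm hd, fun h m d hm hd => h m hm d hd⟩

end Pool.Agent.Lib.MP_898cae_lc
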