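import Pool.Agent.Lib.MP_898cae_lc.Meas

/-!
Elementary estimates for the product measure and the functionals `psi m`.
-/

open Set Filter MeasureTheory ProbabilityTheory

namespace Pool.Agent.Lib.MP_898cae_lc

theorem real_split (m : ℕ) (A : Set Can) :
    lam.real A = lam.real (A ∩ {z | z m = false}) + lam.real (A ∩ {z | z m = true}) := by
  rw [← measureReal_inter_add_sdiff (μ := lam) (s := A) (meas_coord' m false)]
  congr 2
  ext z
  simp

theorem abs_psi_le (m : ℕ) (A : Set Can) : |psi m A| ≤ lam.real A := by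
  rw [real_split m A, psi, abs_le]
  constructor <;> linarith [measureReal_nonneg (μ := lam) (s := A ∩ {z | z m = false}),
    measureReal_nonneg (μ := lam) (s := A ∩ {z | z m = true})]

theorem psi_split (m : ℕ) (A : Set Can) {B : Set Can} (hB : MeasurableSet B) :
    psi m A = psi m (A ∩ B) + psi m (A \ B) := by
  have h : ∀ V : Set Can, lam.real (A ∩ V) = lam.real (A ∩ B ∩ V) + lam.real ((A \ B) ∩ V) := by
    intro V
    rw [← measureReal_inter_add_sdiff (μ := lam) (s := A ∩ V) hB, inter_right_comm,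
      inter_sdiff_right_comm]
  simp only [psi]
  rw [h, h]
  ring

theorem psi_empty (m : ℕ) : psi m ∅ = 0 := by simp [psi]

theorem abs_psi_sub_le (m : ℕ) {A B : Set Can} (hA : MeasurableSet A) (hB : MeasurableSet B) :
    |psi m A - psi m B| ≤ lam.real (symmDiff A B) := by
  rw [psi_split m A hB, psi_split m B hA, inter_comm B A, measureReal_symmDiff_eq hA hB]
  have h1 := abs_psi_le m (A \ B)
  have h2 := abs_psi_le m (B \ A)
  rw [abs_le] at h1 h2 ⊢
  constructor <;> linarith [h1.1, h1.2, h2.1, h2.2]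

theorem psi_congr (m : ℕ) {A B : Set Can} (h : A =ᵐ[lam] B) : psi m A = psi m B := by
  simp only [psi]
  rw [measureReal_congr (h.inter EventuallyEq.rfl), measureReal_congr (h.inter EventuallyEq.rfl)]

theorem GoodR.congr {ε : ℝ} {n : ℕ} {y : Can} {A B : Set Can} (h : A =ᵐ[lam] B)
    (hA : GoodR ε n y A) : GoodR ε n y B := by
  unfold GoodR at hA ⊢
  rw [← measureReal_congr (h.inter EventuallyEq.rfl),
    ← measureReal_congr (EventuallyEq.rfl.diff h)]
  refine ⟨hA.1, fun m hm => ?_⟩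
  rw [← psi_congr m (h.inter EventuallyEq.rfl)]
  exact hA.2 m hm

theorem GoodR.mono {ε ε' : ℝ} {n : ℕ} {y : Can} {A : Set Can} (hA : GoodR ε n y A) (h : ε ≤ ε') :
    GoodR ε' n y A := by
  have key : ∀ m : ℕ, ε * (1 / 2) ^ (n + 1) / m ≤ ε' * (1 / 2) ^ (n + 1) / m := fun m => by
    gcongr
  exact ⟨hA.1.imp (fun h => h.trans (key n)) fun h => h.trans (key n),
    fun m hm => (hA.2 m hm).trans (key m)⟩

theorem real_le_one' (A : Set Can) : lam.real A ≤ 1 := measureReal_le_one

theorem sum_bound {N : ℕ} {E A : Set Can} (hE : Det N E) (hA : MeasurableSet A) {δ : ℝ}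
    (hδ : 0 ≤ δ) (h : ∀ z ∈ E, lam.real (A ∩ cy N z) ≤ δ * (1 / 2) ^ N) :
    lam.real (A ∩ E) ≤ δ := by
  classical
  rw [hE.real_inter hA]
  refine (Finset.sum_le_card_nsmul _ _ _ fun s hs => h _ (Finset.mem_filter.1 hs).2).trans ?_
  rw [nsmul_eq_mul, mul_left_comm, ← hE.real_eq]
  exact mul_le_of_le_one_right hδ (real_le_one' E)

theorem psi_sum_bound {N m : ℕ} {E A : Set Can} (hE : Det N E) (hA : MeasurableSet A) {δ : ℝ}
    (hδ : 0 ≤ δ) (h : ∀ z ∈ E, |psi m (A ∩ cy N z)| ≤ δ * (1 / 2) ^ N) :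
    |psi m (A ∩ E)| ≤ δ := by
  classical
  have e : psi m (A ∩ E) = ∑ s ∈ (Finset.range N).powerset with ind s ∈ E,
      psi m (A ∩ cy N (ind s)) := by
    simp only [psi]
    rw [Finset.sum_sub_distrib, inter_right_comm, inter_right_comm A E,
      hE.real_inter (hA.inter (meas_coord' m _)), hE.real_inter (hA.inter (meas_coord' m _))]
    simp only [inter_right_comm A]
  rw [e]
  refine (Finset.abs_sum_le_sum_abs _ _).trans ?_
  refine (Finset.sum_le_card_nsmul _ _ _ fun s hs => h _ (Finset.mem_filter.1 hs).2).trans ?_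
  rw [nsmul_eq_mul, mul_left_comm, ← hE.real_eq]
  exact mul_le_of_le_one_right hδ (real_le_one' E)

/-- Translation in the Cantor group. -/
def flip (w : Can) (z : Can) : Can := fun k => xor (z k) (w k)

theorem flip_flip (w z : Can) : flip w (flip w z) = z := by
  funext k
  simp [flip]

theorem measurable_flip (w : Can) : Measurable (flip w) :=
  measurable_pi_iff.2 fun k => (measurable_from_top (f := fun b => xor b (w k))).comp
    (measurable_pi_apply k)

theorem lam_flip (w : Can) {S : Set Can} (hS : MeasurableSet S) :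
    lam.real (flip w ⁻¹' S) = lam.real S := by
  have h : lam.map (flip w) = lam := by
    unfold lam
    refine (Measure.infinitePi_map_pi (fun _ : ℕ => uniformOn (univ : Set Bool))
      (f := fun k b => xor b (w k)) fun _ => measurable_from_top).trans ?_
    congr 1
    funext k
    refine Measure.ext_of_singleton fun b => ?_
    rw [Measure.map_apply measurable_from_top (measurableSet_singleton _)]
    have : (fun b => xor b (w k)) ⁻¹' {b} = {xor b (w k)} := by
      ext c
      cases c <;> cases b <;> cases w k <;> simp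
    rw [this, uniformOn_univ, uniformOn_univ]
    simp
  rw [Measure.real, ← Measure.map_apply (measurable_flip w) hS, h, Measure.real]

theorem psi_flip {w : Can} {m : ℕ} (hw : w m = true) {S : Set Can} (hS : MeasurableSet S) :
    psi m (flip w ⁻¹' S) = -psi m S := by
  have h : ∀ b, flip w ⁻¹' S ∩ {z | z m = b} = flip w ⁻¹' (S ∩ {z | z m = !b}) := by
    intro b
    ext z
    cases b <;> simp [flip, hw]
  simp only [psi]
  rw [h, h, lam_flip w (hS.inter (meas_coord' _ _)), lam_flip w (hS.inter (meas_coord' _ _))]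
  simp

theorem Det.flip {N : ℕ} {K : Set Can} (h : Det N K) (w : Can) : Det N (flip w ⁻¹' K) :=
  fun _ hy _ hz => h _ hy fun k hk => by simp only [MP_898cae_lc.flip, hz k hk]

theorem psi_cy {N m : ℕ} (h : N ≤ m) (y : Can) : psi m (cy N y) = 0 := by
  have h1 := psi_flip (w := fun k => decide (k = m)) (m := m) (by simp) (meas_cy N y)
  have h2 : flip (fun k => decide (k = m)) ⁻¹' cy N y = cy N y := by
    ext z
    refine forall₂_congr fun k hk => ?_
    have : k ≠ m := by omega
    simp [flip, this]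
  rw [h2] at h1
  linarith

theorem real_cy_half {N m : ℕ} (h : N ≤ m) (y : Can) :
    lam.real (cy N y ∩ {z | z m = false}) = (1 / 2) ^ N / 2 := by
  have h1 := psi_cy h y
  have h2 := real_split m (cy N y)
  rw [lam_real_cy] at h2
  rw [psi] at h1
  linarith

theorem det_coord {N m : ℕ} (h : m < N) (b : Bool) : Det N {z | z m = b} :=
  fun _ hy _ hz => (hz m h).trans hy

theorem psi_symmDiff (m : ℕ) {Z K E : Set Can} (hK : MeasurableSet K) (hE : MeasurableSet E)
    (h : E ⊆ K ∨ E ⊆ Kᶜ) :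
    |psi m (Z ∩ symmDiff K E) - psi m (Z ∩ K)| = |psi m (Z ∩ E)| := by
  rcases h with h | h
  · rw [psi_split m (Z ∩ K) hE]
    have e1 : Z ∩ symmDiff K E = (Z ∩ K) \ E := by
      ext z
      have := @h z
      simp only [mem_inter_iff, mem_symmDiff, Set.mem_sdiff]
      tauto
    have e2 : Z ∩ K ∩ E = Z ∩ E := by
      ext z
      have := @h z
      simp only [mem_inter_iff]
      tauto
    rw [e1, e2, ← abs_neg]
    congr 1
    ring
  · rw [psi_split m (Z ∩ symmDiff K E) hK]
    have e1 : Z ∩ symmDiff K E ∩ K = Z ∩ K := by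
      ext z
      have := @h z
      simp only [mem_inter_iff, mem_symmDiff, mem_compl_iff] at this ⊢
      tauto
    have e2 : (Z ∩ symmDiff K E) \ K = Z ∩ E := by
      ext z
      have := @h z
      simp only [mem_inter_iff, mem_symmDiff, mem_compl_iff, Set.mem_sdiff] at this ⊢
      tauto
    rw [e1, e2]
    congr 1
    ring

/-- Condition (T.1) for all atoms. -/
def T1 (ε : ℝ) (n : ℕ) (A : Set Can) : Prop :=
  ∀ y, lam.real (A ∩ cy (n + 1) y) ≤ ε * (1 / 2) ^ (n + 1) / n ∨
    lam.real (cy (n + 1) y \ A) ≤ ε * (1 / 2) ^ (n + 1) / n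

theorem T1.compl {ε : ℝ} {n : ℕ} {A : Set Can} (h : T1 ε n A) : T1 ε n Aᶜ := by
  intro y
  rw [sdiff_compl, inter_comm Aᶜ, ← sdiff_eq, inter_comm]
  exact (h y).symm

/-- The union of the atoms that are almost contained in `A`. -/
def hat (ε : ℝ) (n : ℕ) (A : Set Can) : Set Can :=
  {z | lam.real (cy (n + 1) z \ A) ≤ ε * (1 / 2) ^ (n + 1) / n}

theorem det_hat (ε : ℝ) (n : ℕ) (A : Set Can) : Det (n + 1) (hat ε n A) := fun y hy z hz => by
  rw [hat, mem_ofPred_eq, cy_eq_of_mem hz]
  exact hy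

theorem hat_sdiff {ε : ℝ} (hε : 0 ≤ ε) (n : ℕ) {A : Set Can} (hA : MeasurableSet A) :
    lam.real (hat ε n A \ A) ≤ ε / n := by
  rw [sdiff_eq, inter_comm]
  refine sum_bound (det_hat ε n A) hA.compl (by positivity) fun z hz => ?_
  rw [inter_comm, ← sdiff_eq, div_mul_eq_mul_div]
  exact hz

theorem sdiff_hat {ε : ℝ} (hε : 0 ≤ ε) {n : ℕ} {A : Set Can} (hA : MeasurableSet A)
    (h : T1 ε n A) : lam.real (A \ hat ε n A) ≤ ε / n := by
  refine sum_bound (det_hat ε n A).compl hA (by positivity) fun z hz => ?_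
  rw [div_mul_eq_mul_div]
  exact (h z).resolve_right hz

theorem exists_full {ε : ℝ} (hε : 0 ≤ ε) {L t : ℕ} (hL : 0 < L) {S : ℕ → Set Can} {B E Y : Set Can}
    (hE : Det (L + 1) E) (hY : MeasurableSet Y) (hS : ∀ i < t, T1 ε L (S i)) (hB : T1 ε L B)
    (h1 : ∀ i < t, Y ⊆ S i) (h2 : Y ⊆ B) (h3 : Y ⊆ E) (h4 : ε < lam.real Y) :
    ∃ z ∈ E, (∀ i < t, z ∈ hat ε L (S i)) ∧ z ∈ hat ε L B := by
  by_contra hc
  push Not at hc
  have hL' : (1 : ℝ) ≤ L := Nat.one_le_cast.2 hL
  have key : ∀ A, T1 ε L A → Y ⊆ A → ∀ z, z ∉ hat ε L A →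
      lam.real (Y ∩ cy (L + 1) z) ≤ ε * (1 / 2) ^ (L + 1) := by
    intro A hA hYA z hz
    refine (measureReal_mono (inter_subset_inter_left _ hYA)).trans
      (((hA z).resolve_right hz).trans ?_)
    exact div_le_self (by positivity) hL'
  have := sum_bound hE hY hε fun z hz => by
    by_cases h : ∀ i < t, z ∈ hat ε L (S i)
    · exact key B hB h2 z (hc z hz h)
    · push Not at h
      obtain ⟨i, hi, h⟩ := h
      exact key _ (hS i hi) (h1 i hi) z h
  rw [inter_eq_left.2 h3] at this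
  linarith

theorem cy_sdiff_hats {ε ε' : ℝ} (hε : 0 ≤ ε) (hε' : 0 ≤ ε') {L l t : ℕ} (hL : 0 < L) (hl : 0 < l)
    {S : ℕ → Set Can} {B : Set Can} (hSm : ∀ i, MeasurableSet (S i)) (hBm : MeasurableSet B)
    (hS : ∀ i < t, T1 ε' l (S i)) (hB : T1 ε' l B) {y : Can}
    (h1 : ∀ i < t, y ∈ hat ε L (S i)) (h2 : y ∈ hat ε L B) :
    lam.real (cy (L + 1) y \ ((⋂ i ∈ Finset.range t, hat ε' l (S i)) ∩ hat ε' l B)) ≤
      (t + 1) * (ε * (1 / 2) ^ (L + 1) + ε') := by
  have hL' : (1 : ℝ) ≤ L := Nat.one_le_cast.2 hL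
  have hl' : (1 : ℝ) ≤ l := Nat.one_le_cast.2 hl
  have key : ∀ A, MeasurableSet A → T1 ε' l A → y ∈ hat ε L A →
      lam.real (cy (L + 1) y \ hat ε' l A) ≤ ε * (1 / 2) ^ (L + 1) + ε' := by
    intro A hA hT hy
    have : cy (L + 1) y \ hat ε' l A ⊆ (cy (L + 1) y \ A) ∪ (A \ hat ε' l A) := fun z hz => by
      by_cases h : z ∈ A
      exacts [Or.inr ⟨h, hz.2⟩, Or.inl ⟨hz.1, h⟩]
    refine (measureReal_mono this).trans ((measureReal_union_le _ _).trans (add_le_add ?_ ?_))
    · exact le_trans hy (div_le_self (by positivity) hL')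
    · exact (sdiff_hat hε' hA hT).trans (div_le_self hε' hl')
  have hsub : cy (L + 1) y \ ((⋂ i ∈ Finset.range t, hat ε' l (S i)) ∩ hat ε' l B) ⊆
      (⋃ i ∈ Finset.range t, cy (L + 1) y \ hat ε' l (S i)) ∪ (cy (L + 1) y \ hat ε' l B) := by
    rintro z ⟨h3, h4⟩
    by_cases h : z ∈ hat ε' l B
    · have : z ∉ ⋂ i ∈ Finset.range t, hat ε' l (S i) := fun h' => h4 ⟨h', h⟩
      simp only [mem_iInter, not_forall] at this
      obtain ⟨i, hi, h5⟩ := this
      exact Or.inl (mem_iUnion₂.2 ⟨i, hi, h3, h5⟩)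
    · exact Or.inr ⟨h3, h⟩
  refine (measureReal_mono hsub).trans ((measureReal_union_le _ _).trans ?_)
  have h5 := (measureReal_biUnion_finset_le (μ := lam) (Finset.range t)
    fun i => cy (L + 1) y \ hat ε' l (S i)).trans (Finset.sum_le_card_nsmul _ _ _
      fun i hi => key _ (hSm i) (hS i (Finset.mem_range.1 hi)) (h1 i (Finset.mem_range.1 hi)))
  rw [Finset.card_range, nsmul_eq_mul] at h5
  have h6 := key B hBm hB h2
  linarith

end Pool.Agent.Lib.MP_898cae_lc
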