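import Pool.Agent.Lib.MP_898cae_lc.Kill

/-!
The generalised Cantor cube satisfies the standing assumptions.
-/

open Set Filter MeasureTheory ProbabilityTheory Topology

namespace Pool.Agent.Lib.MP_898cae_lc

variable {ι : Type}

/-- A basic open set of the cube. -/
def box (s : Finset ι) (x : ι → Bool) : Set (ι → Bool) := {y | ∀ i ∈ s, y i = x i}

theorem self_mem_box (s : Finset ι) (x : ι → Bool) : x ∈ box s x := fun _ _ => rfl

theorem box_eq_pi (s : Finset ι) (x : ι → Bool) :
    box s x = Set.pi (s : Set ι) (fun k => {x k}) := by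
  ext y
  simp [box]

theorem isOpen_box (s : Finset ι) (x : ι → Bool) : IsOpen (box s x) := by
  rw [box_eq_pi]
  exact isOpen_set_pi s.finite_toSet fun _ _ => isOpen_discrete _

theorem meas_box (s : Finset ι) (x : ι → Bool) : MeasurableSet (box s x) := by
  rw [box_eq_pi]
  exact MeasurableSet.pi s.countable_toSet fun _ _ => measurableSet_singleton _

theorem exists_box {u : Set (ι → Bool)} (hu : IsOpen u) {x : ι → Bool} (hx : x ∈ u) :
    ∃ s, box s x ⊆ u := by
  obtain ⟨I, v, hv, hsub⟩ := isOpen_pi_iff.1 hu x hx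
  refine ⟨I, fun y hy => hsub fun k hk => ?_⟩
  rw [hy k hk]
  exact (hv k hk).2

theorem box_anti {s t : Finset ι} (h : s ⊆ t) (x : ι → Bool) : box t x ⊆ box s x :=
  fun _ hy i hi => hy i (h hi)

theorem dense_boxes (C : Set (Set (ι → Bool))) (hC : ∀ s ∈ C, IsOpen s) :
    ∃ D : Set (Set (ι → Bool)), D.Countable ∧
      (∀ d ∈ D, IsOpen d ∧ MeasurableSet d ∧ ∃ u ∈ C, d ⊆ u) ∧ ⋃₀ C ⊆ closure (⋃₀ D) := by
  let μ : Measure (ι → Bool) := Measure.infinitePi fun _ => uniformOn (univ : Set Bool)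
  have hμ : ∀ s x, μ (box s x) ≠ 0 := by
    intro s x
    rw [box_eq_pi, Measure.infinitePi_pi _ (fun i _ => measurableSet_singleton _)]
    refine Finset.prod_ne_zero_iff.2 fun i _ => ?_
    rw [uniformOn_univ]
    simp
  obtain ⟨D, hD, hc, h⟩ := Measure.exists_ae_subset_biUnion_countable μ
    (C := {d | (∃ s x, d = box s x) ∧ ∃ u ∈ C, d ⊆ u})
    (by rintro _ ⟨⟨s, x, rfl⟩, -⟩; exact meas_box s x)
  refine ⟨D, hc, fun d hd => ?_, ?_⟩
  · obtain ⟨⟨s, x, rfl⟩, h⟩ := hD hd
    exact ⟨isOpen_box s x, meas_box s x, h⟩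
  · rintro x ⟨u, hu, hx⟩
    by_contra hcl
    obtain ⟨s, hs⟩ := exists_box ((hC u hu).inter isClosed_closure.isOpen_compl) ⟨hx, hcl⟩
    have h1 := h (box s x) ⟨⟨s, x, rfl⟩, u, hu, hs.trans inter_subset_left⟩
    rw [ae_le_set] at h1
    refine hμ s x (measure_mono_null (fun y hy => ?_) h1)
    exact ⟨hy, fun h => (hs hy).2 (subset_closure h)⟩

instance cat_cube : Cat (ι → Bool) where
  baire := inferInstance
  nonempty := inferInstance
  meas_bp := fun s hs => by
    have h : @MeasurableSet _ (borel (ι → Bool)) s := pi_le_borel_pi s hs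
    have h' : BaireMeasurableSet s := by
      let _ := borel (ι → Bool)
      have : BorelSpace (ι → Bool) := ⟨rfl⟩
      exact h.baireMeasurableSet
    obtain ⟨u, hu, h1⟩ := h'.residualEq_isOpen
    exact ⟨u, hu, eventuallyEq_set.1 h1⟩
  ccc := fun C hC => by
    obtain ⟨D, h1, h2, h3⟩ := dense_boxes C hC
    choose! f hf hf' using fun d hd => (h2 d hd).2.2
    refine ⟨f '' D, ?_, h1.image f, h3.trans (closure_mono ?_)⟩
    · rintro _ ⟨d, hd, rfl⟩
      exact hf d hd
    · rintro x ⟨d, hd, hx⟩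
      exact ⟨_, ⟨d, hd, rfl⟩, hf' d hd hx⟩
  open_meas := fun u hu => by
    obtain ⟨D, h1, h2, h3⟩ := dense_boxes {u} (by simpa using hu)
    refine ⟨⋃₀ D, MeasurableSet.sUnion h1 fun d hd => (h2 d hd).2.1, ?_⟩
    filter_upwards [open_union_residual (isOpen_sUnion fun d hd => (h2 d hd).1)] with x hx
    constructor
    · rintro ⟨d, hd, hx⟩
      obtain ⟨_, rfl, h⟩ := (h2 d hd).2.2
      exact h hx
    · exact fun h => hx.resolve_right fun h' => h' (h3 ⟨u, rfl, h⟩)

theorem exists_open_of_ae {X : Type} [TopologicalSpace X] [MeasurableSpace X] [Cat X]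
    {κ : Type} [Countable κ] {V : Set X} (hV : IsOpen V) (hne : V.Nonempty) {Z : κ → Set X}
    (hZ : ∀ j, MeasurableSet (Z j)) (h : ∀ᶠ x in residual X, x ∈ V → ∃ j, x ∈ Z j) :
    ∃ j V', IsOpen V' ∧ V'.Nonempty ∧ V' ⊆ V ∧ ∀ᶠ x in residual X, x ∈ V' → x ∈ Z j := by
  have := Cat.baire (X := X)
  choose u hu hu' using fun j => Cat.meas_bp (Z j) (hZ j)
  have h1 : ∀ᶠ x in residual X, ∀ j, (x ∈ Z j ↔ x ∈ u j) := eventually_countable_forall.2 hu'
  obtain ⟨x, hx, h2, h3⟩ := (dense_of_mem_residual (h.and h1)).inter_open_nonempty V hV hne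
  obtain ⟨j, hj⟩ := h2 hx
  refine ⟨j, V ∩ u j, hV.inter (hu j), ⟨x, hx, (h3 j).1 hj⟩, inter_subset_left, ?_⟩
  filter_upwards [hu' j] with y hy hy' using hy.2 hy'.2

/-- Translation in the cube. -/
def cubeFlip (w : ι → Bool) : (ι → Bool) ≃ₜ (ι → Bool) where
  toFun x i := xor (x i) (w i)
  invFun x i := xor (x i) (w i)
  left_inv x := by funext i; simp
  right_inv x := by funext i; simp
  continuous_toFun := continuous_pi fun i =>
    (continuous_of_discreteTopology (f := fun b => xor b (w i))).comp (continuous_apply i)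
  continuous_invFun := continuous_pi fun i =>
    (continuous_of_discreteTopology (f := fun b => xor b (w i))).comp (continuous_apply i)

theorem cubeFlip_residual (w : ι → Bool) {p : (ι → Bool) → Prop}
    (h : ∀ᶠ x in residual (ι → Bool), p x) : ∀ᶠ x in residual (ι → Bool), p (cubeFlip w x) :=
  (tendsto_residual_of_isOpenMap (cubeFlip w).continuous (cubeFlip w).isOpenMap).eventually h

theorem coord_ne {i j : ι} (h : i ≠ j) : ∀ᶠ x in residual (ι × ℕ × ℕ → Bool),
    (fun k => x (i, 0, k)) ≠ fun k => x (j, 0, k) := by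
  classical
  refine residual_of_dense_open ?_ ?_
  · have hc : ∀ i : ι, Continuous fun (x : ι × ℕ × ℕ → Bool) (k : ℕ) => x (i, 0, k) :=
      fun i => continuous_pi fun k => continuous_apply _
    exact (isClosed_eq (hc i) (hc j)).isOpen_compl
  · refine dense_iff_inter_open.2 fun u hu ⟨x, hx⟩ => ?_
    obtain ⟨s, hs⟩ := exists_box hu hx
    obtain ⟨K, hK⟩ : ∃ K, ∀ p ∈ s, p.2.2 < K :=
      ⟨s.sup (fun p => p.2.2) + 1, fun p hp =>
        Nat.lt_succ_of_le (Finset.le_sup (f := fun p : ι × ℕ × ℕ => p.2.2) hp)⟩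
    refine ⟨Function.update x (i, 0, K) (!x (j, 0, K)), hs fun p hp => ?_, fun e => ?_⟩
    · refine Function.update_of_ne (fun e => ?_) _ _
      have := hK p hp
      rw [e] at this
      exact lt_irrefl _ this
    · have := congrFun e K
      simp [h.symm] at this

theorem exists_omega1 : ∃ (W : Type) (_ : LinearOrder W) (_ : WellFoundedLT W),
    Uncountable W ∧ ∀ a : W, (Iio a).Countable := by
  refine ⟨(Cardinal.aleph 1).ord.ToType, inferInstance, inferInstance, ?_, fun a => ?_⟩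
  · rw [← Cardinal.aleph0_lt_mk_iff, Cardinal.mk_ord_toType]
    exact Cardinal.aleph0_lt_aleph_one
  · rw [← Cardinal.le_aleph0_iff_set_countable, ← Order.lt_succ_iff, Cardinal.succ_aleph0]
    simpa using Cardinal.mk_Iio_lt a

end Pool.Agent.Lib.MP_898cae_lc
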