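import Pool.Agent.Lib.MP_898cae_lc.Cov

/-!
The generic generators are new, so the algebra they generate has exactly `ℵ₁` members.
-/

open Set Filter MeasureTheory Topology
open Pool.Agent.Lib.MP_e0f6ac_lc

namespace Pool.Agent.Lib.MP_898cae_lc

/-- A legitimate move that keeps the limit set away from `B`. -/
def Sep (G : ℕ → Set Can) (B : Set Can) (t : ℕ) (s s' : St) : Prop :=
  Legit G t s s' ∧ (1 / 2 : ℝ) ^ (s'.1 + 1) / 2 ≤ lam.real (symmDiff (KK s') B)

theorem exists_sep (G : ℕ → Set Can) (B : Set Can) (t : ℕ) (s : St)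
    (hT : ∀ N (ε : ℝ), 0 < ε → ∃ l, N ≤ l ∧ GoodF ε l G t) : ∃ s', Sep G B t s s' := by
  set η : ℝ := (1 / 2) ^ t * (1 / 2) ^ (s.1 + 1) with hη
  have hη0 : 0 < η := by positivity
  obtain ⟨N, hN⟩ := exists_level_small hη0
  obtain ⟨l, hl, hg⟩ := hT (max N (s.1 + 1)) ((1 / 2) ^ t) (by positivity)
  have hl1 : s.1 < l := by omega
  have h0 := hN l (by omega)
  have hp : (0 : ℝ) < (1 / 2) ^ (l + 1) := by positivity
  have hsm : ∀ m : ℕ, 0 < m → m ≤ l + 1 → (1 / 2 : ℝ) ^ (l + 1) ≤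
      (1 / 2) ^ t * ((1 / 2) ^ (s.1 + 1) / m) := by
    intro m hm hm'
    have h1 : (0 : ℝ) < m := Nat.cast_pos.2 hm
    have h2 : (m : ℝ) ≤ (l + 1 : ℕ) := Nat.cast_le.2 hm'
    rw [← mul_div_assoc, le_div_iff₀ h1, ← hη]
    nlinarith
  let y0 : Can := fun _ => true
  have hK : Det (l + 1) (KK s) := (det_KK s).mono (by omega)
  have hC : cy (l + 1) y0 ⊆ KK s ∨ cy (l + 1) y0 ⊆ (KK s)ᶜ := by
    by_cases h : y0 ∈ KK s
    exacts [Or.inl (hK _ h), Or.inr (hK.compl _ h)]
  obtain ⟨D, hD⟩ := exists_KK hK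
  obtain ⟨D', hD'⟩ := exists_KK (l := l) (K := symmDiff (KK s) (cy (l + 1) y0)) (by
    rw [symmDiff_def, sdiff_eq, sdiff_eq]
    exact (hK.inter (det_cy _ _).compl).union ((det_cy _ _).inter hK.compl))
  have h1 : Legit G t s (l, D) := by
    refine ⟨hl1, hg, ?_, fun i _ n _ y m _ => ?_⟩
    · rw [hD, symmDiff_self, bot_eq_empty, measureReal_empty]
      positivity
    · rw [hD, sub_self, abs_zero]
      positivity
  have h2 : Legit G t s (l, D') := by
    refine ⟨hl1, hg, ?_, fun i hi n hn y m hm => ?_⟩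
    · rw [hD', symmDiff_symmDiff_cancel_left, lam_real_cy]
      have := hsm (s.1 + 1) (by omega) (by omega)
      push_cast at this
      exact this
    · rw [hD', psi_symmDiff m (meas_KK s) (meas_cy _ _) hC]
      by_cases hy : y0 ∈ cy (n + 1) y
      · have e : G i ∩ cy (n + 1) y ∩ cy (l + 1) y0 = G i ∩ cy (l + 1) y0 := by
          rw [inter_assoc, ← cy_eq_of_mem hy, inter_eq_right.2 (cy_anti (by omega) y0)]
        rw [e]
        by_cases hm' : m ≤ l
        · refine (abs_psi_le _ _).trans ((measureReal_mono inter_subset_right).trans ?_)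
          rw [lam_real_cy]
          exact hsm m (by omega) (by omega)
        · refine ((hg i hi y0).2 m (by omega)).trans ?_
          rw [mul_div_assoc]
          gcongr (1 / 2) ^ t * (?_ / m)
          exact half_anti hl1.le
      · have e : G i ∩ cy (n + 1) y ∩ cy (l + 1) y0 = ∅ := by
          refine eq_empty_of_forall_notMem fun z hz => hy fun k hk => ?_
          exact (hz.2 k (by omega)).symm.trans (hz.1.2 k hk)
        rw [e, psi_empty, abs_zero]
        positivity
  by_cases h3 : (1 / 2 : ℝ) ^ (l + 1) / 2 ≤ lam.real (symmDiff (KK (l, D)) B)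
  · exact ⟨_, h1, h3⟩
  · refine ⟨_, h2, ?_⟩
    have h4 : cy (l + 1) y0 ⊆ symmDiff (KK (l, D)) B ∪ symmDiff (KK (l, D')) B := by
      intro z hz
      rw [hD, hD']
      simp only [mem_union, mem_symmDiff]
      tauto
    have h5 := (measureReal_mono (μ := lam) h4).trans (measureReal_union_le _ _)
    rw [lam_real_cy] at h5
    change (1 / 2 : ℝ) ^ (l + 1) / 2 ≤ _
    linarith

theorem sep_ne {G : ℕ → Set Can} {c : ℕ → St} {B : Set Can} {t : ℕ} (ht : 2 ≤ t)
    (h : Sep G B t (st G c t) (c t)) : ¬ Phi G c =ᵐ[lam] B := by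
  intro hB
  have e : st G c (t + 1) = c t := by rw [st, if_pos h.1]
  have h1 := phi_tail G c (t + 1)
  rw [e] at h1
  have h2 := h.2
  rw [measureReal_congr ((EventuallyEq.rfl (f := KK (c t))).symmDiff hB.symm), symmDiff_comm] at h2
  have h3 : (1 / 2 : ℝ) ^ (t + 1) ≤ (1 / 2) ^ (2 + 1) := half_anti ht
  have h4 : (0 : ℝ) < (1 / 2) ^ ((c t).1 + 1) := by positivity
  have h5 : (1 / 2 : ℝ) ^ ((c t).1 + 1) / ((c t).1 + 1) ≤ (1 / 2) ^ ((c t).1 + 1) :=
    div_le_self h4.le (by linarith [Nat.cast_nonneg (α := ℝ) (c t).1])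
  have h6 := mul_le_mul h3 h5 (by positivity) (by positivity)
  nlinarith

theorem meas_sep {X : Type} [MeasurableSpace X] {F : ℕ → Set (X × Can)}
    (hF : ∀ i, MeasurableSet (F i)) {B : Set (X × Can)} (hB : MeasurableSet B) (t : ℕ) (s s' : St) :
    Measurable fun x => Sep (fun i => sec (F i) x) (sec B x) t s s' :=
  (meas_legit hF t s s').and (meas_le measurable_const
    (meas_real_sec ((measurable_snd (meas_KK s')).symmDiff hB)))

variable {W : Type} [LinearOrder W] [WellFoundedLT W] {en : W → ℕ → Tm W}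
  (hen : ∀ a, range (en a) = Below a)
include hen

theorem generic_new (a : W) {u : Tm W} (hu : u ∈ Below a) {V : Set (XX W)} (hV : IsOpen V)
    (hne : V.Nonempty) (h : ∀ᶠ x in residual (XX W), x ∈ V → Agen en a x =ᵐ[lam] val en u x) :
    False := by
  classical
  obtain ⟨x0, hx0⟩ := hne
  obtain ⟨s, hs⟩ := exists_box hV hx0
  obtain ⟨T, hT2, hT⟩ : ∃ T, 2 ≤ T ∧ ∀ p ∈ s, p.2.1 < T := ⟨s.sup (fun p => p.2.1) + 2, by omega,
    fun p hp => Nat.lt_succ_of_le ((Finset.le_sup (f := fun p : Jx W × ℕ × ℕ => p.2.1) hp).trans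
      (Nat.le_succ _))⟩
  obtain ⟨K, hK⟩ : ∃ K, ∀ p ∈ s, p.2.2 < K := ⟨s.sup (fun p => p.2.2) + 1, fun p hp =>
    Nat.lt_succ_of_le (Finset.le_sup (f := fun p : Jx W × ℕ × ℕ => p.2.2) hp)⟩
  let x1 : XX W := fun i => if i.2.2 = K then true else x0 i
  let s1 : Finset (Jx W × ℕ × ℕ) := s ∪ {emb a} ×ˢ Finset.range T ×ˢ Finset.range (K + 1)
  have hs1 : box s1 x1 ⊆ V := fun x hx => hs fun i hi =>
    (hx i (Finset.mem_union_left _ hi)).trans (if_neg (hK i hi).ne)
  have hs1T : ∀ p ∈ s1, p.2.1 < T := by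
    intro p hp
    rcases Finset.mem_union.1 hp with hp | hp
    · exact hT p hp
    · exact Finset.mem_range.1 (Finset.mem_product.1 (Finset.mem_product.1 hp).2).1
  have hcc : ∀ x ∈ box s1 x1, ∀ t < T, cc (emb a) x t = cc (emb a) x1 t := fun x hx t ht =>
    cc_congr (K := K) (if_pos rfl) fun k hk => hx _ (Finset.mem_union_right _ (by
      simp [ht, Nat.lt_succ_of_le hk]))
  obtain ⟨j, V2, hV2, ⟨x2, hx2⟩, hV21, hR2⟩ := exists_open_of_ae (isOpen_box s1 x1)
    ⟨x1, self_mem_box _ _⟩ (Z := fun j => {x | Sep (fun i => val en (en a i) x) (val en u x) T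
      (st (fun i => val en (en a i) x) (cc (emb a) x1) T) (dec j)})
    (fun j => meas_comp (meas_st (F := fun i => FT en (en a i)) (c := fun _ => cc (emb a) x1)
      (fun i => meas_FT hen _) (fun _ _ => MeasurableSet.const _) T)
      (p := fun r x => Sep (fun i => val en (en a i) x) (val en u x) T r (dec j)) fun r =>
      (meas_sep (F := fun i => FT en (en a i)) (fun i => meas_FT hen _) (meas_FT hen u) T r
        (dec j)).setOf)
    (Eventually.of_forall fun x _ => by
      obtain ⟨s', hs'⟩ := exists_sep (fun i => val en (en a i) x) (val en u x) T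
        (st (fun i => val en (en a i) x) (cc (emb a) x1) T)
        fun N ε hε => val_good hen x (en a) T N hε
      obtain ⟨j, rfl⟩ := dec_surj s'
      exact ⟨j, hs'⟩)
  obtain ⟨s2, hs2⟩ := exists_box hV2 hx2
  let s3 : Finset (Jx W × ℕ × ℕ) := s2 ∪ {emb a} ×ˢ {T} ×ˢ Finset.range (j + 1)
  let w : XX W := fun i => if i.1 = emb a ∧ i.2.1 = T then xor (x2 i) (decide (i.2.2 = j)) else false
  have := Cat.baire (X := XX W)
  obtain ⟨x, hx, h1, h2⟩ := (dense_of_mem_residual (hR2.and (cubeFlip_residual w h))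
    ).inter_open_nonempty _ (isOpen_box s3 x2) ⟨x2, self_mem_box _ _⟩
  have hxV : x ∈ V2 := hs2 (box_anti Finset.subset_union_left _ hx)
  have hw : ∀ i, ¬ (i.1 = emb a ∧ i.2.1 = T) → cubeFlip w x i = x i := fun i hi => by
    change xor (x i) (w i) = x i
    simp only [w, if_neg hi, Bool.xor_false]
  have hx' : cubeFlip w x ∈ box s1 x1 := fun i hi =>
    (hw i fun h => (hs1T i hi).ne h.2).trans (hV21 hxV i hi)
  have hinv : ∀ i : Jx W × ℕ × ℕ, i.1 ≠ emb a → x i = cubeFlip w x i :=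
    fun i hi => (hw i fun h => hi h.1).symm
  have h3 := h1 hxV
  have e1 : (fun i => val en (en a i) x) = fun i => val en (en a i) (cubeFlip w x) :=
    funext fun i => val_congr hen hinv (en_below hen a i)
  have e2 : cc (emb a) (cubeFlip w x) T = dec j := cc_eq fun k hk => by
    have h4 : x (emb a, T, k) = x2 (emb a, T, k) := hx _ (Finset.mem_union_right _ (by
      simp [Nat.lt_succ_of_le hk]))
    change xor (x _) (w _) = _
    simp [w, h4]
  rw [mem_ofPred_eq, e1, val_congr hen hinv hu, ← st_congr _ (hcc _ hx'), ← e2] at h3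
  refine sep_ne hT2 h3 (EventuallyEq.trans ?_ (h2 (hs1 hx')))
  rw [Agen_eq hen]
  exact (lift_ae _ _).symm

theorem gen_ne {a b : W} (h : b < a) (U : UF (XX W)) :
    fm U (FT en (Tm.gen a)) ≠ fm U (FT en (Tm.gen b)) := by
  intro e
  obtain ⟨c, hc⟩ := (inferInstance : Tr fun U : UF (XX W) =>
    fm U (FT en (Tm.gen a)) = fm U (FT en (Tm.gen b))).ex
  exact generic_new hen a (u := Tm.gen b) (fun _ hd => Finset.mem_singleton.1 hd ▸ h) c.isOpen
    (Ultrafilter.nonempty_of_mem ((hc U).1 e)) (res_of_forall fun U hU =>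
      fam_eq_ae (meas_FT hen _) (meas_FT hen _) ((hc U).2 hU))

theorem unc_RN [Uncountable W] (U : UF (XX W)) :
    ¬ Inj (El U) (fun A => El U A (cls U (RN en))) fun n => El U n (om U) := by
  rintro ⟨f, -, h1, h2⟩
  obtain ⟨φ, rfl⟩ := mk_surj f
  choose b hb using fun (a : W) (n : ℕ) => (inferInstance : Tr fun U =>
    (∀ a a' b, App (El U) (cls U φ) a b → App (El U) (cls U φ) a' b → a = a') ∧
      App (El U) (cls U φ) (fm U (FT en (Tm.gen a))) (num U n)).ex
  have key : ∀ a, ∃ n, b a n ≠ ⊥ := by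
    intro a
    by_contra hc
    push Not at hc
    obtain ⟨A, hA, hA'⟩ := h1 _ (el_RN U (Tm.gen a))
    refine all_om (fun U A => ¬ ((∀ a a' b, App (El U) (cls U φ) a b →
      App (El U) (cls U φ) a' b → a = a') ∧ App (El U) (cls U φ) (fm U (FT en (Tm.gen a))) A))
      (fun n U h => ?_) hA ⟨h2, hA'⟩
    exact not_hold_bot U (hc n ▸ (hb a n U).1 h)
  choose t ht using key
  obtain ⟨n, hn⟩ : ∃ n, ¬ {a | t a = n}.Countable := by
    by_contra hc
    push Not at hc
    refine Set.not_countable_univ ((countable_iUnion hc).mono fun a _ => ?_)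
    exact mem_iUnion.2 ⟨_, rfl⟩
  have : Uncountable {a | t a = n} := not_countable_iff.1 (mt Set.countable_coe_iff.1 hn)
  obtain ⟨i, j, hij, h3⟩ := ccc_pair (fun j : {a | t a = n} => b j n) fun j => by
    have := ht j
    rwa [j.2] at this
  obtain ⟨U', hU'⟩ := exists_uf h3
  rw [hold_inf, ← hb, ← hb] at hU'
  have h4 := hU'.1.1 _ _ _ hU'.1.2 hU'.2.2
  rcases lt_trichotomy i.1 j.1 with h | h | h
  exacts [gen_ne hen h U' h4.symm, hij (Subtype.ext h), gen_ne hen h U' h4]

theorem aleph1_RN [Uncountable W] (hW : ∀ a : W, (Iio a).Countable) (U : UF (XX W)) :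
    Aleph1 (El U) (om U) (cls U (RN en)) := by
  refine ⟨unc_RN hen U, fun Y _ => ?_⟩
  have hwf : WellFounded (Prod.Lex (· < ·) (· < ·) : W × ℕ → W × ℕ → Prop) :=
    wellFounded_lt.prod_lex wellFounded_lt
  refine (le_aleph1 hwf (trichotomous_of _) (fun i => ?_) (fun p => famN (FT en (en p.1 p.2)))
    U Y).imp id fun h => h.mono fun z hz => ?_
  · refine Set.countable_coe_iff.2 ((((hW i.1).insert i.1).prod
      (Set.countable_univ (α := ℕ))).mono fun j hj => mem_prod.2 ⟨?_, mem_univ _⟩)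
    rcases Prod.lex_def.1 hj with h | h
    exacts [Or.inr h, Or.inl h.1]
  · refine all_RN (fun U z => El U z (cls U (Name.mk (W × ℕ)
      (fun p => famN (FT en (en p.1 p.2))) fun _ => ⊤))) (fun t U => ?_) hz
    obtain ⟨a, ha⟩ : ∃ a, t ∈ Below a := by
      by_contra hc
      push Not at hc
      refine Set.not_countable_univ ((t.gens.countable_toSet.biUnion fun b _ =>
        (hW b).insert b).mono fun a _ => ?_)
      obtain ⟨b, hb, hb'⟩ : ∃ b ∈ t.gens, a ≤ b := by simpa [Below] using hc a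
      exact mem_biUnion hb (hb'.eq_or_lt.imp id id)
    rw [← hen] at ha
    obtain ⟨n, rfl⟩ := ha
    exact el_of_v (fun p : W × ℕ => famN (FT en (en p.1 p.2))) _ (a, n) (hold_top U)

omit hen in
theorem main_cov : ∃ (M : Type 1) (E : M → M → Prop), ZFC E ∧ PropCov E := by
  obtain ⟨W, _, _, _, hW⟩ := exists_omega1
  choose en hen using fun a : W =>
    (countable_below (hW a)).exists_eq_range ⟨_, Below.cyl a 0⟩
  replace hen := fun a => (hen a).symm
  obtain ⟨U⟩ : Nonempty (UF (XX W)) := inferInstance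
  have : Nonempty (Tm W) := ⟨Tm.cyl 0⟩
  have h0 : Cardinal.aleph0 ≤ Cardinal.mk (Tm W × ℕ) := Cardinal.aleph0_le_mk _
  refine ⟨Md U, El U, zfc_md U, om U, cls U (BN en), cls U (RN en), omega_om U,
    ⟨hasT_BN hen U, fun B hB hs => max_BN hen U B hB fun A hA => hs A (RN_subs hen U A hA)⟩,
    RN_subs hen U, fun _ hA => rep_BN hen hA, hasT_RN hen U, pos_RN hen U, max_RN hen U,
    aleph1_RN hen hW U, not_inj_RN U, covC_md ?_ ?_ U⟩
  · rw [Cardinal.mk_set, ← Cardinal.power_mul, Cardinal.mul_eq_left h0 h0 Cardinal.aleph0_ne_zero]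
  · rw [Cardinal.mk_set]
    exact h0.trans_lt (Cardinal.cantor _)

end Pool.Agent.Lib.MP_898cae_lc
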